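import Pool.Agent.H85.Fold2.MatsY
import Pool.Agent.H85.Fold.RankDrop

/-!
# Project FOLD, second stage: Betti numbers over the real numbers and modulo a prime
-/

set_option autoImplicit false

open Finset

namespace Pool.Agent.H85.Fold2

open Pool.Agent.H85.Fold

variable {V : Type} [DecidableEq V] [Fintype V]

private theorem dropY_minor {m n K : Type} [Fintype m] [Fintype n] [Field K] (A : Matrix m n K) :
    ∃ (r : Fin A.rank → m) (c : Fin A.rank → n), (A.submatrix r c).det ≠ 0 := by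
  classical
  have h1 : A.rank = Module.finrank K (Submodule.span K (Set.range A.row)) :=
    Matrix.rank_eq_finrank_span_row A
  obtain ⟨f, hf, -, hli⟩ := Submodule.exists_fun_fin_finrank_span_eq K (Set.range A.row)
  choose r0 hr0 using hf
  have hli' : LinearIndependent K (fun i : Fin A.rank => A (r0 (Fin.cast h1 i))) := by
    have h2 : (fun i : Fin A.rank => A (r0 (Fin.cast h1 i))) = f ∘ (Fin.cast h1) := by
      funext i
      exact hr0 _
    rw [h2]
    exact hli.comp _ (Fin.cast_injective h1)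
  set r : Fin A.rank → m := fun i => r0 (Fin.cast h1 i) with hr
  let B : Matrix (Fin A.rank) n K := A.submatrix r id
  have hB : B.rank = A.rank := by
    have := LinearIndependent.rank_matrix (M := B) hli'
    simpa using this
  have h3 : B.rank = Module.finrank K (Submodule.span K (Set.range B.col)) :=
    Matrix.rank_eq_finrank_span_cols B
  obtain ⟨g, hg, -, hgli⟩ := Submodule.exists_fun_fin_finrank_span_eq K (Set.range B.col)
  choose c0 hc0 using hg
  have h4 : A.rank = Module.finrank K (Submodule.span K (Set.range B.col)) := by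
    rw [← h3, hB]
  refine ⟨r, fun i => c0 (Fin.cast h4 i), ?_⟩
  have hli2 : LinearIndependent K (fun i : Fin A.rank => B.col (c0 (Fin.cast h4 i))) := by
    have h2 : (fun i : Fin A.rank => B.col (c0 (Fin.cast h4 i))) = g ∘ (Fin.cast h4) := by
      funext i
      exact hc0 _
    rw [h2]
    exact hgli.comp _ (Fin.cast_injective h4)
  have h5 : IsUnit (A.submatrix r fun i => c0 (Fin.cast h4 i)) := by
    rw [← Matrix.linearIndependent_cols_iff_isUnit]
    exact hli2
  exact ((Matrix.isUnit_iff_isUnit_det _).1 h5).ne_zero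

/-- ranks over the real numbers and over an arbitrary field -/
theorem rank_le_real {m n : Type} [Fintype m] [Fintype n] (A : Matrix m n ℤ) (F : Type)
    [Field F] : (A.map (Int.cast : ℤ → F)).rank ≤ (A.map (Int.cast : ℤ → ℝ)).rank := by
  classical
  obtain ⟨r, c, hdet⟩ := dropY_minor (A.map (Int.cast : ℤ → F))
  generalize (A.map (Int.cast : ℤ → F)).rank = k at r c hdet ⊢
  have h1 : (((A.submatrix r c).det : ℤ) : F) ≠ 0 := by
    have : ((A.map (Int.cast : ℤ → F)).submatrix r c) =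
        (Int.castRingHom F).mapMatrix (A.submatrix r c) := by
      ext i j
      simp
    rw [this, ← RingHom.map_det] at hdet
    simpa using hdet
  have h2 : (A.submatrix r c).det ≠ 0 := by
    intro h
    rw [h] at h1
    simp at h1
  have h3 : ((A.map (Int.cast : ℤ → ℝ)).submatrix r c).det ≠ 0 := by
    have : ((A.map (Int.cast : ℤ → ℝ)).submatrix r c) =
        (Int.castRingHom ℝ).mapMatrix (A.submatrix r c) := by
      ext i j
      simp
    rw [this, ← RingHom.map_det]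
    simpa using h2
  have h4 : LinearIndependent ℝ ((A.map (Int.cast : ℤ → ℝ)).submatrix r c).row := by
    rw [Matrix.linearIndependent_rows_iff_isUnit, Matrix.isUnit_iff_isUnit_det]
    exact isUnit_iff_ne_zero.2 h3
  have h5 : LinearIndependent ℝ (fun i => (A.map (Int.cast : ℤ → ℝ)).row (r i)) := by
    refine LinearIndependent.of_comp (LinearMap.funLeft ℝ ℝ c) ?_
    exact h4
  rw [Matrix.rank_eq_finrank_span_row]
  have h6 : Submodule.span ℝ (Set.range fun i => (A.map (Int.cast : ℤ → ℝ)).row (r i)) ≤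
      Submodule.span ℝ (Set.range (A.map (Int.cast : ℤ → ℝ)).row) := by
    refine Submodule.span_mono ?_
    rintro _ ⟨i, rfl⟩
    exact ⟨r i, rfl⟩
  have h7 := Submodule.finrank_mono h6
  rw [finrank_span_eq_card h5] at h7
  simpa using h7

/-- the real Betti numbers are the smallest ones -/
theorem bY_real_le (G : SimpleGraph V) (ρ : IMod G) (ν : V → ℕ) (hν : Function.Injective ν)
    (Y : Finset V) (i : ℕ) {Ω : Type} [Fintype Ω] (s : V → Ω → Ω) (hs : IsActOn G Y s)
    (K : Type) [Field K] (hK : (2 : K) ≠ 0) :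
    bY ℝ G Y (mc ℝ ρ.A) s ν i ≤ bY K G Y (mc K ρ.A) s ν i := by
  obtain ⟨C, R, -, H⟩ := exists_matsY G ρ ν Y i
  obtain ⟨m₁, n₁, m₂, n₂, _, _, _, _, A₁, A₂, -, -, -, -, hAll⟩ := H Ω s hs
  obtain ⟨a1, a2⟩ := hAll ℝ two_ne_zero
  obtain ⟨b1, b2⟩ := hAll K hK
  have d1 := rank_le_real A₁ K
  have d2 := rank_le_real A₂ K
  unfold bY
  rw [a2, b2]
  omega

/-- **The Betti numbers modulo a prime are not much larger.** -/
theorem bY_drop (G : SimpleGraph V) (ρ : IMod G) (ν : V → ℕ) (hν : Function.Injective ν)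
    (Y : Finset V) (i : ℕ) :
    ∃ C : ℕ, 1 ≤ C ∧ ∀ (Ω : Type) [Fintype Ω] (s : V → Ω → Ω), IsActOn G Y s →
      ∀ (p : ℕ) [Fact p.Prime], p ≠ 2 →
        p ^ (bY (ZMod p) G Y (mc (ZMod p) ρ.A) s ν i - bY ℝ G Y (mc ℝ ρ.A) s ν i) ≤
          C ^ Fintype.card Ω := by
  obtain ⟨C, R, hC1, H⟩ := exists_matsY G ρ ν Y i
  refine ⟨C ^ (2 * R), Nat.one_le_pow _ _ hC1, ?_⟩
  intro Ω _ s hs p hp hp2
  obtain ⟨m₁, n₁, m₂, n₂, _, _, _, _, A₁, A₂, hm1, hm2, h1, h2, hAll⟩ := H Ω s hs
  have h2ne : (2 : ZMod p) ≠ 0 := by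
    intro h
    have h3 : ((2 : ℕ) : ZMod p) = 0 := by exact_mod_cast h
    rw [ZMod.natCast_eq_zero_iff] at h3
    exact hp2 ((Nat.prime_dvd_prime_iff_eq hp.out Nat.prime_two).mp h3)
  obtain ⟨a1, a2⟩ := hAll ℝ two_ne_zero
  obtain ⟨b1, b2⟩ := hAll (ZMod p) h2ne
  have d1 := rank_drop A₁ C hC1 h1 p
  have d2 := rank_drop A₂ C hC1 h2 p
  have e1 := rank_le_real A₁ (ZMod p)
  have e2 := rank_le_real A₂ (ZMod p)
  have hexp : bY (ZMod p) G Y (mc (ZMod p) ρ.A) s ν i - bY ℝ G Y (mc ℝ ρ.A) s ν i ≤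
      ((A₁.map (Int.cast : ℤ → ℝ)).rank - (A₁.map (Int.cast : ℤ → ZMod p)).rank) +
      ((A₂.map (Int.cast : ℤ → ℝ)).rank - (A₂.map (Int.cast : ℤ → ZMod p)).rank) := by
    unfold bY
    rw [a2, b2]
    omega
  have hp1 : 1 ≤ p := hp.out.one_lt.le
  calc p ^ (bY (ZMod p) G Y (mc (ZMod p) ρ.A) s ν i - bY ℝ G Y (mc ℝ ρ.A) s ν i)
      ≤ p ^ (((A₁.map (Int.cast : ℤ → ℝ)).rank - (A₁.map (Int.cast : ℤ → ZMod p)).rank) +
        ((A₂.map (Int.cast : ℤ → ℝ)).rank - (A₂.map (Int.cast : ℤ → ZMod p)).rank)) :=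
        Nat.pow_le_pow_right hp1 hexp
    _ = p ^ ((A₁.map (Int.cast : ℤ → ℝ)).rank - (A₁.map (Int.cast : ℤ → ZMod p)).rank) *
        p ^ ((A₂.map (Int.cast : ℤ → ℝ)).rank - (A₂.map (Int.cast : ℤ → ZMod p)).rank) :=
        pow_add _ _ _
    _ ≤ C ^ Fintype.card m₁ * C ^ Fintype.card m₂ := Nat.mul_le_mul d1 d2
    _ ≤ C ^ (R * Fintype.card Ω) * C ^ (R * Fintype.card Ω) :=
        Nat.mul_le_mul (Nat.pow_le_pow_right hC1 hm1) (Nat.pow_le_pow_right hC1 hm2)
    _ = (C ^ (2 * R)) ^ Fintype.card Ω := by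
        rw [← pow_add, ← pow_mul]
        congr 1
        ring

end Pool.Agent.H85.Fold2
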