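import Pool.Agent.H85.Fold.ModDefs
import Pool.Agent.H85.Fold.Sphere

/-!
# Project FOLD, second stage: definitions

Twisted chains of induced subgraphs, over arbitrary fields; growth; the class of graphs.
-/

set_option autoImplicit false

open Finset

namespace Pool.Agent.H85.Fold2

open Pool.Agent.H85.Fold
open Pool.Agent.H4.Singer (sg)

section

variable (K : Type) [Field K] {V D Ω : Type} [DecidableEq V] [Fintype V] [Fintype D]
  [DecidableEq D]

/-- commuting involutions indexed by the vertices in `Y` -/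
structure IsActOn (G : SimpleGraph V) (Y : Finset V) (s : V → Ω → Ω) : Prop where
  inv : ∀ v ∈ Y, ∀ ω, s v (s v ω) = ω
  comm : ∀ u ∈ Y, ∀ v ∈ Y, G.Adj u v → ∀ ω, s u (s v ω) = s v (s u ω)

/-- twisted chains of degree `i` on the induced subgraph on `Y`, over the field `K` -/
def YCh (G : SimpleGraph V) (Y : Finset V) (B : V → Matrix D D K) (s : V → Ω → Ω) (i : ℕ) :
    Submodule K (Finset V → Ω → D → K) where
  carrier := {f | (∀ σ ω, f σ ω ≠ 0 → σ ⊆ Y ∧ Cl G σ ∧ σ.card = i) ∧
    ∀ σ, ∀ v ∈ σ, ∀ ω, f σ (s v ω) = -(B v).mulVec (f σ ω)}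
  zero_mem' := by
    refine ⟨fun σ ω h => absurd rfl h, fun σ v _ ω => by simp⟩
  add_mem' := by
    rintro f g ⟨h1, h2⟩ ⟨h3, h4⟩
    refine ⟨fun σ ω h => ?_, fun σ v hv ω => ?_⟩
    · by_cases hf : f σ ω = 0
      · by_cases hg : g σ ω = 0
        · exact absurd (by simp [hf, hg]) h
        · exact h3 σ ω hg
      · exact h1 σ ω hf
    · simp only [Pi.add_apply]
      rw [h2 σ v hv ω, h4 σ v hv ω]
      simp only [Matrix.mulVec_add]
      abel
  smul_mem' := by
    rintro c f ⟨h1, h2⟩
    refine ⟨fun σ ω h => h1 σ ω ?_, fun σ v hv ω => ?_⟩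
    · intro h0
      exact h (by simp [h0])
    · simp only [Pi.smul_apply]
      rw [h2 σ v hv ω]
      simp only [Matrix.mulVec_smul, smul_neg]

/-- twisted cycles -/
def YZ (G : SimpleGraph V) (Y : Finset V) (B : V → Matrix D D K) (s : V → Ω → Ω) (ν : V → ℕ)
    (i : ℕ) : Submodule K (Finset V → Ω → D → K) := YCh K G Y B s i ⊓ LinearMap.ker (tdl K ν)

/-- twisted boundaries -/
def YB (G : SimpleGraph V) (Y : Finset V) (B : V → Matrix D D K) (s : V → Ω → Ω) (ν : V → ℕ)
    (i : ℕ) : Submodule K (Finset V → Ω → D → K) := (YCh K G Y B s (i + 1)).map (tdl K ν)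

/-- twisted Betti numbers -/
noncomputable def bY (G : SimpleGraph V) (Y : Finset V) (B : V → Matrix D D K) (s : V → Ω → Ω)
    (ν : V → ℕ) (i : ℕ) : ℕ :=
  Module.finrank K (YZ K G Y B s ν i) - Module.finrank K (YB K G Y B s ν i)

/-- untwisted Betti numbers of a group `P` with elements `g v` -/
noncomputable def bP (G : SimpleGraph V) (Y : Finset V) {P : Type} [Group P] (g : V → P)
    (ν : V → ℕ) (i : ℕ) : ℕ :=
  bY K G Y (fun _ => (1 : Matrix Unit Unit K)) (fun v x => x * g v) ν i

/-- an integer matrix over a field -/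
def mc (A : V → Matrix D D ℤ) (v : V) : Matrix D D K := (A v).map (Int.cast : ℤ → K)

end

section

variable {V : Type} [DecidableEq V] [Fintype V]

/-- an integer representation of the right-angled Coxeter group of a graph -/
structure IMod (G : SimpleGraph V) where
  D : Type
  fin : Fintype D
  dec : DecidableEq D
  A : V → Matrix D D ℤ
  sq : ∀ v, A v * A v = 1
  comm : ∀ u v, G.Adj u v → A u * A v = A v * A u

attribute [instance] IMod.fin IMod.dec

/-- The growth of the homology in degree `i` of the induced subgraph on `Y` is zero: for finitely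
many integer representations `ρ` the real Betti numbers over a finite quotient `P` are at most
`η |P|` if the representations modulo a large prime `p` are trivialized by `P`. -/
def GVan (ν : V → ℕ) (G : SimpleGraph V) (Y : Finset V) (i : ℕ) : Prop :=
  ∃ (m : ℕ) (ρ : Fin m → IMod G), ∀ η : ℝ, 0 < η → ∃ p₀ : ℕ, ∀ (p : ℕ) [Fact p.Prime],
    p₀ ≤ p → ∀ (P : Type) [Group P] [Fintype P] (g : V → P), (∀ v, g v * g v = 1) →
      (∀ u v, G.Adj u v → g u * g v = g v * g u) →
      (∀ k, ∃ r : P →* Matrix (ρ k).D (ρ k).D (ZMod p),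
        ∀ v, r (g v) = ((ρ k).A v).map (Int.cast : ℤ → ZMod p)) →
      (bP ℝ G Y g ν i : ℝ) ≤ η * Fintype.card P

/-- Folding vectors of a graph. -/
structure IsFoldR {W : Type} (H : SimpleGraph W) {n m : ℕ} (p : W → Fin n → ℝ)
    (a : W → Fin m → ℝ) : Prop where
  zero : ∀ u v, u = v ∨ H.Adj u v → p u ⬝ᵥ p v = a u ⬝ᵥ a v
  neg : ∀ u v, u ≠ v → ¬ H.Adj u v → p u ⬝ᵥ p v < a u ⬝ᵥ a v

/-- a homology sphere of dimension `n - 1` with folding vectors -/
def IsFoldSphere {W : Type} [DecidableEq W] [Fintype W] (H : SimpleGraph W) (n : ℕ) : Prop :=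
  IsHomologySphere H n ∧ ∃ (m : ℕ) (p : W → Fin n → ℝ) (a : W → Fin m → ℝ), IsFoldR H p a

/-- The class of (sets of vertices of) graphs: induced subgraphs of folded homology spheres of
dimension `n - 1`, closed under: from `n` to `n + 1`; cones; unions for `n + 2` without edges between
the complements, if the intersection is in the class for `n`; for even `n`, graphs for `n + 2` all of
whose vertex links are in the class for `n + 1`. -/
inductive FV (G : SimpleGraph V) : ℕ → Finset V → Prop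
  | fold (n : ℕ) (Y : Finset V) (W : Type) (decW : DecidableEq W) (finW : Fintype W)
      (H : SimpleGraph W) (hH : IsFoldSphere H n) (φ : V → W)
      (hφ : ∀ u ∈ Y, ∀ v ∈ Y, φ u = φ v → u = v)
      (hadj : ∀ u ∈ Y, ∀ v ∈ Y, G.Adj u v ↔ H.Adj (φ u) (φ v)) : FV G n Y
  | up (n : ℕ) (Y : Finset V) : FV G n Y → FV G (n + 1) Y
  | cone (n : ℕ) (Y : Finset V) (v : V) (hv : ∀ u ∈ Y, G.Adj v u) : FV G n Y →
      FV G n (insert v Y)
  | glue (n : ℕ) (Y Y' : Finset V) (hYY : ∀ u ∈ Y \ Y', ∀ v ∈ Y' \ Y, ¬ G.Adj u v) :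
      FV G (n + 2) Y → FV G (n + 2) Y' → FV G n (Y ∩ Y') → FV G (n + 2) (Y ∪ Y')
  | even (n : ℕ) (hn : Even n) (Y : Finset V) : (∀ v ∈ Y, FV G (n + 1) (nbr G v Y)) →
      FV G (n + 2) Y

end

end Pool.Agent.H85.Fold2
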