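import Pool.Agent.H85.Fold2.ToAlg
import Pool.Agent.H85.Fold2.Defs

/-!
# Project FOLD, second stage: integral folding vectors in a number field
-/

set_option autoImplicit false

open Finset

namespace Pool.Agent.H85.Fold2

private theorem numF_integral {ι : Type} [Finite ι] (y : ι → ℝ)
    (hy : ∀ i, IsAlgebraic ℚ (y i)) :
    ∃ N : ℤ, N ≠ 0 ∧ ∀ i, IsIntegral ℤ ((N : ℝ) * y i) := by
  classical
  have : Fintype ι := Fintype.ofFinite ι
  have h1 : ∀ i, ∃ c : ℤ, c ≠ 0 ∧ IsIntegral ℤ (c • y i) := by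
    intro i
    have h2 : IsAlgebraic ℤ (y i) := (IsFractionRing.isAlgebraic_iff ℤ ℚ ℝ).mpr (hy i)
    obtain ⟨c, hc, hi⟩ := h2.exists_integral_multiple
    exact ⟨c, hc, hi⟩
  choose c hc hi using h1
  refine ⟨∏ i, c i, Finset.prod_ne_zero_iff.mpr fun i _ => hc i, fun i => ?_⟩
  have e : ((∏ j, c j : ℤ) : ℝ) * y i =
      ((∏ j ∈ Finset.univ.erase i, c j : ℤ) : ℝ) * (c i • y i) := by
    rw [zsmul_eq_mul, ← Finset.mul_prod_erase Finset.univ c (Finset.mem_univ i)]
    push_cast
    ring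
  rw [e]
  refine IsIntegral.mul ?_ (hi i)
  exact isIntegral_algebraMap (R := ℤ) (A := ℝ) (x := ∏ j ∈ Finset.univ.erase i, c j)

/-- real folding vectors give folding vectors with algebraic integer coordinates -/
theorem exists_integral_fold {V : Type} [Finite V] (G : SimpleGraph V) {n m : ℕ}
    (p : V → Fin n → ℝ) (a : V → Fin m → ℝ) (hf : IsFoldR G p a) :
    ∃ (K : Type) (_ : Field K) (_ : NumberField K) (τ : K →+* ℝ)
      (p' : V → Fin n → NumberField.RingOfIntegers K)
      (a' : V → Fin m → NumberField.RingOfIntegers K),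
      IsFoldR G (fun v i => τ (p' v i)) (fun v j => τ (a' v j)) := by
  classical
  have : Fintype V := Fintype.ofFinite V
  -- the polynomials
  set Q : V → V → MvPolynomial ((V × Fin n) ⊕ (V × Fin m)) ℚ := fun u v =>
    (∑ i, MvPolynomial.X (Sum.inl (u, i)) * MvPolynomial.X (Sum.inl (v, i))) -
      ∑ j, MvPolynomial.X (Sum.inr (u, j)) * MvPolynomial.X (Sum.inr (v, j)) with hQ
  have hQe : ∀ (z : (V × Fin n) ⊕ (V × Fin m) → ℝ) (u v : V), MvPolynomial.aeval z (Q u v) =
      (fun i => z (Sum.inl (u, i))) ⬝ᵥ (fun i => z (Sum.inl (v, i))) -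
      (fun j => z (Sum.inr (u, j))) ⬝ᵥ (fun j => z (Sum.inr (v, j))) := by
    intro z u v
    simp only [hQ, map_sub, map_sum, map_mul, MvPolynomial.aeval_X, dotProduct]
  obtain ⟨y, hyalg, hyF, hyP⟩ := real_to_alg
    ((Finset.univ.filter fun q : V × V => q.1 = q.2 ∨ G.Adj q.1 q.2).image fun q => Q q.1 q.2)
    ((Finset.univ.filter fun q : V × V => q.1 ≠ q.2 ∧ ¬ G.Adj q.1 q.2).image fun q => -Q q.1 q.2)
    (Sum.elim (fun q => p q.1 q.2) (fun q => a q.1 q.2))
    (by
      intro f hfm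
      obtain ⟨q, hq, rfl⟩ := Finset.mem_image.mp hfm
      have h := hf.zero q.1 q.2 (Finset.mem_filter.mp hq).2
      rw [hQe]
      exact sub_eq_zero.mpr h)
    (by
      intro f hfm
      obtain ⟨q, hq, rfl⟩ := Finset.mem_image.mp hfm
      obtain ⟨h1, h2⟩ := (Finset.mem_filter.mp hq).2
      have h := hf.neg q.1 q.2 h1 h2
      rw [map_neg, hQe, neg_sub]
      exact sub_pos.mpr h)
  obtain ⟨N, hN, hNi⟩ := numF_integral y hyalg
  have hNr : (N : ℝ) ≠ 0 := Int.cast_ne_zero.mpr hN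
  -- the field
  set K : IntermediateField ℚ ℝ := IntermediateField.adjoin ℚ (Set.range y) with hK
  have hfd : FiniteDimensional ℚ K := by
    apply IntermediateField.finiteDimensional_adjoin
    rintro _ ⟨i, rfl⟩
    exact (hyalg i).isIntegral
  have hNF : NumberField K := by
    refine { to_charZero := inferInstance, to_finiteDimensional := ?_ }
    convert hfd
  set w : (V × Fin n) ⊕ (V × Fin m) → K := fun i =>
    (N : K) * ⟨y i, IntermediateField.subset_adjoin ℚ _ ⟨i, rfl⟩⟩ with hw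
  have hwr : ∀ i, (algebraMap K ℝ) (w i) = (N : ℝ) * y i := by
    intro i
    rw [hw]
    simp only [map_mul, map_intCast]
    rfl
  have hwi : ∀ i, IsIntegral ℤ (w i) := by
    intro i
    have h1 : IsIntegral ℤ ((algebraMap K ℝ) (w i)) := by
      rw [hwr]
      exact hNi i
    exact (isIntegral_algebraMap_iff (algebraMap K ℝ).injective).mp h1
  refine ⟨K, inferInstance, hNF, algebraMap K ℝ, fun v i => ⟨w (Sum.inl (v, i)), hwi _⟩,
    fun v j => ⟨w (Sum.inr (v, j)), hwi _⟩, ?_⟩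
  have key : ∀ u v : V,
      (fun i => (algebraMap K ℝ) (w (Sum.inl (u, i)))) ⬝ᵥ
          (fun i => (algebraMap K ℝ) (w (Sum.inl (v, i)))) -
        (fun j => (algebraMap K ℝ) (w (Sum.inr (u, j)))) ⬝ᵥ
          (fun j => (algebraMap K ℝ) (w (Sum.inr (v, j)))) =
      (N : ℝ) ^ 2 * MvPolynomial.aeval y (Q u v) := by
    intro u v
    rw [hQe]
    simp only [hwr, dotProduct, mul_sub, Finset.mul_sum]
    congr 1
    · exact Finset.sum_congr rfl fun i _ => by ring
    · exact Finset.sum_congr rfl fun i _ => by ring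
  constructor
  · intro u v huv
    have h := hyF (Q u v) (Finset.mem_image.mpr ⟨(u, v), Finset.mem_filter.mpr
      ⟨Finset.mem_univ _, huv⟩, rfl⟩)
    have h2 := key u v
    rw [h, mul_zero, sub_eq_zero] at h2
    exact h2
  · intro u v h1 h2
    have h := hyP (-Q u v) (Finset.mem_image.mpr ⟨(u, v), Finset.mem_filter.mpr
      ⟨Finset.mem_univ _, h1, h2⟩, rfl⟩)
    rw [map_neg, neg_pos] at h
    have h3 := key u v
    have h4 : (N : ℝ) ^ 2 * MvPolynomial.aeval y (Q u v) < 0 :=
      mul_neg_of_pos_of_neg (by positivity) h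
    rw [← h3] at h4
    exact sub_neg.mp h4

end Pool.Agent.H85.Fold2
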