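import Pool.Agent.H85.Fold2.Defs

/-!
# Project FOLD, second stage: restriction of scalars
-/

set_option autoImplicit false

open Finset

namespace Pool.Agent.H85.Fold2

open Pool.Agent.H85.Fold

variable {V D : Type} [DecidableEq V] [Fintype V] [Fintype D] [DecidableEq D]

namespace Restr

section Transport

variable {k K : Type} [Field k] [Field K] {D' : Type} [Fintype D'] [DecidableEq D']
  {G : SimpleGraph V} {Y : Finset V} {B : V → Matrix D D k} {B' : V → Matrix D' D' K}
  {Ω : Type} {s : V → Ω → Ω} {ν : V → ℕ} {i : ℕ}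

/-- the image of a chain under an additive map of the coefficients -/
def tr (L : (D → k) →+ (D' → K)) (f : Finset V → Ω → D → k) : Finset V → Ω → D' → K :=
  fun σ ω => L (f σ ω)

theorem tr_ch {L : (D → k) →+ (D' → K)}
    (hL : ∀ v x, L ((B v).mulVec x) = (B' v).mulVec (L x)) {f : Finset V → Ω → D → k}
    (hf : f ∈ YCh k G Y B s i) : tr L f ∈ YCh K G Y B' s i := by
  obtain ⟨h1, h2⟩ := hf
  refine ⟨fun σ ω h => h1 σ ω fun h0 => h ?_, fun σ v hv ω => ?_⟩
  · show L (f σ ω) = 0
    rw [h0, map_zero]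
  · show L (f σ (s v ω)) = -(B' v).mulVec (L (f σ ω))
    rw [h2 σ v hv ω, map_neg, hL]

theorem tdl_tr (L : (D → k) →+ (D' → K)) (ν : V → ℕ) (f : Finset V → Ω → D → k) :
    tdl K ν (tr L f) = tr L (tdl k ν f) := by
  funext τ ω
  show ∑ v ∈ τᶜ, (Pool.Agent.H4.Singer.sg ν v τ : K) • L (f (insert v τ) ω) =
    L (∑ v ∈ τᶜ, (Pool.Agent.H4.Singer.sg ν v τ : k) • f (insert v τ) ω)
  rw [map_sum]
  refine Finset.sum_congr rfl fun v _ => ?_
  rw [Int.cast_smul_eq_zsmul, Int.cast_smul_eq_zsmul, map_zsmul]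

theorem tr_z {L : (D → k) →+ (D' → K)}
    (hL : ∀ v x, L ((B v).mulVec x) = (B' v).mulVec (L x)) {f : Finset V → Ω → D → k}
    (hf : f ∈ YZ k G Y B s ν i) : tr L f ∈ YZ K G Y B' s ν i := by
  refine ⟨tr_ch hL hf.1, ?_⟩
  have h1 : tdl k ν f = 0 := hf.2
  show tdl K ν (tr L f) = 0
  rw [tdl_tr, h1]
  funext σ ω
  exact map_zero L

end Transport

section Maps

variable {k K : Type} [Field k] [Field K]

/-- entrywise additive map -/
def ew (D : Type) (π : k →+ K) : (D → k) →+ (D → K) where
  toFun x d := π (x d)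
  map_zero' := by
    funext d
    exact map_zero π
  map_add' x y := by
    funext d
    exact map_add π _ _

end Maps

end Restr

open Restr

/-- exactness descends to subfields -/
theorem exact_descend {k K : Type} [Field k] [Field K] (τ : k →+* K) (G : SimpleGraph V)
    (Y : Finset V) (B : V → Matrix D D k) {Ω : Type} [Fintype Ω] (s : V → Ω → Ω) (ν : V → ℕ)
    (i : ℕ)
    (h : YZ K G Y (fun v => (B v).map τ) s ν i ≤ YB K G Y (fun v => (B v).map τ) s ν i) :
    YZ k G Y B s ν i ≤ YB k G Y B s ν i := by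
  letI := τ.toAlgebra
  obtain ⟨π, hπ⟩ := LinearMap.exists_leftInverse_of_injective (Algebra.linearMap k K)
    (LinearMap.ker_eq_bot.2 τ.injective)
  have hπ1 : ∀ a, π (τ a) = a := fun a => LinearMap.congr_fun hπ a
  have hπ2 : ∀ a x, π (τ a * x) = a * π x := by
    intro a x
    have h1 : τ a * x = a • x := (Algebra.smul_def a x).symm
    rw [h1, map_smul, smul_eq_mul]
  intro f hf
  have h1 : tr (ew D τ.toAddMonoidHom) f ∈ YZ K G Y (fun v => (B v).map τ) s ν i := by
    refine tr_z (fun v x => ?_) hf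
    funext d
    show τ (∑ d', B v d d' * x d') = ∑ d', τ (B v d d') * τ (x d')
    rw [map_sum]
    exact Finset.sum_congr rfl fun d' _ => map_mul τ _ _
  obtain ⟨y', hy', hy⟩ := h h1
  refine ⟨tr (ew D π.toAddMonoidHom) y', tr_ch (fun v x => ?_) hy', ?_⟩
  · funext d
    show π (∑ d', τ (B v d d') * x d') = ∑ d', B v d d' * π (x d')
    rw [map_sum]
    exact Finset.sum_congr rfl fun d' _ => hπ2 _ _
  · rw [tdl_tr, hy]
    funext σ ω d
    exact hπ1 _

/-- exactness ascends to extension fields -/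
theorem exact_ascend {k K : Type} [Field k] [Field K] (τ : k →+* K) (G : SimpleGraph V)
    (Y : Finset V) (B : V → Matrix D D k) {Ω : Type} [Fintype Ω] (s : V → Ω → Ω) (ν : V → ℕ)
    (i : ℕ) (h : YZ k G Y B s ν i ≤ YB k G Y B s ν i) :
    YZ K G Y (fun v => (B v).map τ) s ν i ≤ YB K G Y (fun v => (B v).map τ) s ν i := by
  classical
  letI := τ.toAlgebra
  let b := Module.Basis.ofVectorSpace k K
  intro f hf
  have h1 : ∀ β, ∃ y ∈ YCh k G Y B s (i + 1),
      tdl k ν y = tr (ew D (b.coord β).toAddMonoidHom) f := by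
    intro β
    refine h (tr_z (fun v x => ?_) hf)
    funext d
    show b.coord β (∑ d', τ (B v d d') * x d') = ∑ d', B v d d' * b.coord β (x d')
    rw [map_sum]
    refine Finset.sum_congr rfl fun d' _ => ?_
    have h2 : τ (B v d d') * x d' = B v d d' • x d' := (Algebra.smul_def _ _).symm
    rw [h2, map_smul, smul_eq_mul]
  choose y hy hty using h1
  -- the additive map `x ↦ x b`
  let M : K → k →+ K := fun c => (AddMonoidHom.mulRight c).comp τ.toAddMonoidHom
  let F : Finset (Module.Basis.ofVectorSpaceIndex k K) :=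
    Finset.univ.biUnion fun q : Finset V × Ω × D => (b.repr (f q.1 q.2.1 q.2.2)).support
  refine ⟨∑ β ∈ F, tr (ew D (M (b β))) (y β), ?_, ?_⟩
  · refine Submodule.sum_mem _ fun β _ => tr_ch (fun v x => ?_) (hy β)
    funext d
    show τ (∑ d', B v d d' * x d') * b β = ∑ d', τ (B v d d') * (τ (x d') * b β)
    rw [map_sum, Finset.sum_mul]
    refine Finset.sum_congr rfl fun d' _ => ?_
    rw [map_mul, mul_assoc]
  · rw [map_sum]
    simp only [tdl_tr, hty]
    funext σ ω d
    rw [Finset.sum_apply, Finset.sum_apply, Finset.sum_apply]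
    show ∑ β ∈ F, τ (b.coord β (f σ ω d)) * b β = f σ ω d
    have h2 : ∀ β, τ (b.coord β (f σ ω d)) * b β = b.repr (f σ ω d) β • b β := fun β =>
      (Algebra.smul_def _ _).symm
    simp only [h2]
    have h3 : (b.repr (f σ ω d)).support ⊆ F :=
      Finset.subset_biUnion_of_mem
        (fun q : Finset V × Ω × D => (b.repr (f q.1 q.2.1 q.2.2)).support)
        (Finset.mem_univ (σ, ω, d))
    have h4 := b.linearCombination_repr (f σ ω d)
    rw [Finsupp.linearCombination_apply, Finsupp.sum] at h4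
    rw [← h4]
    symm
    rw [h4]
    conv_lhs => rw [← h4]
    refine Finset.sum_subset h3 fun β _ hβ => ?_
    rw [Finsupp.notMem_support_iff.1 hβ, zero_smul]

/-- **Restriction of scalars.** -/
theorem restrict_scalars (K : Type) [Field K] [NumberField K] (τ : K →+* ℝ)
    (G : SimpleGraph V) (B : V → Matrix D D (NumberField.RingOfIntegers K))
    (hsq : ∀ v, B v * B v = 1) (hcomm : ∀ u v, G.Adj u v → B u * B v = B v * B u)
    (Y : Finset V) (ν : V → ℕ) (i : ℕ)
    (h : ∀ (Ω : Type) [Fintype Ω] (s : V → Ω → Ω), IsActOn G Y s →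
      YZ ℝ G Y (fun v => (B v).map fun x => τ x) s ν i ≤
        YB ℝ G Y (fun v => (B v).map fun x => τ x) s ν i) [Nonempty D] :
    ∃ ρ : IMod G, Nonempty ρ.D ∧ ∀ (Ω : Type) [Fintype Ω] (s : V → Ω → Ω), IsActOn G Y s →
      YZ ℝ G Y (mc ℝ ρ.A) s ν i ≤ YB ℝ G Y (mc ℝ ρ.A) s ν i := by
  classical
  let w := NumberField.RingOfIntegers.basis K
  let ι := Module.Free.ChooseBasisIndex ℤ (NumberField.RingOfIntegers K)
  -- the representation
  let Φ : Matrix D D (NumberField.RingOfIntegers K) →+* Matrix (D × ι) (D × ι) ℤ :=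
    (Matrix.compRingEquiv D ι ℤ).toRingHom.comp
      ((Algebra.leftMulMatrix w).toRingHom.mapMatrix : Matrix D D _ →+* Matrix D D _)
  have hΦ : ∀ (X : Matrix D D (NumberField.RingOfIntegers K)) (d d' : D) (j j' : ι),
      Φ X (d, j) (d', j') = w.repr (X d d' * w j') j := by
    intro X d d' j j'
    exact Algebra.leftMulMatrix_eq_repr_mul w (X d d') j j'
  let ρ : IMod G :=
    { D := D × ι
      fin := inferInstance
      dec := inferInstance
      A := fun v => Φ (B v)
      sq := fun v => by rw [← map_mul, hsq, map_one]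
      comm := fun u v huv => by rw [← map_mul, hcomm u v huv, map_mul] }
  have hne : Nonempty ι := w.index_nonempty
  refine ⟨ρ, (inferInstance : Nonempty (D × ι)), fun Ω _ s hs => ?_⟩
  -- exactness over `K`
  have hK : YZ K G Y (fun v => (B v).map (algebraMap (NumberField.RingOfIntegers K) K)) s ν i ≤
      YB K G Y (fun v => (B v).map (algebraMap (NumberField.RingOfIntegers K) K)) s ν i := by
    refine exact_descend τ G Y _ s ν i ?_
    have h1 := h Ω s hs
    simp only [Matrix.map_map]
    exact h1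
  -- coordinates
  let W := NumberField.integralBasis K
  let L : (D × ι → ℚ) →+ (D → K) :=
    { toFun := fun x d => ∑ j, x (d, j) • W j
      map_zero' := by
        funext d
        simp
      map_add' := fun x y => by
        funext d
        simp [add_smul, Finset.sum_add_distrib] }
  let L' : (D → K) →+ (D × ι → ℚ) :=
    { toFun := fun z q => W.repr (z q.1) q.2
      map_zero' := by
        funext q
        simp
      map_add' := fun x y => by
        funext q
        simp }
  have hLL' : ∀ z, L (L' z) = z := by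
    intro z
    funext d
    exact W.sum_repr (z d)
  have hL'L : ∀ x, L' (L x) = x := by
    intro x
    funext q
    obtain ⟨d, j⟩ := q
    show W.repr (∑ j', x (d, j') • W j') j = x (d, j)
    rw [W.repr_sum_self]
  have hW : ∀ o : NumberField.RingOfIntegers K,
      algebraMap (NumberField.RingOfIntegers K) K o = ∑ j, ((w.repr o j : ℤ) : ℚ) • W j := by
    intro o
    conv_lhs => rw [← W.sum_repr (algebraMap (NumberField.RingOfIntegers K) K o)]
    refine Finset.sum_congr rfl fun j _ => ?_
    rw [NumberField.integralBasis_repr_apply]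
    rfl
  have hL : ∀ v x, L ((mc ℚ ρ.A v).mulVec x) =
      ((B v).map (algebraMap (NumberField.RingOfIntegers K) K)).mulVec (L x) := by
    intro v x
    funext d
    show ∑ j, (∑ q : D × ι, ((Φ (B v) (d, j) q : ℤ) : ℚ) * x q) • W j =
      ∑ d', algebraMap (NumberField.RingOfIntegers K) K (B v d d') * ∑ j', x (d', j') • W j'
    have e1 : ∀ d' j', algebraMap (NumberField.RingOfIntegers K) K (B v d d') *
        (x (d', j') • W j') = ∑ j, (((Φ (B v) (d, j) (d', j') : ℤ) : ℚ) * x (d', j')) • W j := by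
      intro d' j'
      have e2 : W j' = algebraMap (NumberField.RingOfIntegers K) K (w j') :=
        NumberField.integralBasis_apply K j'
      rw [mul_smul_comm, e2, ← map_mul, hW, Finset.smul_sum]
      refine Finset.sum_congr rfl fun j _ => ?_
      rw [hΦ, smul_smul, mul_comm]
    simp only [Finset.mul_sum, e1, Finset.sum_smul]
    rw [Finset.sum_comm, Fintype.sum_prod_type]
  have hL' : ∀ v z, L' (((B v).map (algebraMap (NumberField.RingOfIntegers K) K)).mulVec z) =
      (mc ℚ ρ.A v).mulVec (L' z) := by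
    intro v z
    conv_lhs => rw [← hLL' z, ← hL v, hL'L]
  -- exactness over `ℚ`
  have hQ : YZ ℚ G Y (mc ℚ ρ.A) s ν i ≤ YB ℚ G Y (mc ℚ ρ.A) s ν i := by
    intro f hf
    obtain ⟨y', hy', hy⟩ := hK (tr_z hL hf)
    refine ⟨tr L' y', tr_ch hL' hy', ?_⟩
    rw [tdl_tr, hy]
    funext σ ω
    exact hL'L _
  have hR := exact_ascend (algebraMap ℚ ℝ) G Y (mc ℚ ρ.A) s ν i hQ
  have e3 : (fun v => (mc ℚ ρ.A v).map (algebraMap ℚ ℝ)) = mc ℝ ρ.A := by
    funext v
    ext a c
    show (algebraMap ℚ ℝ) ((ρ.A v a c : ℤ) : ℚ) = ((ρ.A v a c : ℤ) : ℝ)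
    simp
  rw [e3] at hR
  exact hR

end Pool.Agent.H85.Fold2
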