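import Pool.Agent.H85.Fold2.RealFold
import Pool.Agent.H85.Fold2.NumF
import Pool.Agent.H85.Fold2.Restr
import Pool.Agent.H85.Fold.Cliff

/-!
# Project FOLD, second stage: integer representations of folded spheres
-/

set_option autoImplicit false

open Finset

namespace Pool.Agent.H85.Fold2

open Pool.Agent.H85.Fold

private theorem IntMod_dot {O : Type} [CommRing O] (f : O →+* ℝ) (hf : Function.Injective f)
    {n m : ℕ} (x y : Fin n → O) (z w : Fin m → O)
    (h : (fun i => f (x i)) ⬝ᵥ (fun i => f (y i)) = (fun j => f (z j)) ⬝ᵥ fun j => f (w j)) :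
    x ⬝ᵥ y = z ⬝ᵥ w := by
  apply hf
  rw [dotProduct, dotProduct, map_sum, map_sum]
  simp only [map_mul]
  exact h

/-- **Integer representations with exact twisted complexes.** -/
theorem exists_imod {V : Type} [DecidableEq V] [Fintype V] (G : SimpleGraph V) (n : ℕ)
    (hG : IsFoldSphere G n) (ν : V → ℕ) (hν : Function.Injective ν) (Y : Finset V) (i : ℕ)
    (hi : n < 2 * i) :
    ∃ ρ : IMod G, Nonempty ρ.D ∧ ∀ (Ω : Type) [Fintype Ω] (s : V → Ω → Ω), IsActOn G Y s →
      YZ ℝ G Y (mc ℝ ρ.A) s ν i ≤ YB ℝ G Y (mc ℝ ρ.A) s ν i := by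
  obtain ⟨hsph, m, p, a, hf⟩ := hG
  obtain ⟨K, iK, iN, τ, p', a', hf'⟩ := exists_integral_fold G p a hf
  obtain ⟨D, iD, dD, nD, c, hsq, hanti, htr⟩ := exists_cliff ((Fin n ⊕ Fin m) ⊕ (V ⊕ V))
    (Sum.elim (Sum.elim (fun _ => true) (fun _ => false))
      (Sum.elim (fun _ => true) (fun _ => false)))
  have hc : IsCliff c := by
    refine ⟨fun i => ?_, fun j => ?_, fun v => ?_, fun v => ?_, hanti, fun i => ?_, fun j => ?_⟩
    · simpa using hsq (.inl (.inl i))
    · simpa using hsq (.inl (.inr j))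
    · simpa using hsq (.inr (.inl v))
    · simpa using hsq (.inr (.inr v))
    · simpa using htr (.inl (.inl i))
    · simpa using htr (.inl (.inr j))
  obtain ⟨t₀, ht₀⟩ := bmat_exact hc G hsph (fun v i => τ (p' v i)) (fun v j => τ (a' v j)) hf'
    ν hν Y i hi
  obtain ⟨N, hN⟩ := exists_nat_ge t₀
  have hinj : Function.Injective (τ.comp (algebraMap (NumberField.RingOfIntegers K) K)) :=
    τ.injective.comp NumberField.RingOfIntegers.coe_injective
  have hdot : ∀ u v, u = v ∨ G.Adj u v → p' u ⬝ᵥ p' v = a' u ⬝ᵥ a' v := fun u v huv =>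
    IntMod_dot (τ.comp (algebraMap (NumberField.RingOfIntegers K) K)) hinj _ _ _ _
      (hf'.zero u v huv)
  refine restrict_scalars K τ G
    (fun v => bmat c p' a' (N : NumberField.RingOfIntegers K) v)
    (fun v => bmat_sq hc p' a' _ v (hdot v v (Or.inl rfl)))
    (fun u v huv => bmat_comm hc p' a' _ u v huv.ne (hdot u v (Or.inr huv))) Y ν i ?_
  intro Ω _ s hs
  have h1 := ht₀ (N : ℝ) hN Ω s hs
  have h2 : (fun v => (bmat c p' a' (N : NumberField.RingOfIntegers K) v).map
      fun x : NumberField.RingOfIntegers K => τ (x : K)) =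
      bmat c (fun v i => τ (p' v i)) (fun v j => τ (a' v j)) (N : ℝ) := by
    funext v
    have h3 := bmat_map (c := c) (τ.comp (algebraMap (NumberField.RingOfIntegers K) K)) p' a'
      (N : NumberField.RingOfIntegers K) v
    rw [map_natCast] at h3
    exact h3
  rw [h2]
  exact h1

end Pool.Agent.H85.Fold2
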