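import Pool.Agent.H85.Fold2.Defs

/-!
# Project FOLD, second stage: induced subgraphs of other graphs
-/

set_option autoImplicit false

open Finset

namespace Pool.Agent.H85.Fold2

open Pool.Agent.H85.Fold

/-- a numbering of the larger graph which is compatible with an embedding -/
theorem exists_nu {V W : Type} [Finite W] (Y : Finset V) (φ : V → W)
    (hφ : ∀ u ∈ Y, ∀ v ∈ Y, φ u = φ v → u = v) (ν : V → ℕ) (hν : Function.Injective ν) :
    ∃ ν' : W → ℕ, Function.Injective ν' ∧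
      ∀ u ∈ Y, ∀ v ∈ Y, (ν' (φ u) < ν' (φ v) ↔ ν u < ν v) := by
  classical
  obtain ⟨n, ⟨e⟩⟩ := Finite.exists_equiv_fin W
  let ν' : W → ℕ := fun w =>
    if h : ∃ v ∈ Y, φ v = w then ν h.choose else Y.sup ν + 1 + (e w : ℕ)
  have h1 : ∀ v ∈ Y, ν' (φ v) = ν v := by
    intro v hv
    have h : ∃ u ∈ Y, φ u = φ v := ⟨v, hv, rfl⟩
    have h2 : ν' (φ v) = ν h.choose := dif_pos h
    rw [h2, hφ _ h.choose_spec.1 v hv h.choose_spec.2]
  have h2 : ∀ w, (¬ ∃ v ∈ Y, φ v = w) → ν' w = Y.sup ν + 1 + (e w : ℕ) := fun w h => dif_neg h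
  refine ⟨ν', fun w w' hw => ?_, fun u hu v hv => by rw [h1 u hu, h1 v hv]⟩
  by_cases a : ∃ v ∈ Y, φ v = w
  · obtain ⟨v, hv, rfl⟩ := a
    by_cases a' : ∃ v ∈ Y, φ v = w'
    · obtain ⟨v', hv', rfl⟩ := a'
      rw [h1 v hv, h1 v' hv'] at hw
      rw [hν hw]
    · rw [h1 v hv, h2 w' a'] at hw
      have := Finset.le_sup (f := ν) hv
      omega
  · by_cases a' : ∃ v ∈ Y, φ v = w'
    · obtain ⟨v', hv', rfl⟩ := a'
      rw [h1 v' hv', h2 w a] at hw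
      have := Finset.le_sup (f := ν) hv'
      omega
    · rw [h2 w a, h2 w' a'] at hw
      have : (e w : ℕ) = (e w' : ℕ) := by omega
      exact e.injective (Fin.ext this)

section

variable {V W : Type} [DecidableEq V] [DecidableEq W]

private def pre (Y : Finset V) (φ : V → W) (τ : Finset W) : Finset V := Y.filter fun v => φ v ∈ τ

private theorem mem_pre {Y : Finset V} {φ : V → W} {τ : Finset W} {v : V} :
    v ∈ pre Y φ τ ↔ v ∈ Y ∧ φ v ∈ τ := Finset.mem_filter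

private theorem pre_subset (Y : Finset V) (φ : V → W) (τ : Finset W) : pre Y φ τ ⊆ Y :=
  Finset.filter_subset _ _

private theorem image_pre {Y : Finset V} {φ : V → W} {τ : Finset W} (h : τ ⊆ Y.image φ) :
    (pre Y φ τ).image φ = τ := by
  ext w
  rw [Finset.mem_image]
  constructor
  · rintro ⟨v, hv, rfl⟩
    exact (mem_pre.1 hv).2
  · intro hw
    obtain ⟨v, hv, rfl⟩ := Finset.mem_image.1 (h hw)
    exact ⟨v, mem_pre.2 ⟨hv, hw⟩, rfl⟩

private theorem pre_image {Y : Finset V} {φ : V → W}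
    (hφ : ∀ u ∈ Y, ∀ v ∈ Y, φ u = φ v → u = v) {σ : Finset V} (h : σ ⊆ Y) :
    pre Y φ (σ.image φ) = σ := by
  ext v
  rw [mem_pre, Finset.mem_image]
  constructor
  · rintro ⟨h1, u, hu, huv⟩
    rwa [← hφ u (h hu) v h1 huv]
  · intro hv
    exact ⟨h hv, v, hv, rfl⟩

private theorem pre_insert {Y : Finset V} {φ : V → W}
    (hφ : ∀ u ∈ Y, ∀ v ∈ Y, φ u = φ v → u = v) {v : V} (hv : v ∈ Y) (τ : Finset W) :
    pre Y φ (insert (φ v) τ) = insert v (pre Y φ τ) := by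
  ext u
  rw [mem_pre, Finset.mem_insert, Finset.mem_insert, mem_pre]
  constructor
  · rintro ⟨h1, h2 | h2⟩
    · exact Or.inl (hφ u h1 v hv h2)
    · exact Or.inr ⟨h1, h2⟩
  · rintro (rfl | h)
    · exact ⟨hv, Or.inl rfl⟩
    · exact ⟨h.1, Or.inr h.2⟩

private theorem injOn {Y : Finset V} {φ : V → W}
    (hφ : ∀ u ∈ Y, ∀ v ∈ Y, φ u = φ v → u = v) {σ : Finset V} (h : σ ⊆ Y) :
    Set.InjOn φ (σ : Set V) :=
  fun u hu v hv huv => hφ u (h hu) v (h hv) huv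

private theorem card_pre {Y : Finset V} {φ : V → W}
    (hφ : ∀ u ∈ Y, ∀ v ∈ Y, φ u = φ v → u = v) {τ : Finset W} (h : τ ⊆ Y.image φ) :
    (pre Y φ τ).card = τ.card := by
  have h1 := Finset.card_image_of_injOn (injOn hφ (pre_subset Y φ τ))
  rw [image_pre h] at h1
  exact h1.symm

private theorem sg_pre {Y : Finset V} {φ : V → W}
    (hφ : ∀ u ∈ Y, ∀ v ∈ Y, φ u = φ v → u = v) {ν : V → ℕ} {ν' : W → ℕ}
    (hν : ∀ u ∈ Y, ∀ v ∈ Y, (ν' (φ u) < ν' (φ v) ↔ ν u < ν v)) {τ : Finset W}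
    (h : τ ⊆ Y.image φ) {v : V} (hv : v ∈ Y) :
    Pool.Agent.H4.Singer.sg ν' (φ v) τ = Pool.Agent.H4.Singer.sg ν v (pre Y φ τ) := by
  unfold Pool.Agent.H4.Singer.sg
  congr 1
  have h1 : τ.filter (fun w => ν' w < ν' (φ v)) =
      ((pre Y φ τ).filter fun u => ν u < ν v).image φ := by
    ext w
    rw [Finset.mem_filter, Finset.mem_image]
    constructor
    · rintro ⟨hw, hlt⟩
      obtain ⟨u, hu, rfl⟩ := Finset.mem_image.1 (h hw)
      exact ⟨u, Finset.mem_filter.2 ⟨mem_pre.2 ⟨hu, hw⟩, (hν u hu v hv).1 hlt⟩, rfl⟩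
    · rintro ⟨u, hu, rfl⟩
      obtain ⟨h2, h3⟩ := Finset.mem_filter.1 hu
      obtain ⟨h4, h5⟩ := mem_pre.1 h2
      exact ⟨h5, (hν u h4 v hv).2 h3⟩
  rw [h1, Finset.card_image_of_injOn
    (injOn hφ ((Finset.filter_subset _ _).trans (pre_subset Y φ τ)))]

private theorem tdl_embed [Fintype V] [Fintype W] {D Ω : Type} [Fintype D] [DecidableEq D]
    {K : Type} [Field K] {Y : Finset V} {φ : V → W}
    (hφ : ∀ u ∈ Y, ∀ v ∈ Y, φ u = φ v → u = v) {ν : V → ℕ} {ν' : W → ℕ}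
    (hν : ∀ u ∈ Y, ∀ v ∈ Y, (ν' (φ u) < ν' (φ v) ↔ ν u < ν v))
    {f : Finset V → Ω → D → K} (hf : ∀ σ, ¬ σ ⊆ Y → f σ = 0)
    {f' : Finset W → Ω → D → K} (hf1 : ∀ τ, τ ⊆ Y.image φ → f' τ = f (pre Y φ τ))
    (hf2 : ∀ τ, ¬ τ ⊆ Y.image φ → f' τ = 0) {τ : Finset W} (hτ : τ ⊆ Y.image φ) :
    tdl K ν' f' τ = tdl K ν f (pre Y φ τ) := by
  funext ω
  change ∑ w ∈ τᶜ, (Pool.Agent.H4.Singer.sg ν' w τ : K) • f' (insert w τ) ω =
    ∑ v ∈ (pre Y φ τ)ᶜ, (Pool.Agent.H4.Singer.sg ν v (pre Y φ τ) : K) •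
      f (insert v (pre Y φ τ)) ω
  have e1 : ∑ v ∈ (pre Y φ τ)ᶜ, (Pool.Agent.H4.Singer.sg ν v (pre Y φ τ) : K) •
      f (insert v (pre Y φ τ)) ω = ∑ v ∈ Y \ pre Y φ τ,
        (Pool.Agent.H4.Singer.sg ν v (pre Y φ τ) : K) • f (insert v (pre Y φ τ)) ω := by
    symm
    refine Finset.sum_subset (fun v hv => ?_) fun v hv hv2 => ?_
    · rw [Finset.mem_compl]
      exact (Finset.mem_sdiff.1 hv).2
    · have h3 : v ∉ Y := fun h => hv2 (Finset.mem_sdiff.2 ⟨h, Finset.mem_compl.1 hv⟩)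
      rw [hf _ fun h => h3 (h (Finset.mem_insert_self _ _)), Pi.zero_apply, smul_zero]
  have e2 : ∑ w ∈ τᶜ, (Pool.Agent.H4.Singer.sg ν' w τ : K) • f' (insert w τ) ω =
      ∑ w ∈ (Y \ pre Y φ τ).image φ,
        (Pool.Agent.H4.Singer.sg ν' w τ : K) • f' (insert w τ) ω := by
    symm
    refine Finset.sum_subset (fun w hw => ?_) fun w hw hw2 => ?_
    · obtain ⟨v, hv, rfl⟩ := Finset.mem_image.1 hw
      obtain ⟨h1, h2⟩ := Finset.mem_sdiff.1 hv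
      rw [Finset.mem_compl]
      exact fun h => h2 (mem_pre.2 ⟨h1, h⟩)
    · have h3 : ¬ insert w τ ⊆ Y.image φ := by
        intro h
        obtain ⟨v, hv, hvw⟩ := Finset.mem_image.1 (h (Finset.mem_insert_self _ _))
        refine hw2 (Finset.mem_image.2 ⟨v, Finset.mem_sdiff.2 ⟨hv, fun h4 => ?_⟩, hvw⟩)
        exact Finset.mem_compl.1 hw (hvw ▸ (mem_pre.1 h4).2)
      rw [hf2 _ h3, Pi.zero_apply, smul_zero]
  rw [e1, e2, Finset.sum_image (injOn hφ Finset.sdiff_subset)]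
  refine Finset.sum_congr rfl fun v hv => ?_
  have hvY := (Finset.mem_sdiff.1 hv).1
  have h4 : insert (φ v) τ ⊆ Y.image φ := by
    intro w hw
    rcases Finset.mem_insert.1 hw with rfl | hw
    · exact Finset.mem_image_of_mem φ hvY
    · exact hτ hw
  rw [sg_pre hφ hν hτ hvY, hf1 _ h4, pre_insert hφ hvY]

end

/-- exact twisted complexes restrict to induced subgraphs of other graphs -/
theorem exact_embed {V W D : Type} [DecidableEq V] [Fintype V] [DecidableEq W] [Fintype W]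
    [Fintype D] [DecidableEq D] (G : SimpleGraph V) (H : SimpleGraph W) (Y : Finset V)
    (φ : V → W) (hφ : ∀ u ∈ Y, ∀ v ∈ Y, φ u = φ v → u = v)
    (hadj : ∀ u ∈ Y, ∀ v ∈ Y, G.Adj u v ↔ H.Adj (φ u) (φ v)) (ν : V → ℕ) (ν' : W → ℕ)
    (hν : ∀ u ∈ Y, ∀ v ∈ Y, (ν' (φ u) < ν' (φ v) ↔ ν u < ν v)) (K : Type) [Field K]
    (B : V → Matrix D D K) (B' : W → Matrix D D K) (hB : ∀ v ∈ Y, B v = B' (φ v)) (i : ℕ)
    (h : ∀ (Ω : Type) [Fintype Ω] (s : W → Ω → Ω), IsActOn H (Y.image φ) s →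
      YZ K H (Y.image φ) B' s ν' i ≤ YB K H (Y.image φ) B' s ν' i)
    (Ω : Type) [Fintype Ω] (s : V → Ω → Ω) (hs : IsActOn G Y s) :
    YZ K G Y B s ν i ≤ YB K G Y B s ν i := by
  classical
  let s' : W → Ω → Ω := fun w => if h : ∃ v ∈ Y, φ v = w then s h.choose else id
  have hs' : ∀ v ∈ Y, s' (φ v) = s v := by
    intro v hv
    have h0 : ∃ u ∈ Y, φ u = φ v := ⟨v, hv, rfl⟩
    have h2 : s' (φ v) = s h0.choose := dif_pos h0
    rw [h2, hφ _ h0.choose_spec.1 v hv h0.choose_spec.2]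
  have hact : IsActOn H (Y.image φ) s' := by
    refine ⟨fun w hw ω => ?_, fun w hw w' hw' hww ω => ?_⟩
    · obtain ⟨v, hv, rfl⟩ := Finset.mem_image.1 hw
      rw [hs' v hv]
      exact hs.inv v hv ω
    · obtain ⟨v, hv, rfl⟩ := Finset.mem_image.1 hw
      obtain ⟨v', hv', rfl⟩ := Finset.mem_image.1 hw'
      rw [hs' v hv, hs' v' hv']
      exact hs.comm v hv v' hv' ((hadj v hv v' hv').2 hww) ω
  rintro f ⟨⟨hf1, hf2⟩, hf3⟩
  have hfY : ∀ σ, ¬ σ ⊆ Y → f σ = 0 := by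
    intro σ hσ
    funext ω
    by_contra hne
    exact hσ (hf1 σ ω hne).1
  let f' : Finset W → Ω → D → K := fun τ => if τ ⊆ Y.image φ then f (pre Y φ τ) else 0
  have hf'1 : ∀ τ, τ ⊆ Y.image φ → f' τ = f (pre Y φ τ) := fun τ hτ => if_pos hτ
  have hf'2 : ∀ τ, ¬ τ ⊆ Y.image φ → f' τ = 0 := fun τ hτ => if_neg hτ
  have hmem : f' ∈ YZ K H (Y.image φ) B' s' ν' i := by
    refine ⟨⟨fun τ ω hne => ?_, fun τ w hw ω => ?_⟩, ?_⟩
    · by_cases hτ : τ ⊆ Y.image φ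
      · rw [hf'1 τ hτ] at hne
        obtain ⟨h1, h2, h3⟩ := hf1 _ ω hne
        refine ⟨hτ, fun w hw w' hw' hww => ?_, (card_pre hφ hτ).symm.trans h3⟩
        obtain ⟨v, hv, rfl⟩ := Finset.mem_image.1 (hτ hw)
        obtain ⟨v', hv', rfl⟩ := Finset.mem_image.1 (hτ hw')
        exact (hadj v hv v' hv').1 (h2 v (mem_pre.2 ⟨hv, hw⟩) v' (mem_pre.2 ⟨hv', hw'⟩)
          fun hc => hww (by rw [hc]))
      · rw [hf'2 τ hτ] at hne
        exact absurd rfl hne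
    · by_cases hτ : τ ⊆ Y.image φ
      · obtain ⟨v, hv, rfl⟩ := Finset.mem_image.1 (hτ hw)
        rw [hf'1 τ hτ, hs' v hv, ← hB v hv]
        exact hf2 _ v (mem_pre.2 ⟨hv, hw⟩) ω
      · rw [hf'2 τ hτ]
        simp
    · rw [SetLike.mem_coe, LinearMap.mem_ker]
      funext τ
      by_cases hτ : τ ⊆ Y.image φ
      · rw [tdl_embed hφ hν hfY hf'1 hf'2 hτ]
        have h3 : tdl K ν f = 0 := hf3
        rw [h3]
        rfl
      · funext ω
        change ∑ w ∈ τᶜ, (Pool.Agent.H4.Singer.sg ν' w τ : K) • f' (insert w τ) ω = 0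
        refine Finset.sum_eq_zero fun w _ => ?_
        rw [hf'2 _ fun hc => hτ ((Finset.subset_insert w τ).trans hc), Pi.zero_apply, smul_zero]
  obtain ⟨y', ⟨hy1, hy2⟩, hy3⟩ := h Ω s' hact hmem
  have hy'0 : ∀ τ, ¬ τ ⊆ Y.image φ → y' τ = 0 := by
    intro τ hτ
    funext ω
    by_contra hne
    exact hτ (hy1 τ ω hne).1
  let y : Finset V → Ω → D → K := fun σ => if σ ⊆ Y then y' (σ.image φ) else 0
  have hyY : ∀ σ, σ ⊆ Y → y σ = y' (σ.image φ) := fun σ hσ => if_pos hσ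
  have hyN : ∀ σ, ¬ σ ⊆ Y → y σ = 0 := fun σ hσ => if_neg hσ
  have hyp : ∀ τ, τ ⊆ Y.image φ → y' τ = y (pre Y φ τ) := by
    intro τ hτ
    rw [hyY _ (pre_subset Y φ τ), image_pre hτ]
  refine ⟨y, ⟨fun σ ω hne => ?_, fun σ v hv ω => ?_⟩, ?_⟩
  · by_cases hσ : σ ⊆ Y
    · rw [hyY σ hσ] at hne
      obtain ⟨h1, h2, h3⟩ := hy1 _ ω hne
      rw [Finset.card_image_of_injOn (injOn hφ hσ)] at h3
      refine ⟨hσ, fun u hu v hv huv => ?_, h3⟩
      exact (hadj u (hσ hu) v (hσ hv)).2 (h2 _ (Finset.mem_image_of_mem φ hu) _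
        (Finset.mem_image_of_mem φ hv) fun hc => huv (hφ u (hσ hu) v (hσ hv) hc))
    · rw [hyN σ hσ] at hne
      exact absurd rfl hne
  · by_cases hσ : σ ⊆ Y
    · rw [hyY σ hσ, ← hs' v (hσ hv), hB v (hσ hv)]
      exact hy2 _ (φ v) (Finset.mem_image_of_mem φ hv) ω
    · rw [hyN σ hσ]
      simp
  · funext σ
    by_cases hσ : σ ⊆ Y
    · have h1 : σ.image φ ⊆ Y.image φ := Finset.image_subset_image hσ
      have h2 := tdl_embed (K := K) hφ hν hyN hyp hy'0 h1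
      rw [pre_image hφ hσ] at h2
      rw [← h2, hy3, hf'1 _ h1, pre_image hφ hσ]
    · rw [hfY σ hσ]
      funext ω
      change ∑ v ∈ σᶜ, (Pool.Agent.H4.Singer.sg ν v σ : K) • y (insert v σ) ω = 0
      refine Finset.sum_eq_zero fun v _ => ?_
      rw [hyN _ fun hc => hσ ((Finset.subset_insert v σ).trans hc), Pi.zero_apply, smul_zero]

end Pool.Agent.H85.Fold2
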