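import Pool.Agent.H85.Fold2.GRules
import Pool.Agent.H85.Fold2.Levels2
import Pool.Agent.H4.Singer.Core

/-!
# Project FOLD, second stage: the main theorem
-/

set_option autoImplicit false

open Finset Filter

namespace Pool.Agent.H85.Fold2

open Pool.Agent.H85.Fold Pool.Agent.H4.Singer

variable {V : Type} [DecidableEq V] [Fintype V]

/-- functions with values in the functions on a point -/
def unitEq (V P : Type) : (Finset V → P → ℝ) ≃ₗ[ℝ] (Finset V → P → Unit → ℝ) where
  toFun f σ ω _ := f σ ω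
  invFun g σ ω := g σ ω ()
  left_inv _ := rfl
  right_inv _ := rfl
  map_add' _ _ := rfl
  map_smul' _ _ := rfl

omit [Fintype V] in
theorem map_Ch (G : SimpleGraph V) [Fintype V] {P : Type} [Group P] (g : V → P)
    (XP : InvAct (selfCol G) P) (hXP : ∀ v x, XP.s v x = x * g v) (i : ℕ) :
    (Ch ℝ XP i).map (unitEq V P).toLinearMap =
      YCh ℝ G univ (fun _ => (1 : Matrix Unit Unit ℝ)) (fun v x => x * g v) i := by
  ext f
  constructor
  · rintro ⟨f', ⟨h1, h2⟩, rfl⟩
    refine ⟨fun σ ω h => ?_, fun σ v hv ω => ?_⟩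
    · have h3 : f' σ ω ≠ 0 := by
        intro h0
        apply h
        funext u
        exact h0
      obtain ⟨h4, h5⟩ := h1 σ ω h3
      exact ⟨Finset.subset_univ _, h4, h5⟩
    · funext u
      have h3 := h2 σ v hv ω
      rw [hXP] at h3
      rw [Matrix.one_mulVec]
      exact h3
  · rintro ⟨h1, h2⟩
    refine ⟨fun σ ω => f σ ω (), ⟨fun σ ω h => ?_, fun σ v hv ω => ?_⟩, ?_⟩
    · have h3 : f σ ω ≠ 0 := by
        intro h0
        apply h
        show f σ ω () = 0
        rw [h0]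
        rfl
      obtain ⟨_, h4, h5⟩ := h1 σ ω h3
      exact ⟨h4, h5⟩
    · have h3 := h2 σ v hv ω
      rw [Matrix.one_mulVec] at h3
      show f σ (XP.s v ω) () = - f σ ω ()
      rw [hXP]
      exact congrFun h3 ()
    · rfl

theorem unitEq_dl {P : Type} (ν : V → ℕ) (f : Finset V → P → ℝ) :
    unitEq V P (dl ℝ ν f) = tdl ℝ ν (unitEq V P f) := by
  funext σ ω u
  show (∑ v ∈ σᶜ, (sg ν v σ : ℝ) * f (insert v σ) ω) =
    (∑ v ∈ σᶜ, (sg ν v σ : ℝ) • (fun _ : Unit => f (insert v σ) ω)) u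
  rw [Finset.sum_apply]
  rfl

/-- the real Betti numbers of a finite quotient -/
theorem bet_eq_bP (G : SimpleGraph V) {P : Type} [Group P] [Fintype P] (g : V → P)
    (XP : InvAct (selfCol G) P) (hXP : ∀ v x, XP.s v x = x * g v) (ν : V → ℕ) (i : ℕ) :
    bet ℝ XP ν i = bP ℝ G univ g ν i := by
  have hZ : (Zc ℝ XP ν i).map (unitEq V P).toLinearMap =
      YZ ℝ G univ (fun _ => (1 : Matrix Unit Unit ℝ)) (fun v x => x * g v) ν i := by
    unfold YZ
    rw [← map_Ch G g XP hXP i]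
    ext f
    constructor
    · rintro ⟨f', ⟨h1, h2⟩, rfl⟩
      refine ⟨⟨f', h1, rfl⟩, ?_⟩
      have h2' : dl ℝ ν f' = 0 := h2
      show tdl ℝ ν (unitEq V P f') = 0
      rw [← unitEq_dl, h2', map_zero]
    · rintro ⟨⟨f', h1, rfl⟩, h2⟩
      refine ⟨f', ⟨h1, ?_⟩, rfl⟩
      have h2' : tdl ℝ ν (unitEq V P f') = 0 := h2
      rw [← unitEq_dl] at h2'
      show dl ℝ ν f' = 0
      exact (unitEq V P).map_eq_zero_iff.1 h2'
  have hB : (Bc ℝ XP ν i).map (unitEq V P).toLinearMap =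
      YB ℝ G univ (fun _ => (1 : Matrix Unit Unit ℝ)) (fun v x => x * g v) ν i := by
    unfold YB
    rw [← map_Ch G g XP hXP (i + 1)]
    unfold Bc
    rw [← Submodule.map_comp, ← Submodule.map_comp]
    congr 1
    exact LinearMap.ext fun f => unitEq_dl ν f
  unfold bet bP bY
  rw [← hZ, ← hB]
  congr 1
  · exact (LinearEquiv.finrank_map_eq (unitEq V P) _).symm
  · exact (LinearEquiv.finrank_map_eq (unitEq V P) _).symm

/-- **From zero growth to harmonic chains.** -/
theorem GVan.harm {ν : V → ℕ} (hν : Function.Injective ν) {G : SimpleGraph V} {i : ℕ}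
    (h : GVan ν G univ i) : ∀ x : Finset V → RGrp G → ℂ, IsHarm G ν i x → x = 0 := by
  classical
  obtain ⟨m, ρ, h⟩ := h
  obtain ⟨q, P, grp, fin, π, XP, hq, hsep, hs, hr⟩ := exists_levels_fin G ρ
  obtain ⟨k, n, M, hM, hdim⟩ := exists_harm_matrix G (selfCol G) (fun _ _ => Iff.rfl) ν hν i
  refine hM (l2ker_trivial π hsep M ?_)
  intro η hη
  obtain ⟨p₀, hp₀⟩ := h η hη
  filter_upwards [eventually_ge_atTop p₀] with j hj
  have : Fact (q j).Prime := ⟨(hq j).1⟩
  refine (hdim (P j) (π j) (XP j) (hs j)).trans ?_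
  have h1 : bet ℂ (XP j) ν i ≤ bet ℝ (XP j) ν i := bet_complex_le (XP j) ν hν i ℝ
  have h2 := bet_eq_bP G (fun v => π j (gen G v)) (XP j) (fun v x => hs j v x) ν i
  have h3 := hp₀ (q j) (hj.trans (hq j).2) (P j) (fun v => π j (gen G v))
    (fun v => by rw [← map_mul, gen_mul_gen, map_one])
    (fun u v huv => by rw [← map_mul, ← map_mul, gen_comm G u v huv]) (fun k => hr j k)
  refine le_trans ?_ h3
  rw [← h2]
  exact_mod_cast h1

/-- **The main theorem.** -/
theorem main_FV (G : SimpleGraph V) (n : ℕ) (hG : FV G n univ) (i : ℕ) (hi : n < 2 * i) :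
    L2HomologyZero G i := by
  intro ν hν z hz hdz ε hε
  exact l2_hodge G ν hν i (GVan.harm hν (hG.gvan hν univ (Finset.Subset.refl _) i hi)) z hz hdz
    ε hε

end Pool.Agent.H85.Fold2
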