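import Mathlib

/-!
# Project FOLD, second stage: the involutions over a commutative ring
-/

set_option autoImplicit false

open Finset

namespace Pool.Agent.H85.Fold2

/-- Clifford generators: `n` of square `1`, `m` of square `-1`, and for every vertex one of square
`1` and one of square `-1` -/
structure IsCliff {V D : Type} [Fintype D] [DecidableEq D] {n m : ℕ}
    (c : (Fin n ⊕ Fin m) ⊕ (V ⊕ V) → Matrix D D ℤ) : Prop where
  sq_p : ∀ i, c (.inl (.inl i)) * c (.inl (.inl i)) = 1
  sq_a : ∀ j, c (.inl (.inr j)) * c (.inl (.inr j)) = -1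
  sq_g : ∀ v, c (.inr (.inl v)) * c (.inr (.inl v)) = 1
  sq_c : ∀ v, c (.inr (.inr v)) * c (.inr (.inr v)) = -1
  anti : ∀ i j, i ≠ j → c i * c j = -(c j * c i)
  tr_p : ∀ i, (c (.inl (.inl i))).transpose = c (.inl (.inl i))
  tr_a : ∀ j, (c (.inl (.inr j))).transpose = -c (.inl (.inr j))

/-- the operator of a folding vector, over a commutative ring -/
def emat {V D : Type} {n m : ℕ} (c : (Fin n ⊕ Fin m) ⊕ (V ⊕ V) → Matrix D D ℤ) {R : Type}
    [CommRing R] (p : V → Fin n → R) (a : V → Fin m → R) (v : V) : Matrix D D R :=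
  ∑ i, p v i • (c (.inl (.inl i))).map (Int.cast : ℤ → R) +
    ∑ j, a v j • (c (.inl (.inr j))).map (Int.cast : ℤ → R)

/-- the involutions, over a commutative ring -/
def bmat {V D : Type} [Fintype D] {n m : ℕ} (c : (Fin n ⊕ Fin m) ⊕ (V ⊕ V) → Matrix D D ℤ)
    {R : Type} [CommRing R] (p : V → Fin n → R) (a : V → Fin m → R) (t : R) (v : V) :
    Matrix D D R :=
  (t • emat c p a v + (c (.inr (.inl v))).map (Int.cast : ℤ → R)) *
    (c (.inr (.inr v))).map (Int.cast : ℤ → R)

variable {V D : Type} [Fintype D] [DecidableEq D] {n m : ℕ}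
  {c : (Fin n ⊕ Fin m) ⊕ (V ⊕ V) → Matrix D D ℤ} {R : Type} [CommRing R]

section general

variable {M ι : Type} [Ring M] [Algebra R M] [Fintype ι] [DecidableEq ι]

omit [DecidableEq ι] in
private lemma gen_anti {C : ι → M} {s : ι → R} (hs : ∀ i, C i * C i = s i • (1 : M))
    (ha : ∀ i j, i ≠ j → C i * C j = -(C j * C i)) (x y : ι → R) :
    (∑ i, x i • C i) * (∑ j, y j • C j) + (∑ i, y i • C i) * (∑ j, x j • C j) =
      (2 * ∑ i, s i * (x i * y i)) • (1 : M) := by
  have h1 : (∑ i, y i • C i) * (∑ j, x j • C j) = ∑ i, ∑ j, (x i * y j) • (C j * C i) := by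
    rw [Finset.sum_mul_sum, Finset.sum_comm]
    refine Finset.sum_congr rfl fun i _ => Finset.sum_congr rfl fun j _ => ?_
    rw [smul_mul_smul_comm, mul_comm]
  have h2 : (∑ i, x i • C i) * (∑ j, y j • C j) = ∑ i, ∑ j, (x i * y j) • (C i * C j) := by
    rw [Finset.sum_mul_sum]
    refine Finset.sum_congr rfl fun i _ => Finset.sum_congr rfl fun j _ => ?_
    rw [smul_mul_smul_comm]
  rw [h1, h2, ← Finset.sum_add_distrib]
  have h3 : ∀ i, ∑ j, (x i * y j) • (C i * C j) + ∑ j, (x i * y j) • (C j * C i) =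
      (2 * (s i * (x i * y i))) • (1 : M) := by
    intro i
    rw [← Finset.sum_add_distrib, Finset.sum_eq_single i]
    · rw [hs, smul_smul, ← add_smul]
      congr 1
      ring
    · intro j _ hj
      rw [← smul_add, ha i j hj.symm, neg_add_cancel, smul_zero]
    · intro h
      exact absurd (Finset.mem_univ i) h
  rw [Finset.sum_congr rfl fun i _ => h3 i, ← Finset.sum_smul, ← Finset.mul_sum]

omit [Fintype ι] in
private lemma gen_sq {C : ι → M} {s : ι → R} (hs : ∀ i, C i * C i = s i • (1 : M))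
    (ha : ∀ i j, i ≠ j → C i * C j = -(C j * C i)) (x : ι → R) (T : Finset ι) :
    (∑ i ∈ T, x i • C i) * (∑ j ∈ T, x j • C j) = (∑ i ∈ T, s i * (x i * x i)) • (1 : M) := by
  induction T using Finset.induction_on with
  | empty => simp
  | insert k T hk ih =>
    rw [Finset.sum_insert hk, Finset.sum_insert hk, add_mul, mul_add, mul_add, ih, add_smul]
    have h1 : (x k • C k) * (∑ j ∈ T, x j • C j) + (∑ j ∈ T, x j • C j) * (x k • C k) = 0 := by
      rw [Finset.mul_sum, Finset.sum_mul, ← Finset.sum_add_distrib]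
      refine Finset.sum_eq_zero fun j hj => ?_
      have hjk : k ≠ j := fun h => hk (h ▸ hj)
      rw [smul_mul_smul_comm, smul_mul_smul_comm, ha k j hjk, smul_neg, mul_comm (x k),
        neg_add_cancel]
    have h2 : (x k • C k) * (x k • C k) = (s k * (x k * x k)) • (1 : M) := by
      rw [smul_mul_smul_comm, hs, smul_smul, mul_comm]
    rw [h2]
    calc _ = (s k * (x k * x k)) • (1 : M) + ((x k • C k) * (∑ j ∈ T, x j • C j) +
          (∑ j ∈ T, x j • C j) * (x k • C k)) + (∑ i ∈ T, s i * (x i * x i)) • (1 : M) := by abel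
      _ = _ := by rw [h1, add_zero]

end general

/-- the generators over the ring `R` -/
private def cr (c : (Fin n ⊕ Fin m) ⊕ (V ⊕ V) → Matrix D D ℤ) (R : Type) [CommRing R]
    (i : (Fin n ⊕ Fin m) ⊕ (V ⊕ V)) : Matrix D D R :=
  (Int.castRingHom R).mapMatrix (c i)

private lemma cr_eq (i : (Fin n ⊕ Fin m) ⊕ (V ⊕ V)) :
    (c i).map (Int.cast : ℤ → R) = cr c R i := rfl

private lemma cr_anti (hc : IsCliff c) (i j : (Fin n ⊕ Fin m) ⊕ (V ⊕ V)) (h : i ≠ j) :
    cr c R i * cr c R j = -(cr c R j * cr c R i) := by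
  unfold cr
  rw [← map_mul, ← map_mul, hc.anti i j h, map_neg]

private def xs (p : V → Fin n → R) (a : V → Fin m → R) (v : V) : Fin n ⊕ Fin m → R :=
  Sum.elim (p v) (a v)

private def sg (n m : ℕ) (R : Type) [CommRing R] : Fin n ⊕ Fin m → R :=
  Sum.elim (fun _ => 1) (fun _ => -1)

private lemma cr_sq (hc : IsCliff c) (i : Fin n ⊕ Fin m) :
    cr c R (.inl i) * cr c R (.inl i) = sg n m R i • (1 : Matrix D D R) := by
  unfold cr
  rw [← map_mul]
  cases i with
  | inl i => rw [hc.sq_p, map_one]; simp [sg]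
  | inr j => rw [hc.sq_a, map_neg, map_one]; simp [sg]

private lemma emat_eq (p : V → Fin n → R) (a : V → Fin m → R) (v : V) :
    emat c p a v = ∑ i, xs p a v i • cr c R (.inl i) := by
  rw [Fintype.sum_sum_type]
  rfl

private lemma sg_sum (p : V → Fin n → R) (a : V → Fin m → R) (u v : V) :
    ∑ i, sg n m R i * (xs p a u i * xs p a v i) = p u ⬝ᵥ p v - a u ⬝ᵥ a v := by
  rw [Fintype.sum_sum_type]
  simp [sg, xs, dotProduct, sub_eq_add_neg]

private lemma cr_anti' (hc : IsCliff c) (i j : Fin n ⊕ Fin m) (h : i ≠ j) :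
    cr c R (.inl i) * cr c R (.inl j) = -(cr c R (.inl j) * cr c R (.inl i)) :=
  cr_anti hc _ _ fun h' => h (Sum.inl_injective h')

/-- the anticommutator of the operators of two folding vectors -/
theorem emat_anti (hc : IsCliff c) (p : V → Fin n → R) (a : V → Fin m → R) (u v : V) :
    emat c p a u * emat c p a v + emat c p a v * emat c p a u =
      (2 * (p u ⬝ᵥ p v - a u ⬝ᵥ a v)) • (1 : Matrix D D R) := by
  rw [emat_eq, emat_eq, gen_anti (cr_sq hc) (cr_anti' hc), sg_sum]

/-- `p u ⬝ᵥ p u = a u ⬝ᵥ a u` makes `emat` a matrix of square zero (also in characteristic two) -/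
theorem emat_sq (hc : IsCliff c) (p : V → Fin n → R) (a : V → Fin m → R) (v : V)
    (h : p v ⬝ᵥ p v = a v ⬝ᵥ a v) : emat c p a v * emat c p a v = 0 := by
  rw [emat_eq, gen_sq (cr_sq hc) (cr_anti' hc), sg_sum, h, sub_self, zero_smul]

private lemma emat_cr (hc : IsCliff c) (p : V → Fin n → R) (a : V → Fin m → R) (v : V)
    (w : V ⊕ V) : emat c p a v * cr c R (.inr w) = -(cr c R (.inr w) * emat c p a v) := by
  rw [emat_eq, Finset.sum_mul, Finset.mul_sum, ← Finset.sum_neg_distrib]
  refine Finset.sum_congr rfl fun i _ => ?_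
  rw [smul_mul_assoc, mul_smul_comm, cr_anti hc (.inl i) (.inr w) (by simp), smul_neg]

/-- the first factor of `bmat` -/
private def xmat (c : (Fin n ⊕ Fin m) ⊕ (V ⊕ V) → Matrix D D ℤ) (p : V → Fin n → R)
    (a : V → Fin m → R) (t : R) (v : V) : Matrix D D R :=
  t • emat c p a v + cr c R (.inr (.inl v))

private lemma bmat_eq (p : V → Fin n → R) (a : V → Fin m → R) (t : R) (v : V) :
    bmat c p a t v = xmat c p a t v * cr c R (.inr (.inr v)) := rfl

private lemma xmat_cr (hc : IsCliff c) (p : V → Fin n → R) (a : V → Fin m → R) (t : R) (u v : V) :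
    xmat c p a t u * cr c R (.inr (.inr v)) = -(cr c R (.inr (.inr v)) * xmat c p a t u) := by
  unfold xmat
  rw [add_mul, mul_add, smul_mul_assoc, mul_smul_comm, emat_cr hc,
    cr_anti hc (.inr (.inl u)) (.inr (.inr v)) (by simp), smul_neg, neg_add]

private lemma xmat_sq (hc : IsCliff c) (p : V → Fin n → R) (a : V → Fin m → R) (t : R) (v : V)
    (h : p v ⬝ᵥ p v = a v ⬝ᵥ a v) : xmat c p a t v * xmat c p a t v = 1 := by
  unfold xmat
  have h1 : cr c R (.inr (.inl v)) * cr c R (.inr (.inl v)) = (1 : Matrix D D R) := by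
    unfold cr
    rw [← map_mul, hc.sq_g, map_one]
  rw [add_mul, mul_add, mul_add, smul_mul_smul_comm, emat_sq hc p a v h, smul_zero, zero_add,
    smul_mul_assoc, emat_cr hc, mul_smul_comm, h1, smul_neg, ← add_assoc, neg_add_cancel, zero_add]

private lemma xmat_anti (hc : IsCliff c) (p : V → Fin n → R) (a : V → Fin m → R) (t : R) (u v : V)
    (huv : u ≠ v) (h : p u ⬝ᵥ p v = a u ⬝ᵥ a v) :
    xmat c p a t u * xmat c p a t v = -(xmat c p a t v * xmat c p a t u) := by
  rw [← add_eq_zero_iff_eq_neg]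
  unfold xmat
  have h1 := emat_anti hc p a u v
  rw [h, sub_self, mul_zero, zero_smul] at h1
  have h2 := cr_anti (R := R) hc (.inr (.inl u)) (.inr (.inl v)) (by simpa using huv)
  have h3 := emat_cr hc p a u (.inl v)
  have h4 := emat_cr hc p a v (.inl u)
  simp only [add_mul, mul_add, smul_mul_assoc, mul_smul_comm]
  rw [h2, h3, h4]
  simp only [smul_neg, smul_add, smul_smul]
  have h5 : (t * t) • (emat c p a u * emat c p a v) + (t * t) • (emat c p a v * emat c p a u) = 0 := by
    rw [← smul_add, h1, smul_zero]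
  calc _ = (t * t) • (emat c p a u * emat c p a v) +
        (t * t) • (emat c p a v * emat c p a u) := by abel
    _ = 0 := h5

theorem bmat_sq (hc : IsCliff c) (p : V → Fin n → R) (a : V → Fin m → R) (t : R) (v : V)
    (h : p v ⬝ᵥ p v = a v ⬝ᵥ a v) : bmat c p a t v * bmat c p a t v = 1 := by
  have h1 : cr c R (.inr (.inr v)) * cr c R (.inr (.inr v)) = -(1 : Matrix D D R) := by
    unfold cr
    rw [← map_mul, hc.sq_c, map_neg, map_one]
  have h2 := xmat_cr hc p a t v v
  rw [bmat_eq]
  calc _ = xmat c p a t v * (cr c R (.inr (.inr v)) * xmat c p a t v) *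
        cr c R (.inr (.inr v)) := by simp only [mul_assoc]
    _ = xmat c p a t v * (-(xmat c p a t v * cr c R (.inr (.inr v)))) *
        cr c R (.inr (.inr v)) := by rw [h2, neg_neg]
    _ = -((xmat c p a t v * xmat c p a t v) *
        (cr c R (.inr (.inr v)) * cr c R (.inr (.inr v)))) := by
      simp only [mul_neg, neg_mul, mul_assoc]
    _ = 1 := by rw [xmat_sq hc p a t v h, h1, one_mul, neg_neg]

theorem bmat_comm (hc : IsCliff c) (p : V → Fin n → R) (a : V → Fin m → R) (t : R) (u v : V)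
    (huv : u ≠ v) (h : p u ⬝ᵥ p v = a u ⬝ᵥ a v) :
    bmat c p a t u * bmat c p a t v = bmat c p a t v * bmat c p a t u := by
  have key : ∀ u v : V, bmat c p a t u * bmat c p a t v =
      -((xmat c p a t u * xmat c p a t v) * (cr c R (.inr (.inr u)) * cr c R (.inr (.inr v)))) := by
    intro u v
    rw [bmat_eq, bmat_eq]
    calc _ = xmat c p a t u * (cr c R (.inr (.inr u)) * xmat c p a t v) *
          cr c R (.inr (.inr v)) := by simp only [mul_assoc]
      _ = xmat c p a t u * (-(xmat c p a t v * cr c R (.inr (.inr u)))) *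
          cr c R (.inr (.inr v)) := by rw [xmat_cr hc p a t v u, neg_neg]
      _ = _ := by simp only [mul_neg, neg_mul, mul_assoc]
  rw [key u v, key v u, xmat_anti hc p a t u v huv h,
    cr_anti (R := R) hc (.inr (.inr u)) (.inr (.inr v)) (by simpa using huv), neg_mul_neg]

/-- compatibility with ring homomorphisms -/
theorem bmat_map {R' : Type} [CommRing R'] (f : R →+* R') (p : V → Fin n → R)
    (a : V → Fin m → R) (t : R) (v : V) :
    (bmat c p a t v).map f = bmat c (fun v i => f (p v i)) (fun v j => f (a v j)) (f t) v := by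
  have h0 : ∀ (r : R) (A : Matrix D D R), f.mapMatrix (r • A) = f r • f.mapMatrix A := by
    intro r A
    ext i j
    simp [Matrix.smul_apply]
  have h1 : ∀ A : Matrix D D ℤ, f.mapMatrix (A.map (Int.cast : ℤ → R)) =
      A.map (Int.cast : ℤ → R') := by
    intro A
    ext i j
    simp
  change f.mapMatrix (bmat c p a t v) = _
  unfold bmat emat
  simp only [map_mul, map_add, map_sum, h0, h1]

end Pool.Agent.H85.Fold2
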