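import Pool.Agent.H85.Fold2.Real
import Pool.Agent.H85.Fold2.Bmat
import Pool.Agent.H85.Fold.SysFold
import Pool.Agent.H85.Fold.MainA

/-!
# Project FOLD, second stage: real exactness for folded spheres
-/

set_option autoImplicit false

open Finset

namespace Pool.Agent.H85.Fold2

open Pool.Agent.H85.Fold

/-- the real operator of an integer matrix -/
private noncomputable def op {D : Type} [Fintype D] [DecidableEq D] (M : Matrix D D ℤ) :
    (D → ℝ) →ₗ[ℝ] (D → ℝ) := Matrix.toLin' ((Int.castRingHom ℝ).mapMatrix M)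

section

variable {D : Type} [Fintype D] [DecidableEq D]

private theorem op_mul (M N : Matrix D D ℤ) (x : D → ℝ) : op (M * N) x = op M (op N x) := by
  unfold op
  rw [map_mul, Matrix.toLin'_mul]
  rfl

private theorem op_neg (M : Matrix D D ℤ) : op (-M) = -op M := by
  unfold op
  rw [map_neg, map_neg]

private theorem op_one (x : D → ℝ) : op (1 : Matrix D D ℤ) x = x := by
  unfold op
  rw [map_one, Matrix.toLin'_one]
  rfl

private theorem op_apply (M : Matrix D D ℤ) (x : D → ℝ) :
    op M x = (M.map (Int.cast : ℤ → ℝ)).mulVec x := rfl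

private theorem op_anti {M N : Matrix D D ℤ} (h : M * N = -(N * M)) (x : D → ℝ) :
    op M (op N x) = -op N (op M x) := by
  rw [← op_mul, h, op_neg, LinearMap.neg_apply, op_mul]

/-- the dot product -/
private noncomputable def dotB (D : Type) [Fintype D] : (D → ℝ) →ₗ[ℝ] (D → ℝ) →ₗ[ℝ] ℝ :=
  LinearMap.mk₂ ℝ (fun x y => x ⬝ᵥ y) (fun x y z => add_dotProduct x y z)
    (fun c x y => smul_dotProduct c x y) (fun x y z => dotProduct_add x y z)
    (fun c x y => dotProduct_smul c x y)

omit [DecidableEq D] in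
private theorem dotB_apply (x y : D → ℝ) : dotB D x y = x ⬝ᵥ y := rfl

private theorem op_adj (M : Matrix D D ℤ) (x y : D → ℝ) :
    dotB D (op M x) y = dotB D x (op M.transpose y) := by
  simp only [dotB_apply, op, Matrix.toLin'_apply]
  have h1 : (Int.castRingHom ℝ).mapMatrix M.transpose =
      ((Int.castRingHom ℝ).mapMatrix M).transpose := by
    ext i j
    simp
  rw [h1, Matrix.mulVec_transpose, dotProduct_comm, Matrix.dotProduct_mulVec, dotProduct_comm]

end

section

variable {V D : Type} [Fintype D] [DecidableEq D] {n m : ℕ}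
  {c : (Fin n ⊕ Fin m) ⊕ (V ⊕ V) → Matrix D D ℤ}

/-- the Clifford module -/
private theorem isClMod (hc : IsCliff c) :
    IsClMod (dotB D) (fun i => op (c (Sum.inl (Sum.inl i))))
      (fun i => op (c (Sum.inl (Sum.inr i)))) where
  symm x y := dotProduct_comm x y
  pos x hx := by
    rw [dotB_apply]
    have h0 : (0 : ℝ) ≤ x ⬝ᵥ x := Finset.sum_nonneg fun i _ => mul_self_nonneg _
    rcases h0.lt_or_eq with h | h
    · exact h
    · exact absurd (dotProduct_self_eq_zero.1 h.symm) hx
  γ_sq i x := by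
    rw [← op_mul, hc.sq_p, op_one]
  η_sq i x := by
    rw [← op_mul, hc.sq_a, op_neg, LinearMap.neg_apply, op_one]
  γγ i j hij x := op_anti (hc.anti _ _ (by simpa using hij)) x
  ηη i j hij x := op_anti (hc.anti _ _ (by simpa using hij)) x
  γη i j x := op_anti (hc.anti _ _ (by simp)) x
  γ_adj i x y := by
    rw [op_adj, hc.tr_p]
  η_adj i x y := by
    rw [op_adj, hc.tr_a, op_neg, LinearMap.neg_apply, map_neg]

/-- the operators of the folding vectors -/
private theorem ev_eq (p : V → Fin n → ℝ) (a : V → Fin m → ℝ) (v : V) :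
    ev (fun i => op (c (Sum.inl (Sum.inl i)))) (fun i => op (c (Sum.inl (Sum.inr i)))) p a v =
      Matrix.toLin' (emat c p a v) := by
  unfold ev lc emat op
  rw [map_add, map_sum, map_sum]
  simp only [map_smul]
  rfl

private theorem ev_op_anti (hc : IsCliff c) (p : V → Fin n → ℝ) (a : V → Fin m → ℝ) (u : V)
    (w : V ⊕ V) (x : D → ℝ) :
    ev (fun i => op (c (Sum.inl (Sum.inl i)))) (fun i => op (c (Sum.inl (Sum.inr i)))) p a u
      (op (c (Sum.inr w)) x) = -op (c (Sum.inr w))
      (ev (fun i => op (c (Sum.inl (Sum.inl i)))) (fun i => op (c (Sum.inl (Sum.inr i)))) p a u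
        x) := by
  unfold ev lc
  simp only [LinearMap.add_apply, LinearMap.sum_apply, LinearMap.smul_apply, map_add, map_sum,
    map_smul, neg_add, ← Finset.sum_neg_distrib]
  congr 1
  · refine Finset.sum_congr rfl fun i _ => ?_
    rw [op_anti (hc.anti _ _ (by simp)), smul_neg]
  · refine Finset.sum_congr rfl fun i _ => ?_
    rw [op_anti (hc.anti _ _ (by simp)), smul_neg]

/-- the operator of `bmat` -/
private theorem at_eq (p : V → Fin n → ℝ) (a : V → Fin m → ℝ) (t : ℝ) (v : V) (x : D → ℝ) :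
    At (ev (fun i => op (c (Sum.inl (Sum.inl i)))) (fun i => op (c (Sum.inl (Sum.inr i)))) p a)
      (fun v => op (c (Sum.inr (Sum.inl v)))) (fun v => op (c (Sum.inr (Sum.inr v)))) t v x =
      (bmat c p a t v).mulVec x := by
  rw [bmat, ← Matrix.mulVec_mulVec, Matrix.add_mulVec, Matrix.smul_mulVec]
  simp only [At, LinearMap.comp_apply, LinearMap.add_apply, LinearMap.smul_apply]
  rw [ev_eq, Matrix.toLin'_apply]
  rfl

end

/-- **Real exactness.** -/
theorem bmat_exact {V D : Type} [DecidableEq V] [Fintype V] [Fintype D] [DecidableEq D]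
    {n m : ℕ} {c : (Fin n ⊕ Fin m) ⊕ (V ⊕ V) → Matrix D D ℤ} (hc : IsCliff c)
    (G : SimpleGraph V) (hG : IsHomologySphere G n) (p : V → Fin n → ℝ) (a : V → Fin m → ℝ)
    (hf : IsFoldR G p a) (ν : V → ℕ) (hν : Function.Injective ν) (Y : Finset V) (i : ℕ)
    (hi : n < 2 * i) :
    ∃ t₀ : ℝ, ∀ t : ℝ, t₀ ≤ t → ∀ (Ω : Type) [Fintype Ω] (s : V → Ω → Ω), IsActOn G Y s →
      YZ ℝ G Y (bmat c p a t) s ν i ≤ YB ℝ G Y (bmat c p a t) s ν i := by
  classical
  obtain ⟨o, ho⟩ := hG.isSphere ν hν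
  have hcl : IsClMod (dotB D) (fun i => op (c (Sum.inl (Sum.inl i))))
      (fun i => op (c (Sum.inl (Sum.inr i)))) := isClMod hc
  have hfold : IsFold G n p a := by
    refine ⟨?_, hf.zero, hf.neg⟩
    refine (Submodule.finrank_le _).trans ?_
    simp
  obtain ⟨ep, β, ε, κ, hsys⟩ := exists_sys hν ho hfold hcl
  obtain ⟨e, he⟩ : ∃ e : V → (D → ℝ) →ₗ[ℝ] (D → ℝ), e = ev (fun i => op (c (Sum.inl (Sum.inl i))))
      (fun i => op (c (Sum.inl (Sum.inr i)))) p a := ⟨_, rfl⟩
  rw [← he] at hsys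
  have hHV : HV ν G e ⊤ Y i :=
    ((pk_all ν G e ep _ n) univ ⊤ β ε κ o hsys).1 Y (subset_univ _) i hi
  have hpert : IsPert G e (fun v => op (c (Sum.inr (Sum.inl v))))
      (fun v => op (c (Sum.inr (Sum.inr v)))) := by
    refine ⟨?_, ?_, ?_, ?_, ?_, ?_, ?_, ?_, ?_, ?_⟩
    · intro v x
      have h1 := hcl.ev_anti p a v v x
      rw [hfold.zero v v (Or.inl rfl), sub_self, mul_zero, zero_smul, ← he] at h1
      have h2 : (2 : ℝ) • e v (e v x) = 0 := by
        rw [two_smul]
        exact h1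
      exact (smul_eq_zero.1 h2).resolve_left two_ne_zero
    · intro u v huv x
      have h1 := hcl.ev_anti p a u v x
      rw [hfold.zero u v (Or.inr huv), sub_self, mul_zero, zero_smul, ← he] at h1
      exact eq_neg_of_add_eq_zero_left h1
    · intro v x
      rw [← op_mul, hc.sq_g, op_one]
    · intro v x
      rw [← op_mul, hc.sq_c, op_neg, LinearMap.neg_apply, op_one]
    · intro u v huv x
      exact op_anti (hc.anti _ _ (by simpa using huv)) x
    · intro u v huv x
      exact op_anti (hc.anti _ _ (by simpa using huv)) x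
    · intro u v x
      rw [he]
      exact ev_op_anti hc p a u _ x
    · intro u v x
      rw [he]
      exact ev_op_anti hc p a u _ x
    · intro u v x
      exact op_anti (hc.anti _ _ (by simp)) x
    · intro σ v hv hcl' x hx
      obtain ⟨m', -, hm1, hm2⟩ := hsys.lift hv (subset_univ _) hcl'
        (Submodule.mem_top (x := x)) hx
      exact ⟨m', hm1, hm2⟩
  obtain ⟨t₀, ht₀⟩ := tw_exactY ν hν hpert Y i hHV
  refine ⟨t₀, fun t ht Ω _ s hs f hfZ => ?_⟩
  obtain ⟨hf1, hf2⟩ := Submodule.mem_inf.1 hfZ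
  have hAt : ∀ v x, At e (fun v => op (c (Sum.inr (Sum.inl v))))
      (fun v => op (c (Sum.inr (Sum.inr v)))) t v x = (bmat c p a t v).mulVec x := by
    intro v x
    rw [he]
    exact at_eq p a t v x
  have hbd : ∀ f' : Finset V → Ω → D → ℝ, bd ν f' = tdl ℝ ν f' := by
    intro f'
    funext τ ω
    simp only [bd, tdl, LinearMap.coe_mk, AddHom.coe_mk, Finset.sum_apply, Pi.smul_apply]
    refine Finset.sum_congr rfl fun v _ => ?_
    simp [sgn, Pool.Agent.H4.Singer.sg]
  have htw : IsTwY G Y (At e (fun v => op (c (Sum.inr (Sum.inl v))))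
      (fun v => op (c (Sum.inr (Sum.inr v)))) t) s i f := by
    refine ⟨hf1.1, fun σ v hv ω => ?_⟩
    rw [hf1.2 σ v hv ω, hAt]
  obtain ⟨y, hy1, hy2⟩ := ht₀ t ht Ω s hs f htw (by rw [hbd]; exact LinearMap.mem_ker.1 hf2)
  refine ⟨y, ⟨hy1.supp, fun σ v hv ω => ?_⟩, ?_⟩
  · rw [hy1.tw σ v hv ω, hAt]
  · rw [← hbd]
    exact hy2

end Pool.Agent.H85.Fold2
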