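import Pool.Agent.H85.Fold2.NumF

/-!
# Project FOLD: finitely many real algebraic integers lie in the ring of integers of a
# number field inside the reals
-/

set_option autoImplicit false

open Finset

namespace Pool.Agent.H85.Fold2

/-- finitely many real algebraic numbers lie in a number field `K` with an embedding into `ℝ` -/
theorem exists_numberField_alg {ι : Type*} [Finite ι] (y : ι → ℝ)
    (hy : ∀ i, IsAlgebraic ℚ (y i)) :
    ∃ (K : Type) (_ : Field K) (_ : NumberField K) (τ : K →+* ℝ) (w : ι → K),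
      ∀ i, τ (w i) = y i := by
  set K : IntermediateField ℚ ℝ := IntermediateField.adjoin ℚ (Set.range y) with hK
  have hfd : FiniteDimensional ℚ K := by
    apply IntermediateField.finiteDimensional_adjoin
    rintro _ ⟨i, rfl⟩
    exact (hy i).isIntegral
  have hNF : NumberField K := by
    refine { to_charZero := inferInstance, to_finiteDimensional := ?_ }
    convert hfd
  exact ⟨K, inferInstance, hNF, algebraMap K ℝ,
    fun i => ⟨y i, IntermediateField.subset_adjoin ℚ _ ⟨i, rfl⟩⟩, fun i => rfl⟩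

/-- finitely many real algebraic integers lie in the ring of integers of a number field `K`
with an embedding into `ℝ` -/
theorem exists_numberField_int {ι : Type*} [Finite ι] (y : ι → ℝ)
    (hy : ∀ i, IsIntegral ℤ (y i)) :
    ∃ (K : Type) (_ : Field K) (_ : NumberField K) (τ : K →+* ℝ)
      (w : ι → NumberField.RingOfIntegers K), ∀ i, τ (w i : K) = y i := by
  obtain ⟨K, iK, iN, τ, w, hw⟩ := exists_numberField_alg y fun i =>
    (IsFractionRing.isAlgebraic_iff ℤ ℚ ℝ).mp (hy i).isAlgebraic
  refine ⟨K, iK, iN, τ, fun i => ⟨w i, ?_⟩, fun i => hw i⟩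
  have h : IsIntegral ℤ (τ (w i)) := by
    rw [hw i]
    exact hy i
  have h2 : IsIntegral ℤ (τ.toIntAlgHom (w i)) := h
  exact (isIntegral_algHom_iff τ.toIntAlgHom τ.injective).mp h2

/-- the same for an indexed family of algebraic numbers, cleared of denominators by one
nonzero integer -/
theorem exists_int_mul_integral {ι : Type*} [Finite ι] (y : ι → ℝ)
    (hy : ∀ i, IsAlgebraic ℚ (y i)) :
    ∃ N : ℤ, 0 < N ∧ ∀ i, IsIntegral ℤ ((N : ℝ) * y i) := by
  classical
  have : Fintype ι := Fintype.ofFinite ι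
  have h1 : ∀ i, ∃ c : ℤ, c ≠ 0 ∧ IsIntegral ℤ (c • y i) := by
    intro i
    have h2 : IsAlgebraic ℤ (y i) := (IsFractionRing.isAlgebraic_iff ℤ ℚ ℝ).mpr (hy i)
    obtain ⟨c, hc, hi⟩ := h2.exists_integral_multiple
    exact ⟨c, hc, hi⟩
  choose c hc hi using h1
  have h0 : ∀ i, IsIntegral ℤ (((∏ j, c j : ℤ) : ℝ) * y i) := by
    intro i
    have e : ((∏ j, c j : ℤ) : ℝ) * y i =
        ((∏ j ∈ Finset.univ.erase i, c j : ℤ) : ℝ) * (c i • y i) := by
      rw [zsmul_eq_mul, ← Finset.mul_prod_erase Finset.univ c (Finset.mem_univ i)]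
      push_cast
      ring
    rw [e]
    refine IsIntegral.mul ?_ (hi i)
    exact isIntegral_algebraMap (R := ℤ) (A := ℝ) (x := ∏ j ∈ Finset.univ.erase i, c j)
  have hne : (∏ i, c i : ℤ) ≠ 0 := Finset.prod_ne_zero_iff.mpr fun i _ => hc i
  refine ⟨|∏ i, c i|, abs_pos.mpr hne, fun i => ?_⟩
  rcases abs_choice (∏ i, c i : ℤ) with h | h
  · rw [h]; exact h0 i
  · rw [h]
    push_cast
    rw [neg_mul]
    have := (h0 i).neg
    push_cast at this
    exact this

end Pool.Agent.H85.Fold2
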