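import Mathlib

/-!
# Project FOLD, second stage: real solutions and real algebraic solutions
-/

set_option autoImplicit false

open Finset

namespace Pool.Agent.H85.Fold2

namespace ToAlg

open Filter Topology Polynomial

/-- germs at infinity of sequences of real numbers -/
abbrev Gm : Type := Germ (atTop : Filter ℕ) ℝ

/-- the germ `γ` is represented by a sequence of algebraic numbers with limit `b` -/
def Nice (γ : Gm) (b : ℝ) : Prop :=
  ∃ g : ℕ → ℝ, γ = (g : Gm) ∧ (∀ᶠ n in atTop, IsAlgebraic ℚ (g n)) ∧ Tendsto g atTop (𝓝 b)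

theorem Nice.add {γ δ : Gm} {b c : ℝ} (h1 : Nice γ b) (h2 : Nice δ c) :
    Nice (γ + δ) (b + c) := by
  obtain ⟨g, rfl, ha, ht⟩ := h1
  obtain ⟨g', rfl, ha', ht'⟩ := h2
  refine ⟨g + g', rfl, ?_, ht.add ht'⟩
  filter_upwards [ha, ha'] with n h1 h2
  exact h1.add h2

theorem Nice.mul {γ δ : Gm} {b c : ℝ} (h1 : Nice γ b) (h2 : Nice δ c) :
    Nice (γ * δ) (b * c) := by
  obtain ⟨g, rfl, ha, ht⟩ := h1
  obtain ⟨g', rfl, ha', ht'⟩ := h2
  refine ⟨g * g', rfl, ?_, ht.mul ht'⟩
  filter_upwards [ha, ha'] with n h1 h2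
  exact h1.mul h2

theorem Nice.one : Nice 1 1 :=
  ⟨1, rfl, Eventually.of_forall fun _ => isAlgebraic_one, tendsto_const_nhds⟩

theorem Nice.pow {γ : Gm} {b : ℝ} (h : Nice γ b) (k : ℕ) : Nice (γ ^ k) (b ^ k) := by
  induction k with
  | zero => simpa using Nice.one
  | succ k ih =>
    rw [pow_succ, pow_succ]
    exact ih.mul h

theorem Nice.isUnit {γ : Gm} {b : ℝ} (h : Nice γ b) (hb : b ≠ 0) : IsUnit γ := by
  obtain ⟨g, rfl, -, ht⟩ := h
  have h1 : ∀ᶠ n in atTop, g n ≠ 0 := ht.eventually_ne hb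
  refine IsUnit.of_mul_eq_one ((g⁻¹ : ℕ → ℝ) : Gm) ?_
  rw [← Germ.coe_mul, ← Germ.coe_one, Germ.coe_eq]
  filter_upwards [h1] with n hn
  exact mul_inv_cancel₀ hn

/-- a subalgebra of `ℝ` with a good homomorphism to the germs -/
def Good (B : Subalgebra ℚ ℝ) : Prop := ∃ ψ : B →+* Gm, ∀ b : B, Nice (ψ b) (b : ℝ)

theorem nice_eval {B : Subalgebra ℚ ℝ} {ψ : B →+* Gm} (hψ : ∀ b : B, Nice (ψ b) (b : ℝ))
    {τ : Gm} {t : ℝ} (hτ : Nice τ t) (h : B[X]) :
    Nice (eval₂ ψ τ h) (aeval t h) := by
  induction h using Polynomial.induction_on' with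
  | add p q hp hq =>
    rw [eval₂_add, map_add]
    exact hp.add hq
  | monomial n a =>
    rw [eval₂_monomial, aeval_monomial]
    exact (hψ a).mul (hτ.pow n)

/-- the extension step -/
theorem extend_aux {B : Subalgebra ℚ ℝ} {ψ : B →+* Gm} (hψ : ∀ b : B, Nice (ψ b) (b : ℝ))
    {τ : Gm} {t : ℝ} (hτ : Nice τ t)
    (hker : ∀ h : B[X], aeval t h = 0 → eval₂ ψ τ h = 0) :
    ∃ B' : Subalgebra ℚ ℝ, B ≤ B' ∧ t ∈ B' ∧ Good B' := by
  classical
  have hwd : ∀ h h' : B[X], aeval t h = aeval t h' → eval₂ ψ τ h = eval₂ ψ τ h' := by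
    intro h h' heq
    have h1 : eval₂ ψ τ (h - h') = 0 := hker _ (by rw [map_sub, heq, sub_self])
    rw [eval₂_sub] at h1
    exact sub_eq_zero.mp h1
  set B' : Subalgebra ℚ ℝ := ((aeval t : B[X] →ₐ[B] ℝ).range).restrictScalars ℚ with hB'
  have hmem : ∀ b : B', ∃ h : B[X], aeval t h = (b : ℝ) := fun b => b.2
  choose c hc using hmem
  refine ⟨B', ?_, ?_, ?_⟩
  · intro b hb
    exact ⟨C ⟨b, hb⟩, by simp⟩
  · exact ⟨X, by simp⟩
  · have hval : ∀ (b : B') (h : B[X]), aeval t h = (b : ℝ) → eval₂ ψ τ (c b) = eval₂ ψ τ h :=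
      fun b h hbh => hwd _ _ ((hc b).trans hbh.symm)
    refine ⟨{ toFun := fun b => eval₂ ψ τ (c b)
              map_one' := ?_
              map_mul' := ?_
              map_zero' := ?_
              map_add' := ?_ }, ?_⟩
    · rw [hval 1 1 (by simp), eval₂_one]
    · intro a b
      rw [hval (a * b) (c a * c b) (by rw [map_mul, hc, hc]; rfl), eval₂_mul]
    · show eval₂ ψ τ (c 0) = 0
      rw [hval 0 0 (by simp), eval₂_zero]
    · intro a b
      show eval₂ ψ τ (c (a + b)) = eval₂ ψ τ (c a) + eval₂ ψ τ (c b)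
      rw [hval (a + b) (c a + c b) (by rw [map_add, hc, hc]; rfl), eval₂_add]
    · intro b
      have h1 := nice_eval hψ hτ (c b)
      rw [hc] at h1
      exact h1

/-- choice of approximations -/
theorem choose_seq (P : ℕ → ℝ → Prop) (t : ℝ)
    (h : ∀ ε > 0, ∀ᶠ n in atTop, ∃ s, P n s ∧ |s - t| < ε) :
    ∃ τ : ℕ → ℝ, (∀ᶠ n in atTop, P n (τ n)) ∧ Tendsto τ atTop (𝓝 t) := by
  classical
  have h1 : ∀ n : ℕ, ∃ s : ℝ, (∃ r, P n r) →
      P n s ∧ dist t s < Metric.infDist t {r | P n r} + 1 / ((n : ℝ) + 1) := by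
    intro n
    by_cases hn : ∃ r, P n r
    · have h2 : Metric.infDist t {r | P n r} < Metric.infDist t {r | P n r} + 1 / ((n : ℝ) + 1) :=
        lt_add_of_pos_right _ (by positivity)
      obtain ⟨s, hs, hd⟩ := (Metric.infDist_lt_iff (s := {r | P n r}) hn).1 h2
      exact ⟨s, fun _ => ⟨hs, hd⟩⟩
    · exact ⟨0, fun h => absurd h hn⟩
  choose τ hτ using h1
  refine ⟨τ, ?_, ?_⟩
  · filter_upwards [h 1 one_pos] with n hn
    obtain ⟨s, hs, -⟩ := hn
    exact (hτ n ⟨s, hs⟩).1
  · rw [Metric.tendsto_atTop']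
    intro ε hε
    have h2 : ∀ᶠ n : ℕ in atTop, 1 / ((n : ℝ) + 1) < ε / 2 := by
      have h3 := (tendsto_one_div_add_atTop_nhds_zero_nat (𝕜 := ℝ)).eventually
        (gt_mem_nhds (half_pos hε))
      exact h3
    obtain ⟨N, hN⟩ := eventually_atTop.mp ((h (ε / 2) (half_pos hε)).and h2)
    refine ⟨N, fun n hn => ?_⟩
    obtain ⟨⟨s, hs, hst⟩, hn2⟩ := hN n hn.le
    have h4 := (hτ n ⟨s, hs⟩).2
    have h5 : Metric.infDist t {r | P n r} ≤ dist t s := Metric.infDist_le_dist_of_mem hs
    have h6 : dist t s < ε / 2 := by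
      rw [dist_comm, Real.dist_eq]
      exact hst
    rw [dist_comm]
    linarith

/-- sign change at a simple root -/
theorem sign_change (p : ℝ[X]) (t : ℝ) (h0 : eval t p = 0) (h1 : eval t (derivative p) ≠ 0)
    (ε : ℝ) (hε : 0 < ε) :
    ∃ δ, 0 < δ ∧ δ < ε ∧ eval (t - δ) p * eval (t + δ) p < 0 := by
  obtain ⟨q, hq⟩ := dvd_iff_isRoot.mpr (show IsRoot p t from h0)
  have h2 : eval t (derivative p) = eval t q := by
    rw [hq]
    simp [derivative_mul]
  rw [h2] at h1
  have h3 : Tendsto (fun δ : ℝ => eval (t - δ) q * eval (t + δ) q) (𝓝 0)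
      (𝓝 (eval t q * eval t q)) := by
    have h4 : Continuous fun δ : ℝ => eval (t - δ) q * eval (t + δ) q :=
      (q.continuous.comp (by fun_prop)).mul (q.continuous.comp (by fun_prop))
    have h5 := h4.tendsto 0
    simpa using h5
  have h4 : 0 < eval t q * eval t q := mul_self_pos.mpr h1
  have h5 := h3.eventually (lt_mem_nhds h4)
  obtain ⟨η, hη, hball⟩ := Metric.eventually_nhds_iff.mp h5
  refine ⟨min (ε / 2) (η / 2), by positivity, ?_, ?_⟩
  · exact lt_of_le_of_lt (min_le_left _ _) (by linarith)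
  · set δ := min (ε / 2) (η / 2) with hδ
    have hδ0 : 0 < δ := by positivity
    have h6 : 0 < eval (t - δ) q * eval (t + δ) q := by
      apply hball
      rw [Real.dist_eq, sub_zero, abs_of_pos hδ0]
      exact lt_of_le_of_lt (min_le_right _ _) (by linarith)
    have h7 : eval (t - δ) p * eval (t + δ) p =
        -(δ * δ * (eval (t - δ) q * eval (t + δ) q)) := by
      rw [hq]
      simp only [eval_mul, eval_sub, eval_X, eval_C]
      ring
    rw [h7]
    exact neg_neg_of_pos (by positivity)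

/-- a root of a nonzero polynomial with algebraic coefficients is algebraic -/
theorem algebraic_root (d : ℕ) (a : ℕ → ℝ) (ha : ∀ k, k ≤ d → IsAlgebraic ℚ (a k))
    (hd : a d ≠ 0) (s : ℝ) (hs : ∑ k ∈ range (d + 1), a k * s ^ k = 0) : IsAlgebraic ℚ s := by
  classical
  set K := algebraicClosure ℚ ℝ with hK
  have hmem : ∀ k, k ≤ d → a k ∈ K := fun k hk => mem_algebraicClosure_iff.mpr (ha k hk)
  have h1 : IsAlgebraic K s := by
    set a' : ℕ → K := fun k => if h : k ≤ d then ⟨a k, hmem k h⟩ else 0 with ha'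
    have hav : ∀ k, k ≤ d → ((a' k : K) : ℝ) = a k := by
      intro k hk
      simp [ha', hk]
    refine ⟨∑ k ∈ range (d + 1), C (a' k) * X ^ k, ?_, ?_⟩
    · intro h0
      have h2 : (∑ k ∈ range (d + 1), C (a' k) * X ^ k).coeff d = a' d := by
        rw [finsetSum_coeff]
        simp only [coeff_C_mul, coeff_X_pow]
        rw [Finset.sum_eq_single d]
        · simp
        · intro b _ hb
          rw [if_neg hb.symm, mul_zero]
        · intro h
          exact absurd (Finset.mem_range.mpr (Nat.lt_succ_self d)) h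
      rw [h0, coeff_zero] at h2
      apply hd
      rw [← hav d le_rfl, ← h2]
      rfl
    · rw [map_sum, ← hs]
      refine Finset.sum_congr rfl fun k hk => ?_
      rw [map_mul, map_pow, aeval_C, aeval_X]
      have h3 : algebraMap K ℝ (a' k) = a k := hav k (Nat.lt_succ_iff.mp (Finset.mem_range.mp hk))
      rw [h3]
  have : Algebra.IsAlgebraic ℚ K := algebraicClosure.isAlgebraic ℚ ℝ
  exact h1.restrictScalars ℚ

/-- **The extension step.** -/
theorem extend {B : Subalgebra ℚ ℝ} (hB : Good B) (t : ℝ) :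
    ∃ B' : Subalgebra ℚ ℝ, B ≤ B' ∧ t ∈ B' ∧ Good B' := by
  classical
  obtain ⟨ψ, hψ⟩ := hB
  by_cases htr : ∀ h : B[X], aeval t h = 0 → h = 0
  · -- transcendental case
    obtain ⟨τ, hτ1, hτ2⟩ := choose_seq (fun _ s => ∃ q : ℚ, s = (q : ℝ)) t (by
      intro ε hε
      refine Eventually.of_forall fun n => ?_
      obtain ⟨q, hq1, hq2⟩ := exists_rat_btwn (show t < t + ε by linarith)
      refine ⟨q, ⟨q, rfl⟩, ?_⟩
      rw [abs_of_pos (by linarith)]
      linarith)
    refine extend_aux hψ (τ := (τ : Gm)) ⟨τ, rfl, ?_, hτ2⟩ ?_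
    · filter_upwards [hτ1] with n hn
      obtain ⟨q, hq⟩ := hn
      rw [hq]
      exact isAlgebraic_algebraMap q
    · intro h hh
      rw [htr h hh, eval₂_zero]
  · -- algebraic case
    push Not at htr
    have hex : ∃ d : ℕ, ∃ h : B[X], h ≠ 0 ∧ aeval t h = 0 ∧ h.natDegree = d := by
      obtain ⟨h, h1, h2⟩ := htr
      exact ⟨_, h, h2, h1, rfl⟩
    obtain ⟨h, hh0, hht, hhd⟩ := Nat.find_spec hex
    have hmin : ∀ g : B[X], g ≠ 0 → aeval t g = 0 → h.natDegree ≤ g.natDegree := by
      intro g hg0 hgt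
      rw [hhd]
      exact Nat.find_min' hex ⟨g, hg0, hgt, rfl⟩
    clear hhd
    have hinj : Function.Injective (algebraMap B ℝ) := Subtype.coe_injective
    have hdeg : h.natDegree ≠ 0 := by
      intro h0
      rw [Polynomial.eq_C_of_natDegree_eq_zero h0, aeval_C] at hht
      have h1 : h.coeff 0 = 0 := hinj (by rw [hht, map_zero])
      apply hh0
      rw [Polynomial.eq_C_of_natDegree_eq_zero h0, h1, C_0]
    have hder0 : derivative h ≠ 0 := by
      intro h0
      exact hdeg (derivative_eq_zero.mp h0)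
    have hder : aeval t (derivative h) ≠ 0 := by
      intro h0
      have h1 := hmin _ hder0 h0
      have h2 := natDegree_derivative_lt hdeg
      omega
    -- representatives of the coefficients
    choose g hg1 hg2 hg3 using fun k : ℕ => hψ (h.coeff k)
    set d := h.natDegree with hd
    have hlead : ((h.coeff d : B) : ℝ) ≠ 0 := by
      intro h0
      have h1 : h.coeff d = 0 := Subtype.coe_injective h0
      exact hh0 (leadingCoeff_eq_zero.mp h1)
    -- the approximating functions
    have hH : ∀ s : ℝ, Tendsto (fun n => ∑ k ∈ range (d + 1), g k n * s ^ k) atTop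
        (𝓝 (aeval s h)) := by
      intro s
      have h1 : aeval s h = ∑ k ∈ range (d + 1), ((h.coeff k : B) : ℝ) * s ^ k := by
        rw [aeval_eq_sum_range]
        refine Finset.sum_congr rfl fun k _ => ?_
        rw [Algebra.smul_def]
        rfl
      rw [h1]
      exact tendsto_finsetSum _ fun k _ => (hg3 k).mul_const _
    set p : ℝ[X] := h.map (algebraMap B ℝ) with hp
    have hpe : ∀ s : ℝ, eval s p = aeval s h := fun s => eval_map_algebraMap h s
    have hpd : eval t (derivative p) ≠ 0 := by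
      rw [hp, derivative_map, eval_map_algebraMap]
      exact hder
    obtain ⟨τ, hτ1, hτ2⟩ := choose_seq
      (fun n s => ∑ k ∈ range (d + 1), g k n * s ^ k = 0) t (by
      intro ε hε
      obtain ⟨δ, hδ0, hδε, hs⟩ := sign_change p t (by rw [hpe, hht]) hpd ε hε
      rw [hpe, hpe] at hs
      have h1 := (((hH (t - δ)).mul (hH (t + δ))).eventually (gt_mem_nhds hs))
      filter_upwards [h1] with n hn
      have h2 : Continuous fun s : ℝ => ∑ k ∈ range (d + 1), g k n * s ^ k := by fun_prop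
      have h3 := intermediate_value_uIcc (a := t - δ) (b := t + δ)
        (f := fun s : ℝ => ∑ k ∈ range (d + 1), g k n * s ^ k) h2.continuousOn
      have h4 : (0 : ℝ) ∈ Set.uIcc ((fun s : ℝ => ∑ k ∈ range (d + 1), g k n * s ^ k) (t - δ))
          ((fun s : ℝ => ∑ k ∈ range (d + 1), g k n * s ^ k) (t + δ)) := by
        rw [Set.mem_uIcc]
        rcases mul_neg_iff.mp hn with ⟨h5, h6⟩ | ⟨h5, h6⟩
        · right
          exact ⟨h6.le, h5.le⟩
        · left
          exact ⟨h5.le, h6.le⟩
      obtain ⟨s, hs1, hs2⟩ := h3 h4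
      refine ⟨s, hs2, ?_⟩
      rw [Set.uIcc_of_le (by linarith), Set.mem_Icc] at hs1
      rw [abs_lt]
      constructor <;> linarith [hs1.1, hs1.2])
    have hnice : Nice (τ : Gm) t := by
      refine ⟨τ, rfl, ?_, hτ2⟩
      have h1 : ∀ᶠ n in atTop, ∀ k ∈ range (d + 1), IsAlgebraic ℚ (g k n) := by
        rw [eventually_all_finset]
        exact fun k _ => hg2 k
      have h2 : ∀ᶠ n in atTop, g d n ≠ 0 := (hg3 d).eventually_ne hlead
      filter_upwards [hτ1, h1, h2] with n hn1 hn2 hn3
      exact algebraic_root d (fun k => g k n)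
        (fun k hk => hn2 k (Finset.mem_range.mpr (Nat.lt_succ_of_le hk))) hn3 (τ n) hn1
    have hτh : eval₂ ψ (τ : Gm) h = 0 := by
      rw [eval₂_eq_sum_range]
      have h1 : ∑ k ∈ range (d + 1), ψ (h.coeff k) * (τ : Gm) ^ k =
          ((fun n => ∑ k ∈ range (d + 1), g k n * τ n ^ k : ℕ → ℝ) : Gm) := by
        have h2 : (fun n => ∑ k ∈ range (d + 1), g k n * τ n ^ k : ℕ → ℝ) =
            ∑ k ∈ range (d + 1), g k * τ ^ k := by
          funext n
          simp [Finset.sum_apply]
        rw [h2]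
        change _ = Germ.coeRingHom (atTop : Filter ℕ) (∑ k ∈ range (d + 1), g k * τ ^ k)
        rw [map_sum]
        refine Finset.sum_congr rfl fun k _ => ?_
        rw [map_mul, map_pow, hg1]
        rfl
      rw [← hd, h1, ← Germ.coe_zero, Germ.coe_eq]
      filter_upwards [hτ1] with n hn
      exact hn
    refine extend_aux hψ hnice ?_
    -- the kernel
    have hker : ∀ (m : ℕ) (f : B[X]), f.natDegree < m → aeval t f = 0 →
        eval₂ ψ (τ : Gm) f = 0 := by
      intro m
      induction m with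
      | zero => intro f hf; omega
      | succ m ih =>
        intro f hfm hft
        by_cases hf0 : f = 0
        · rw [hf0, eval₂_zero]
        have hle : d ≤ f.natDegree := hmin f hf0 hft
        set f1 : B[X] := C h.leadingCoeff * f -
          C f.leadingCoeff * X ^ (f.natDegree - d) * h with hf1
        have hlc : h.leadingCoeff ≠ 0 := leadingCoeff_ne_zero.mpr hh0
        have hlf : f.leadingCoeff ≠ 0 := leadingCoeff_ne_zero.mpr hf0
        have hf1t : aeval t f1 = 0 := by
          rw [hf1, map_sub, map_mul, map_mul, hft, hht, mul_zero, mul_zero, sub_zero]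
        have hf1e : eval₂ ψ (τ : Gm) f1 = 0 := by
          by_cases hf10 : f1 = 0
          · rw [hf10, eval₂_zero]
          apply ih f1 _ hf1t
          have h1 : f1.degree < (C h.leadingCoeff * f).degree := by
            apply degree_sub_lt_left
            · rw [degree_mul, degree_mul, degree_mul, degree_C hlc, degree_C hlf, degree_X_pow,
                degree_eq_natDegree hf0, degree_eq_natDegree hh0, zero_add, zero_add,
                ← Nat.cast_add, ← hd, Nat.sub_add_cancel hle]
            · exact mul_ne_zero (C_ne_zero.mpr hlc) hf0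
            · rw [leadingCoeff_mul, leadingCoeff_mul, leadingCoeff_mul, leadingCoeff_C,
                leadingCoeff_C, leadingCoeff_X_pow, mul_one, mul_comm]
          have h2 : (C h.leadingCoeff * f).degree = f.degree := by
            rw [degree_mul, degree_C hlc, zero_add]
          rw [h2] at h1
          have h3 := natDegree_lt_natDegree hf10 h1
          omega
        have h4 : eval₂ ψ (τ : Gm) f1 = ψ h.leadingCoeff * eval₂ ψ (τ : Gm) f -
            eval₂ ψ (τ : Gm) (C f.leadingCoeff * X ^ (f.natDegree - d)) *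
              eval₂ ψ (τ : Gm) h := by
          rw [hf1, eval₂_sub, eval₂_mul, eval₂_mul, eval₂_C]
        rw [hf1e, hτh, mul_zero, sub_zero] at h4
        have h5 : IsUnit (ψ h.leadingCoeff) := (hψ h.leadingCoeff).isUnit hlead
        exact (h5.mul_right_eq_zero).mp h4.symm
    intro f hft
    exact hker _ f (Nat.lt_succ_self _) hft

theorem good_bot : Good ⊥ := by
  refine ⟨(Germ.coeRingHom (atTop : Filter ℕ)).comp ((Pi.constRingHom ℕ ℝ).comp
    (algebraMap (⊥ : Subalgebra ℚ ℝ) ℝ)), fun b => ?_⟩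
  refine ⟨fun _ => (b : ℝ), rfl, Eventually.of_forall fun _ => ?_, tendsto_const_nhds⟩
  obtain ⟨q, hq⟩ := Algebra.mem_bot.mp b.2
  rw [← hq]
  exact isAlgebraic_algebraMap q

theorem exists_good (s : Finset ℝ) : ∃ B : Subalgebra ℚ ℝ, (∀ t ∈ s, t ∈ B) ∧ Good B := by
  classical
  induction s using Finset.induction_on with
  | empty => exact ⟨⊥, by simp, good_bot⟩
  | insert a s _ ih =>
    obtain ⟨B, hB1, hB2⟩ := ih
    obtain ⟨B', h1, h2, h3⟩ := extend hB2 a
    refine ⟨B', ?_, h3⟩
    intro t ht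
    rcases Finset.mem_insert.mp ht with rfl | ht
    · exact h2
    · exact h1 (hB1 t ht)

end ToAlg

open ToAlg Filter Topology in
/-- A finite system of polynomial equations and strict inequalities over `ℚ` with a real solution
has a solution by real algebraic numbers. -/
theorem real_to_alg {ι : Type} [Finite ι] (F P : Finset (MvPolynomial ι ℚ)) (x : ι → ℝ)
    (hF : ∀ f ∈ F, MvPolynomial.aeval x f = 0) (hP : ∀ f ∈ P, 0 < MvPolynomial.aeval x f) :
    ∃ y : ι → ℝ, (∀ i, IsAlgebraic ℚ (y i)) ∧ (∀ f ∈ F, MvPolynomial.aeval y f = 0) ∧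
      ∀ f ∈ P, 0 < MvPolynomial.aeval y f := by
  classical
  have := Fintype.ofFinite ι
  obtain ⟨B, hB1, ψ, hψ⟩ := exists_good (Finset.univ.image x)
  have hxB : ∀ i, x i ∈ B := fun i => hB1 _ (Finset.mem_image_of_mem x (Finset.mem_univ i))
  set X : ι → B := fun i => ⟨x i, hxB i⟩ with hX
  choose g hg1 hg2 hg3 using fun i : ι => hψ (X i)
  -- evaluation of polynomials
  have hval : ∀ f : MvPolynomial ι ℚ, ((MvPolynomial.aeval X f : B) : ℝ) =
      MvPolynomial.aeval x f := by
    intro f
    have h1 := MvPolynomial.map_aeval X (algebraMap B ℝ) f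
    rw [MvPolynomial.aeval_def]
    have h2 : (algebraMap B ℝ) (MvPolynomial.aeval X f) =
      MvPolynomial.eval₂ ((algebraMap B ℝ).comp (algebraMap ℚ B)) (fun i => (algebraMap B ℝ) (X i))
        f := by
      rw [h1]
      rfl
    exact h2
  have hgerm : ∀ f : MvPolynomial ι ℚ, ψ (MvPolynomial.aeval X f) =
      ((fun n => MvPolynomial.aeval (fun i => g i n) f : ℕ → ℝ) : Gm) := by
    intro f
    have h3 : ∀ f : ℕ → ℝ, ((f : ℕ → ℝ) : Gm) = Germ.coeRingHom (atTop : Filter ℕ) f :=
      fun _ => rfl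
    have h1 : (fun n => MvPolynomial.aeval (fun i => g i n) f : ℕ → ℝ) =
        MvPolynomial.aeval g f := by
      induction f using MvPolynomial.induction_on with
      | C a => funext n; simp
      | add p q hp hq => rw [map_add, ← hp, ← hq]; funext n; simp
      | mul_X p i hp => rw [map_mul, ← hp]; funext n; simp
    rw [h1, h3]
    induction f using MvPolynomial.induction_on with
    | C a =>
      have h4 : (ψ.comp (algebraMap ℚ B)) =
          (Germ.coeRingHom (atTop : Filter ℕ)).comp (algebraMap ℚ (ℕ → ℝ)) :=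
        Subsingleton.elim _ _
      have h5 := RingHom.congr_fun h4 a
      simpa using h5
    | add p q hp hq =>
      rw [map_add, map_add, map_add, map_add]
      rw [hp (by funext n; simp [MvPolynomial.aeval_def, MvPolynomial.eval₂_eq']),
        hq (by funext n; simp [MvPolynomial.aeval_def, MvPolynomial.eval₂_eq'])]
    | mul_X p i hp =>
      rw [map_mul, map_mul, map_mul, map_mul, MvPolynomial.aeval_X, MvPolynomial.aeval_X]
      rw [hp (by funext n; simp [MvPolynomial.aeval_def, MvPolynomial.eval₂_eq']), hg1, h3]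
  have hlim : ∀ f : MvPolynomial ι ℚ,
      Tendsto (fun n => MvPolynomial.aeval (fun i => g i n) f) atTop
        (𝓝 (MvPolynomial.aeval x f)) := by
    intro f
    obtain ⟨g', h1, -, h2⟩ := hψ (MvPolynomial.aeval X f)
    rw [hval] at h2
    rw [hgerm, Germ.coe_eq] at h1
    exact h2.congr' h1.symm
  have e1 : ∀ᶠ n in atTop, ∀ i, IsAlgebraic ℚ (g i n) := eventually_all.mpr hg2
  have e2 : ∀ᶠ n in atTop, ∀ f ∈ F, MvPolynomial.aeval (fun i => g i n) f = 0 := by
    rw [eventually_all_finset]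
    intro f hf
    have h1 : MvPolynomial.aeval X f = (0 : B) := by
      apply Subtype.ext
      rw [hval, hF f hf]
      rfl
    have h2 := hgerm f
    rw [h1, map_zero, ← Germ.coe_zero, Germ.coe_eq] at h2
    filter_upwards [h2] with n hn
    exact hn.symm
  have e3 : ∀ᶠ n in atTop, ∀ f ∈ P, 0 < MvPolynomial.aeval (fun i => g i n) f := by
    rw [eventually_all_finset]
    intro f hf
    exact (hlim f).eventually (lt_mem_nhds (hP f hf))
  obtain ⟨n, h1, h2, h3⟩ := (e1.and (e2.and e3)).exists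
  exact ⟨fun i => g i n, h1, h2, h3⟩

end Pool.Agent.H85.Fold2
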