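import Pool.Agent.H85.Fold2.Defs
import Pool.Agent.H85.Fold.Comp

/-!
# Project FOLD, second stage: inequalities between real Betti numbers
-/

set_option autoImplicit false
set_option linter.unusedSectionVars false

open Finset

namespace Pool.Agent.H85.Fold2

open Pool.Agent.H85.Fold
open Pool.Agent.H4.Singer (sg)

namespace Ineq

section LinAlg

variable {E : Type} [AddCommGroup E] [Module ℝ E] [FiniteDimensional ℝ E]

private theorem dim_map (Z Zn Bn W : Submodule ℝ E) (φ : E →ₗ[ℝ] E) (h1 : ∀ f ∈ Z, φ f ∈ Zn)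
    (h2 : ∀ f ∈ Z, φ f ∈ Bn → f ∈ W) (h3 : Bn ≤ Zn) :
    Module.finrank ℝ Z + Module.finrank ℝ Bn ≤ Module.finrank ℝ Zn + Module.finrank ℝ W := by
  have e1 := LinearMap.finrank_range_add_finrank_ker ((Bn.mkQ.comp φ).domRestrict Z)
  have e2 := LinearMap.finrank_range_add_finrank_ker (Bn.mkQ.domRestrict Zn)
  have e3 : Module.finrank ℝ (LinearMap.range ((Bn.mkQ.comp φ).domRestrict Z)) ≤
      Module.finrank ℝ (LinearMap.range (Bn.mkQ.domRestrict Zn)) := by
    refine Submodule.finrank_mono ?_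
    rintro _ ⟨⟨f, hf⟩, rfl⟩
    exact ⟨⟨φ f, h1 f hf⟩, rfl⟩
  have e4 : Module.finrank ℝ (LinearMap.ker ((Bn.mkQ.comp φ).domRestrict Z)) ≤
      Module.finrank ℝ W := by
    have hk : ∀ x : LinearMap.ker ((Bn.mkQ.comp φ).domRestrict Z), ((x : Z) : E) ∈ W := by
      rintro ⟨⟨f, hf⟩, hx⟩
      have hx' : Bn.mkQ (φ f) = 0 := hx
      rw [Submodule.mkQ_apply, Submodule.Quotient.mk_eq_zero] at hx'
      exact h2 f hf hx'
    refine LinearMap.finrank_le_finrank_of_injective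
      (f := (Z.subtype.comp (LinearMap.ker ((Bn.mkQ.comp φ).domRestrict Z)).subtype).codRestrict W
        hk) ?_
    intro x y hxy
    have : ((x : Z) : E) = ((y : Z) : E) := congrArg (fun w : W => (w : E)) hxy
    exact Subtype.ext (Subtype.ext this)
  have e5 : Module.finrank ℝ Bn ≤ Module.finrank ℝ (LinearMap.ker (Bn.mkQ.domRestrict Zn)) := by
    have hk : ∀ b : Bn, Submodule.inclusion h3 b ∈ LinearMap.ker (Bn.mkQ.domRestrict Zn) := by
      rintro ⟨b, hb⟩
      show Bn.mkQ b = 0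
      rw [Submodule.mkQ_apply, Submodule.Quotient.mk_eq_zero]
      exact hb
    refine LinearMap.finrank_le_finrank_of_injective
      (f := (Submodule.inclusion h3).codRestrict _ hk) ?_
    intro x y hxy
    have h : Submodule.inclusion h3 x = Submodule.inclusion h3 y := congrArg Subtype.val hxy
    exact Submodule.inclusion_injective h3 h
  omega

private theorem dim_sup (Z0 B0 B : Submodule ℝ E) (h1 : B0 ≤ Z0) (h2 : B0 ≤ B) :
    Module.finrank ℝ (Z0 ⊔ B : Submodule ℝ E) + Module.finrank ℝ B0 ≤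
      Module.finrank ℝ Z0 + Module.finrank ℝ B := by
  have e1 := Submodule.finrank_sup_add_finrank_inf_eq Z0 B
  have e2 : Module.finrank ℝ B0 ≤ Module.finrank ℝ (Z0 ⊓ B : Submodule ℝ E) :=
    Submodule.finrank_mono (le_inf h1 h2)
  omega

end LinAlg

variable {V : Type} [DecidableEq V] [Fintype V] {P : Type} [Group P]

private noncomputable abbrev Ch (G : SimpleGraph V) (Y : Finset V) (g : V → P) (i : ℕ) :
    Submodule ℝ (Finset V → P → Unit → ℝ) :=
  YCh ℝ G Y (fun _ => (1 : Matrix Unit Unit ℝ)) (fun v x => x * g v) i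

private noncomputable abbrev Zc (ν : V → ℕ) (G : SimpleGraph V) (Y : Finset V) (g : V → P) (i : ℕ) :
    Submodule ℝ (Finset V → P → Unit → ℝ) :=
  YZ ℝ G Y (fun _ => (1 : Matrix Unit Unit ℝ)) (fun v x => x * g v) ν i

private noncomputable abbrev Bc (ν : V → ℕ) (G : SimpleGraph V) (Y : Finset V) (g : V → P) (i : ℕ) :
    Submodule ℝ (Finset V → P → Unit → ℝ) :=
  YB ℝ G Y (fun _ => (1 : Matrix Unit Unit ℝ)) (fun v x => x * g v) ν i

private theorem mem_Ch {G : SimpleGraph V} {Y : Finset V} {g : V → P} {i : ℕ}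
    {f : Finset V → P → Unit → ℝ} :
    f ∈ Ch G Y g i ↔ (∀ σ ω, f σ ω ≠ 0 → σ ⊆ Y ∧ Cl G σ ∧ σ.card = i) ∧
      ∀ σ, ∀ v ∈ σ, ∀ ω, f σ (ω * g v) = -f σ ω := by
  constructor
  · rintro ⟨h1, h2⟩
    refine ⟨h1, fun σ v hv ω => ?_⟩
    have h := h2 σ v hv ω
    rwa [Matrix.one_mulVec] at h
  · rintro ⟨h1, h2⟩
    refine ⟨h1, fun σ v hv ω => ?_⟩
    rw [Matrix.one_mulVec]
    exact h2 σ v hv ω

private theorem tdl_eq (ν : V → ℕ) (f : Finset V → P → Unit → ℝ) : tdl ℝ ν f = bd ν f := by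
  funext τ ω
  show ∑ v ∈ τᶜ, (sg ν v τ : ℝ) • f (insert v τ) ω = (∑ v ∈ τᶜ, sgn ν v τ • f (insert v τ)) ω
  rw [Finset.sum_apply]
  refine Finset.sum_congr rfl fun v _ => ?_
  have : (sg ν v τ : ℝ) = sgn ν v τ := by
    unfold sg sgn
    push_cast
    rfl
  rw [this]
  rfl

private theorem mem_Zc {ν : V → ℕ} {G : SimpleGraph V} {Y : Finset V} {g : V → P} {i : ℕ}
    {f : Finset V → P → Unit → ℝ} : f ∈ Zc ν G Y g i ↔ f ∈ Ch G Y g i ∧ bd ν f = 0 := by
  show f ∈ Ch G Y g i ∧ tdl ℝ ν f = 0 ↔ _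
  rw [tdl_eq]

private theorem mem_Bc {ν : V → ℕ} {G : SimpleGraph V} {Y : Finset V} {g : V → P} {i : ℕ}
    {f : Finset V → P → Unit → ℝ} : f ∈ Bc ν G Y g i ↔ ∃ h ∈ Ch G Y g (i + 1), bd ν h = f := by
  constructor
  · rintro ⟨h, hh, rfl⟩
    exact ⟨h, hh, (tdl_eq ν h).symm⟩
  · rintro ⟨h, hh, rfl⟩
    exact ⟨h, hh, tdl_eq ν h⟩

private theorem bd_apply' (ν : V → ℕ) (f : Finset V → P → Unit → ℝ) (τ : Finset V) (ω : P) :
    bd ν f τ ω = ∑ v ∈ τᶜ, sgn ν v τ • f (insert v τ) ω := by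
  show (∑ v ∈ τᶜ, sgn ν v τ • f (insert v τ)) ω = _
  rw [Finset.sum_apply]
  rfl

private theorem bd_mem {ν : V → ℕ} {G : SimpleGraph V} {Y : Finset V} {g : V → P} {i : ℕ}
    {f : Finset V → P → Unit → ℝ} (hf : f ∈ Ch G Y g (i + 1)) : bd ν f ∈ Ch G Y g i := by
  rw [mem_Ch] at hf ⊢
  obtain ⟨h1, h2⟩ := hf
  constructor
  · intro τ ω hne
    rw [bd_apply'] at hne
    obtain ⟨v, hv, hne⟩ := Finset.exists_ne_zero_of_sum_ne_zero hne
    rw [Finset.mem_compl] at hv
    have hne' : f (insert v τ) ω ≠ 0 := fun h => hne (by rw [h, smul_zero])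
    obtain ⟨a1, a2, a3⟩ := h1 _ _ hne'
    refine ⟨fun u hu => a1 (Finset.mem_insert_of_mem hu), fun u hu w hw huw =>
      a2 u (Finset.mem_insert_of_mem hu) w (Finset.mem_insert_of_mem hw) huw, ?_⟩
    rw [Finset.card_insert_of_notMem hv] at a3
    omega
  · intro τ u hu ω
    rw [bd_apply', bd_apply', ← Finset.sum_neg_distrib]
    refine Finset.sum_congr rfl fun v _ => ?_
    rw [h2 (insert v τ) u (Finset.mem_insert_of_mem hu) ω, smul_neg]

private theorem Bc_le_Zc {ν : V → ℕ} (hν : Function.Injective ν) (G : SimpleGraph V)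
    (Y : Finset V) (g : V → P) (i : ℕ) : Bc ν G Y g i ≤ Zc ν G Y g i := by
  intro f hf
  obtain ⟨h, hh, rfl⟩ := mem_Bc.1 hf
  exact mem_Zc.2 ⟨bd_mem hh, bd_bd ν hν h⟩

private theorem Ch_mono {G : SimpleGraph V} {Y Y' : Finset V} (h : Y ⊆ Y') (g : V → P) (i : ℕ) :
    Ch G Y g i ≤ Ch G Y' g i := by
  intro f hf
  rw [mem_Ch] at hf ⊢
  exact ⟨fun σ ω hne => ⟨(hf.1 σ ω hne).1.trans h, (hf.1 σ ω hne).2⟩, hf.2⟩

private theorem Bc_mono {ν : V → ℕ} {G : SimpleGraph V} {Y Y' : Finset V} (h : Y ⊆ Y')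
    (g : V → P) (i : ℕ) : Bc ν G Y g i ≤ Bc ν G Y' g i := by
  intro f hf
  obtain ⟨k, hk, rfl⟩ := mem_Bc.1 hf
  exact mem_Bc.2 ⟨k, Ch_mono h g _ hk, rfl⟩

/-- right translation -/
private def rt (a : P) (f : Finset V → P → Unit → ℝ) : Finset V → P → Unit → ℝ :=
  fun σ x => f σ (x * a)

private theorem bd_rt (ν : V → ℕ) (a : P) (f : Finset V → P → Unit → ℝ) :
    bd ν (rt a f) = rt a (bd ν f) := by
  funext τ ω
  show bd ν (rt a f) τ ω = bd ν f τ (ω * a)
  rw [bd_apply', bd_apply']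
  rfl

/-- antisymmetrization -/
private noncomputable def anti (a : P) (f : Finset V → P → Unit → ℝ) :
    Finset V → P → Unit → ℝ := (1 / 2 : ℝ) • (f - rt a f)

private theorem anti_apply (a : P) (f : Finset V → P → Unit → ℝ) (σ : Finset V) (x : P) :
    anti a f σ x = (1 / 2 : ℝ) • (f σ x - f σ (x * a)) := rfl

private theorem anti_anti (a : P) (ha : a * a = 1) (f : Finset V → P → Unit → ℝ)
    (σ : Finset V) (x : P) : anti a f σ (x * a) = -anti a f σ x := by
  rw [anti_apply, anti_apply, mul_assoc, ha, mul_one, ← smul_neg, neg_sub]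

private theorem bd_anti (ν : V → ℕ) (a : P) (f : Finset V → P → Unit → ℝ) :
    bd ν (anti a f) = anti a (bd ν f) := by
  unfold anti
  rw [map_smul, map_sub, bd_rt]

private theorem anti_mem {G : SimpleGraph V} {Y : Finset V} {g : V → P} {i : ℕ} {v : V}
    (hc : ∀ u ∈ Y, g u * g v = g v * g u) {f : Finset V → P → Unit → ℝ}
    (hf : f ∈ Ch G Y g i) : anti (g v) f ∈ Ch G Y g i := by
  rw [mem_Ch] at hf ⊢
  obtain ⟨h1, h2⟩ := hf
  constructor
  · intro σ ω hne
    by_cases hz : f σ ω = 0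
    · by_cases hz' : f σ (ω * g v) = 0
      · exact absurd (by rw [anti_apply, hz, hz', sub_zero, smul_zero]) hne
      · exact h1 _ _ hz'
    · exact h1 _ _ hz
  · intro σ u hu ω
    rw [anti_apply, anti_apply, h2 σ u hu ω]
    by_cases huY : u ∈ Y
    · rw [mul_assoc, hc u huY, ← mul_assoc, h2 σ u hu (ω * g v), ← smul_neg]
      congr 1
      abel
    · have hz : ∀ x, f σ x = 0 := by
        intro x
        by_contra hne
        exact huY ((h1 σ x hne).1 hu)
      simp only [hz]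
      simp

private theorem wedge_mem {ν : V → ℕ} {G : SimpleGraph V} {Y : Finset V} {g : V → P} {i : ℕ}
    {v : V} (hv : v ∈ Y) {h : Finset V → P → Unit → ℝ} (hh : h ∈ Ch G (nbr G v Y) g i)
    (ha : ∀ σ x, h σ (x * g v) = -h σ x) : wedge ν v h ∈ Ch G Y g (i + 1) := by
  rw [mem_Ch] at hh ⊢
  obtain ⟨h1, h2⟩ := hh
  constructor
  · intro σ ω hne
    by_cases hvσ : v ∈ σ
    · have e : wedge ν v h σ ω = sgn ν v σ • h (σ.erase v) ω := by
        show (if v ∈ σ then sgn ν v σ • h (σ.erase v) else 0) ω = _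
        rw [if_pos hvσ]
        rfl
      rw [e] at hne
      have hne' : h (σ.erase v) ω ≠ 0 := fun h0 => hne (by rw [h0, smul_zero])
      obtain ⟨a1, a2, a3⟩ := h1 _ _ hne'
      have h5 := (cl_insert_iff (σ := σ.erase v) hv).2 ⟨a1, a2⟩
      rw [Finset.insert_erase hvσ] at h5
      refine ⟨h5.2.1, h5.2.2, ?_⟩
      rw [Finset.card_erase_of_mem hvσ] at a3
      have := Finset.card_pos.2 ⟨v, hvσ⟩
      omega
    · exfalso
      apply hne
      show (if v ∈ σ then sgn ν v σ • h (σ.erase v) else 0) ω = 0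
      rw [if_neg hvσ]
      rfl
  · intro σ u hu ω
    show (if v ∈ σ then sgn ν v σ • h (σ.erase v) else 0) (ω * g u) =
      -(if v ∈ σ then sgn ν v σ • h (σ.erase v) else 0) ω
    by_cases hvσ : v ∈ σ
    · rw [if_pos hvσ]
      show sgn ν v σ • h (σ.erase v) (ω * g u) = -(sgn ν v σ • h (σ.erase v) ω)
      rw [← smul_neg]
      congr 1
      by_cases huv : u = v
      · subst huv
        exact ha _ _
      · exact h2 _ u (Finset.mem_erase.2 ⟨huv, hu⟩) ω
    · rw [if_neg hvσ]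
      show (0 : Unit → ℝ) = -0
      rw [neg_zero]

private theorem comp_mem {ν : V → ℕ} {G : SimpleGraph V} {Y : Finset V} {g : V → P} {i : ℕ}
    {v : V} (hv : v ∈ Y) {f : Finset V → P → Unit → ℝ} (hf : f ∈ Ch G Y g (i + 1)) :
    comp ν v f ∈ Ch G (nbr G v Y) g i := by
  rw [mem_Ch] at hf ⊢
  obtain ⟨h1, h2⟩ := hf
  constructor
  · intro σ ω hne
    by_cases hvσ : v ∈ σ
    · exfalso
      apply hne
      show (if v ∈ σ then 0 else sgn ν v σ • f (insert v σ)) ω = 0
      rw [if_pos hvσ]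
      rfl
    · have e : comp ν v f σ ω = sgn ν v σ • f (insert v σ) ω := by
        show (if v ∈ σ then 0 else sgn ν v σ • f (insert v σ)) ω = _
        rw [if_neg hvσ]
        rfl
      rw [e] at hne
      have hne' : f (insert v σ) ω ≠ 0 := fun h0 => hne (by rw [h0, smul_zero])
      obtain ⟨a1, a2, a3⟩ := h1 _ _ hne'
      have h5 := (cl_insert_iff (σ := σ) hv).1 ⟨hvσ, a1, a2⟩
      refine ⟨h5.1, h5.2, ?_⟩
      rw [Finset.card_insert_of_notMem hvσ] at a3
      omega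
  · intro σ u hu ω
    show (if v ∈ σ then 0 else sgn ν v σ • f (insert v σ)) (ω * g u) =
      -(if v ∈ σ then 0 else sgn ν v σ • f (insert v σ)) ω
    by_cases hvσ : v ∈ σ
    · rw [if_pos hvσ]
      show (0 : Unit → ℝ) = -0
      rw [neg_zero]
    · rw [if_neg hvσ]
      show sgn ν v σ • f (insert v σ) (ω * g u) = -(sgn ν v σ • f (insert v σ) ω)
      rw [h2 _ u (Finset.mem_insert_of_mem hu) ω, smul_neg]

private theorem comp_anti {ν : V → ℕ} {G : SimpleGraph V} {Y : Finset V} {g : V → P} {i : ℕ}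
    {v : V} {f : Finset V → P → Unit → ℝ} (hf : f ∈ Ch G Y g i) :
    anti (g v) (comp ν v f) = comp ν v f := by
  rw [mem_Ch] at hf
  funext σ x
  rw [anti_apply]
  have e : comp ν v f σ (x * g v) = -comp ν v f σ x := by
    show (if v ∈ σ then 0 else sgn ν v σ • f (insert v σ)) (x * g v) =
      -(if v ∈ σ then 0 else sgn ν v σ • f (insert v σ)) x
    by_cases hvσ : v ∈ σ
    · rw [if_pos hvσ]
      show (0 : Unit → ℝ) = -0
      rw [neg_zero]
    · rw [if_neg hvσ]
      show sgn ν v σ • f (insert v σ) (x * g v) = -(sgn ν v σ • f (insert v σ) x)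
      rw [hf.2 _ v (Finset.mem_insert_self v σ) x, smul_neg]
  rw [e, sub_neg_eq_add, ← two_smul ℝ, smul_smul]
  norm_num

/-- chains without component in the link of `v` -/
private theorem mem_of_comp_eq_zero {ν : V → ℕ} {G : SimpleGraph V} {Y Y' : Finset V} {g : V → P}
    {i : ℕ} {v : V} (hY : ∀ u ∈ Y, u ≠ v → u ∈ Y') {f : Finset V → P → Unit → ℝ}
    (hf : f ∈ Ch G Y g i) (h0 : comp ν v f = 0) : f ∈ Ch G Y' g i := by
  rw [mem_Ch] at hf ⊢
  refine ⟨fun σ ω hne => ⟨fun u hu => hY u ((hf.1 σ ω hne).1 hu) ?_, (hf.1 σ ω hne).2⟩, hf.2⟩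
  rintro rfl
  apply hne
  have h := congrFun (congrFun h0 (σ.erase u)) ω
  have e : comp ν u f (σ.erase u) ω = sgn ν u (σ.erase u) • f σ ω := by
    show (if u ∈ σ.erase u then 0 else sgn ν u (σ.erase u) • f (insert u (σ.erase u))) ω = _
    rw [if_neg (Finset.notMem_erase u σ), Finset.insert_erase hu]
    rfl
  rw [e] at h
  have h1 : sgn ν u (σ.erase u) * sgn ν u (σ.erase u) = 1 := sgn_sq _ _ _
  calc f σ ω = (sgn ν u (σ.erase u) * sgn ν u (σ.erase u)) • f σ ω := by rw [h1, one_smul]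
    _ = sgn ν u (σ.erase u) • (sgn ν u (σ.erase u) • f σ ω) := by rw [smul_smul]
    _ = 0 := by
        rw [h]
        exact smul_zero _

private theorem nbr_zero {G : SimpleGraph V} {Y : Finset V} {g : V → P} {i : ℕ} {v : V}
    {h : Finset V → P → Unit → ℝ} (hh : h ∈ Ch G (nbr G v Y) g i) (σ : Finset V) (hσ : v ∈ σ) :
    h σ = 0 := by
  funext x
  by_contra hne
  have h1 := ((mem_Ch.1 hh).1 σ x hne).1 hσ
  exact G.loopless.irrefl v (mem_nbr.1 h1).2

/-- removing the component in the link of `v` by a boundary -/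
private theorem kill {ν : V → ℕ} (hν : Function.Injective ν) {G : SimpleGraph V}
    {Y Y' : Finset V} {g : V → P} {i : ℕ} {v : V} (hv : v ∈ Y)
    (hY : ∀ u ∈ Y, u ≠ v → u ∈ Y') {f h : Finset V → P → Unit → ℝ} (hf : f ∈ Zc ν G Y g i)
    (hh : h ∈ Ch G (nbr G v Y) g i) (ha : ∀ σ x, h σ (x * g v) = -h σ x)
    (hbd : bd ν h = comp ν v f) : f ∈ Zc ν G Y' g i ⊔ Bc ν G Y g i := by
  rw [mem_Zc] at hf
  have hw : wedge ν v h ∈ Ch G Y g (i + 1) := wedge_mem hv hh ha
  have h0 : ∀ σ, v ∈ σ → h σ = 0 := nbr_zero hh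
  have hF : comp ν v (f + bd ν (wedge ν v h)) = 0 := by
    rw [map_add, comp_bd ν hν, comp_wedge_self ν v h h0, hbd, add_neg_cancel]
  have hF1 : f + bd ν (wedge ν v h) ∈ Ch G Y' g i :=
    mem_of_comp_eq_zero hY (Submodule.add_mem _ hf.1 (bd_mem hw)) hF
  have hF2 : f + bd ν (wedge ν v h) ∈ Zc ν G Y' g i := by
    refine mem_Zc.2 ⟨hF1, ?_⟩
    rw [map_add, hf.2, bd_bd ν hν, zero_add]
  have hB : -bd ν (wedge ν v h) ∈ Bc ν G Y g i :=
    Submodule.neg_mem _ (mem_Bc.2 ⟨_, hw, rfl⟩)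
  have e : f = (f + bd ν (wedge ν v h)) + -bd ν (wedge ν v h) := by abel
  rw [e]
  exact Submodule.add_mem_sup hF2 hB

end Ineq

open Ineq

variable {V : Type} [DecidableEq V] [Fintype V] {P : Type} [Group P] [Fintype P]

/-- removing a vertex -/
theorem bP_vertex (ν : V → ℕ) (hν : Function.Injective ν) (G : SimpleGraph V) (Y : Finset V)
    (g : V → P) (hg : ∀ v, g v * g v = 1) (hgc : ∀ u v, G.Adj u v → g u * g v = g v * g u)
    (v : V) (hv : v ∈ Y) (i : ℕ) :
    bP ℝ G Y g ν (i + 1) ≤ bP ℝ G (Y.erase v) g ν (i + 1) + bP ℝ G (nbr G v Y) g ν i := by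
  have h1 := dim_map (Zc ν G Y g (i + 1)) (Zc ν G (nbr G v Y) g i) (Bc ν G (nbr G v Y) g i)
    (Zc ν G (Y.erase v) g (i + 1) ⊔ Bc ν G Y g (i + 1)) (comp ν v) (fun f hf => ?_)
    (fun f hf hb => ?_) (Bc_le_Zc hν G _ g i)
  · have h2 := dim_sup (Zc ν G (Y.erase v) g (i + 1)) (Bc ν G (Y.erase v) g (i + 1))
      (Bc ν G Y g (i + 1)) (Bc_le_Zc hν G _ g _) (Bc_mono (Finset.erase_subset v Y) g _)
    have h3 : Module.finrank ℝ (Bc ν G (nbr G v Y) g i) ≤
      Module.finrank ℝ (Zc ν G (nbr G v Y) g i) := Submodule.finrank_mono (Bc_le_Zc hν G _ g _)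
    have h4 : Module.finrank ℝ (Bc ν G (Y.erase v) g (i + 1)) ≤
      Module.finrank ℝ (Zc ν G (Y.erase v) g (i + 1)) :=
      Submodule.finrank_mono (Bc_le_Zc hν G _ g _)
    show Module.finrank ℝ (Zc ν G Y g (i + 1)) - Module.finrank ℝ (Bc ν G Y g (i + 1)) ≤
      (Module.finrank ℝ (Zc ν G (Y.erase v) g (i + 1)) -
        Module.finrank ℝ (Bc ν G (Y.erase v) g (i + 1))) +
      (Module.finrank ℝ (Zc ν G (nbr G v Y) g i) - Module.finrank ℝ (Bc ν G (nbr G v Y) g i))
    omega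
  · rw [mem_Zc] at hf ⊢
    refine ⟨comp_mem hv hf.1, ?_⟩
    have h := comp_bd ν hν v f
    rw [hf.2, map_zero] at h
    exact neg_eq_zero.1 h.symm
  · obtain ⟨h, hh, hbd⟩ := mem_Bc.1 hb
    have hc : ∀ u ∈ nbr G v Y, g u * g v = g v * g u := fun u hu =>
      (hgc v u (mem_nbr.1 hu).2).symm
    refine kill hν hv (fun u hu huv => Finset.mem_erase.2 ⟨huv, hu⟩) hf (anti_mem hc hh)
      (anti_anti (g v) (hg v) h) ?_
    rw [bd_anti, hbd, comp_anti (mem_Zc.1 hf).1]

/-- cones -/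
theorem bP_cone (ν : V → ℕ) (hν : Function.Injective ν) (G : SimpleGraph V) (Y : Finset V)
    (g : V → P) (hg : ∀ v, g v * g v = 1) (hgc : ∀ u v, G.Adj u v → g u * g v = g v * g u)
    (v : V) (hv : ∀ u ∈ Y, G.Adj v u) (i : ℕ) :
    bP ℝ G (insert v Y) g ν i ≤ bP ℝ G Y g ν i := by
  have hnb : nbr G v (insert v Y) = Y := by
    ext u
    rw [mem_nbr, Finset.mem_insert]
    constructor
    · rintro ⟨h1 | h1, h2⟩
      · subst h1
        exact absurd h2 (G.loopless.irrefl u)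
      · exact h1
    · intro hu
      exact ⟨Or.inr hu, hv u hu⟩
  have key : Zc ν G (insert v Y) g i ≤ Zc ν G Y g i ⊔ Bc ν G (insert v Y) g i := by
    intro f hf
    have hf' := mem_Zc.1 hf
    have hfC := mem_Ch.1 hf'.1
    set f0 : Finset V → P → Unit → ℝ := fun σ => if v ∈ σ then 0 else f σ with hf0
    have hf0C : f0 ∈ Ch G Y g i := by
      rw [mem_Ch]
      constructor
      · intro σ ω hne
        by_cases hvσ : v ∈ σ
        · exfalso
          apply hne
          show (if v ∈ σ then 0 else f σ) ω = 0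
          rw [if_pos hvσ]
          rfl
        · have e : f0 σ ω = f σ ω := by
            show (if v ∈ σ then 0 else f σ) ω = _
            rw [if_neg hvσ]
          rw [e] at hne
          obtain ⟨a1, a2, a3⟩ := hfC.1 σ ω hne
          refine ⟨fun u hu => ?_, a2, a3⟩
          rcases Finset.mem_insert.1 (a1 hu) with h | h
          · exact absurd (h ▸ hu) hvσ
          · exact h
      · intro σ u hu ω
        show (if v ∈ σ then 0 else f σ) (ω * g u) = -(if v ∈ σ then 0 else f σ) ω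
        by_cases hvσ : v ∈ σ
        · rw [if_pos hvσ]
          show (0 : Unit → ℝ) = -0
          rw [neg_zero]
        · rw [if_neg hvσ]
          exact hfC.2 σ u hu ω
    have hcomp : comp ν v f = -bd ν f0 := by
      funext τ ω
      show (if v ∈ τ then 0 else sgn ν v τ • f (insert v τ)) ω = -(bd ν f0 τ ω)
      rw [bd_apply']
      by_cases hvτ : v ∈ τ
      · rw [if_pos hvτ, Finset.sum_eq_zero, neg_zero]
        · rfl
        · intro u _
          show sgn ν u τ • (if v ∈ insert u τ then (0 : P → Unit → ℝ) else f (insert u τ)) ω = 0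
          rw [if_pos (Finset.mem_insert_of_mem hvτ)]
          exact smul_zero _
      · rw [if_neg hvτ]
        have hz := congrFun (congrFun hf'.2 τ) ω
        rw [bd_apply', ← Finset.add_sum_erase _ _ (Finset.mem_compl.2 hvτ)] at hz
        have e : ∑ u ∈ τᶜ, sgn ν u τ • f0 (insert u τ) ω =
            ∑ u ∈ τᶜ.erase v, sgn ν u τ • f (insert u τ) ω := by
          rw [← Finset.add_sum_erase _ _ (Finset.mem_compl.2 hvτ)]
          have e0 : sgn ν v τ • f0 (insert v τ) ω = 0 := by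
            show sgn ν v τ • (if v ∈ insert v τ then (0 : P → Unit → ℝ) else f (insert v τ)) ω = 0
            rw [if_pos (Finset.mem_insert_self v τ)]
            exact smul_zero _
          rw [e0, zero_add]
          refine Finset.sum_congr rfl fun u hu => ?_
          rw [Finset.mem_erase] at hu
          show sgn ν u τ • (if v ∈ insert u τ then (0 : P → Unit → ℝ) else f (insert u τ)) ω = _
          rw [if_neg]
          intro h
          rcases Finset.mem_insert.1 h with h | h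
          · exact hu.1 h.symm
          · exact hvτ h
        rw [e]
        exact eq_neg_of_add_eq_zero_left hz
    have hc : ∀ u ∈ Y, g u * g v = g v * g u := fun u hu => (hgc v u (hv u hu)).symm
    refine kill hν (Finset.mem_insert_self v Y) (fun u hu huv =>
      (Finset.mem_insert.1 hu).resolve_left huv) (h := anti (g v) (-f0)) hf ?_
      (anti_anti (g v) (hg v) _) ?_
    · rw [hnb]
      exact anti_mem hc (Submodule.neg_mem _ hf0C)
    · rw [bd_anti, map_neg, ← hcomp, comp_anti hf'.1]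
  have h1 := Submodule.finrank_mono key
  have h2 := dim_sup (Zc ν G Y g i) (Bc ν G Y g i) (Bc ν G (insert v Y) g i)
    (Bc_le_Zc hν G _ g _) (Bc_mono (Finset.subset_insert v Y) g _)
  show Module.finrank ℝ (Zc ν G (insert v Y) g i) - Module.finrank ℝ (Bc ν G (insert v Y) g i) ≤
    Module.finrank ℝ (Zc ν G Y g i) - Module.finrank ℝ (Bc ν G Y g i)
  omega

/-- unions -/
theorem bP_glue (ν : V → ℕ) (hν : Function.Injective ν) (G : SimpleGraph V) (Y Y' : Finset V)
    (hYY : ∀ u ∈ Y \ Y', ∀ v ∈ Y' \ Y, ¬ G.Adj u v) (g : V → P)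
    (hg : ∀ v, g v * g v = 1) (hgc : ∀ u v, G.Adj u v → g u * g v = g v * g u) (i : ℕ) :
    bP ℝ G (Y ∪ Y') g ν (i + 1) ≤
      bP ℝ G Y g ν (i + 1) + bP ℝ G Y' g ν (i + 1) + bP ℝ G (Y ∩ Y') g ν i := by
  -- the restriction to the cliques in `Y`
  set res : (Finset V → P → Unit → ℝ) →ₗ[ℝ] (Finset V → P → Unit → ℝ) :=
    { toFun := fun f σ => if σ ⊆ Y then f σ else 0
      map_add' := by
        intro f f'
        funext σ
        by_cases h : σ ⊆ Y <;> simp [h]
      map_smul' := by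
        intro c f
        funext σ
        by_cases h : σ ⊆ Y <;> simp [h] } with hres
  have res_apply : ∀ f σ, res f σ = if σ ⊆ Y then f σ else 0 := fun f σ => rfl
  have hres1 : ∀ f ∈ Ch G (Y ∪ Y') g (i + 1), res f ∈ Ch G Y g (i + 1) := by
    intro f hf
    rw [mem_Ch] at hf ⊢
    constructor
    · intro σ ω hne
      rw [res_apply] at hne
      by_cases h : σ ⊆ Y
      · rw [if_pos h] at hne
        exact ⟨h, (hf.1 σ ω hne).2⟩
      · rw [if_neg h] at hne
        exact absurd rfl hne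
    · intro σ u hu ω
      rw [res_apply]
      by_cases h : σ ⊆ Y
      · rw [if_pos h]
        exact hf.2 σ u hu ω
      · rw [if_neg h]
        show (0 : Unit → ℝ) = -0
        rw [neg_zero]
  have hres2 : ∀ f ∈ Ch G (Y ∪ Y') g (i + 1), f - res f ∈ Ch G Y' g (i + 1) := by
    intro f hf
    rw [mem_Ch] at hf ⊢
    have e : ∀ σ ω, (f - res f) σ ω = if σ ⊆ Y then 0 else f σ ω := by
      intro σ ω
      show f σ ω - res f σ ω = _
      rw [res_apply]
      by_cases h : σ ⊆ Y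
      · rw [if_pos h, if_pos h, sub_self]
      · rw [if_neg h, if_neg h]
        exact sub_zero _
    constructor
    · intro σ ω hne
      rw [e] at hne
      by_cases h : σ ⊆ Y
      · rw [if_pos h] at hne
        exact absurd rfl hne
      · rw [if_neg h] at hne
        obtain ⟨a1, a2, a3⟩ := hf.1 σ ω hne
        refine ⟨fun w hw => ?_, a2, a3⟩
        by_contra hwY'
        obtain ⟨u, hu, huY⟩ := Finset.not_subset.1 h
        have hwY : w ∈ Y := (Finset.mem_union.1 (a1 hw)).resolve_right hwY'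
        have huY' : u ∈ Y' := (Finset.mem_union.1 (a1 hu)).resolve_left huY
        refine hYY w (Finset.mem_sdiff.2 ⟨hwY, hwY'⟩) u (Finset.mem_sdiff.2 ⟨huY', huY⟩)
          (a2 w hw u hu ?_)
        rintro rfl
        exact huY hwY
    · intro σ u hu ω
      rw [e, e]
      by_cases h : σ ⊆ Y
      · rw [if_pos h, if_pos h, neg_zero]
      · rw [if_neg h, if_neg h]
        exact hf.2 σ u hu ω
  have hW := dim_map (Zc ν G (Y ∪ Y') g (i + 1)) (Zc ν G (Y ∩ Y') g i) (Bc ν G (Y ∩ Y') g i)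
    (Zc ν G Y g (i + 1) ⊔ (Zc ν G Y' g (i + 1) ⊔ Bc ν G (Y ∪ Y') g (i + 1)))
    ((bd ν).comp res) (fun f hf => ?_) (fun f hf hb => ?_) (Bc_le_Zc hν G _ g i)
  · have h2 := dim_sup (Zc ν G Y g (i + 1)) (Bc ν G Y g (i + 1))
      (Zc ν G Y' g (i + 1) ⊔ Bc ν G (Y ∪ Y') g (i + 1)) (Bc_le_Zc hν G _ g _)
      ((Bc_mono Finset.subset_union_left g _).trans le_sup_right)
    have h3 := dim_sup (Zc ν G Y' g (i + 1)) (Bc ν G Y' g (i + 1))
      (Bc ν G (Y ∪ Y') g (i + 1)) (Bc_le_Zc hν G _ g _)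
      (Bc_mono Finset.subset_union_right g _)
    have h4 : Module.finrank ℝ (Bc ν G (Y ∩ Y') g i) ≤
      Module.finrank ℝ (Zc ν G (Y ∩ Y') g i) := Submodule.finrank_mono (Bc_le_Zc hν G _ g _)
    have h5 : Module.finrank ℝ (Bc ν G Y g (i + 1)) ≤
      Module.finrank ℝ (Zc ν G Y g (i + 1)) := Submodule.finrank_mono (Bc_le_Zc hν G _ g _)
    have h6 : Module.finrank ℝ (Bc ν G Y' g (i + 1)) ≤
      Module.finrank ℝ (Zc ν G Y' g (i + 1)) := Submodule.finrank_mono (Bc_le_Zc hν G _ g _)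
    show Module.finrank ℝ (Zc ν G (Y ∪ Y') g (i + 1)) -
        Module.finrank ℝ (Bc ν G (Y ∪ Y') g (i + 1)) ≤
      (Module.finrank ℝ (Zc ν G Y g (i + 1)) - Module.finrank ℝ (Bc ν G Y g (i + 1))) +
      (Module.finrank ℝ (Zc ν G Y' g (i + 1)) - Module.finrank ℝ (Bc ν G Y' g (i + 1))) +
      (Module.finrank ℝ (Zc ν G (Y ∩ Y') g i) - Module.finrank ℝ (Bc ν G (Y ∩ Y') g i))
    omega
  · have hf' := mem_Zc.1 hf
    show bd ν (res f) ∈ Zc ν G (Y ∩ Y') g i
    refine mem_Zc.2 ⟨?_, bd_bd ν hν _⟩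
    have a1 := mem_Ch.1 (bd_mem (ν := ν) (hres1 f hf'.1))
    have a2 := mem_Ch.1 (bd_mem (ν := ν) (hres2 f hf'.1))
    rw [map_sub, hf'.2, zero_sub] at a2
    rw [mem_Ch]
    refine ⟨fun σ ω hne => ?_, a1.2⟩
    have hne' : (-bd ν (res f)) σ ω ≠ 0 := by
      show -(bd ν (res f) σ ω) ≠ 0
      exact neg_ne_zero.2 hne
    exact ⟨Finset.subset_inter (a1.1 σ ω hne).1 (a2.1 σ ω hne').1, (a1.1 σ ω hne).2⟩
  · have hf' := mem_Zc.1 hf
    obtain ⟨h, hh, hbd⟩ := mem_Bc.1 hb
    have hbd' : bd ν h = bd ν (res f) := hbd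
    have m1 : res f - h ∈ Zc ν G Y g (i + 1) := by
      refine mem_Zc.2 ⟨Submodule.sub_mem _ (hres1 f hf'.1)
        (Ch_mono Finset.inter_subset_left g _ hh), ?_⟩
      rw [map_sub, hbd', sub_self]
    have m2 : (f - res f) + h ∈ Zc ν G Y' g (i + 1) := by
      refine mem_Zc.2 ⟨Submodule.add_mem _ (hres2 f hf'.1)
        (Ch_mono Finset.inter_subset_right g _ hh), ?_⟩
      rw [map_add, map_sub, hbd', hf'.2, zero_sub, neg_add_cancel]
    have e : f = (res f - h) + ((f - res f) + h) := by abel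
    rw [e]
    exact Submodule.add_mem_sup m1 (Submodule.mem_sup_left m2)

/-- chains of degree above the number of vertices -/
theorem bP_empty (ν : V → ℕ) (G : SimpleGraph V) (g : V → P) (i : ℕ) :
    bP ℝ G ∅ g ν (i + 1) = 0 := by
  have h : Zc ν G ∅ g (i + 1) = ⊥ := by
    rw [eq_bot_iff]
    intro f hf
    rw [Submodule.mem_bot]
    have hf' := (mem_Ch.1 (mem_Zc.1 hf).1).1
    funext σ ω
    by_contra hne
    obtain ⟨a1, _, a3⟩ := hf' σ ω hne
    rw [Finset.subset_empty.1 a1, Finset.card_empty] at a3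
    omega
  show Module.finrank ℝ (Zc ν G ∅ g (i + 1)) - Module.finrank ℝ (Bc ν G ∅ g (i + 1)) = 0
  rw [h, finrank_bot]
  simp

end Pool.Agent.H85.Fold2
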