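import Pool.Agent.H85.Fold2.GFold
import Pool.Agent.H85.Fold2.Ineq

/-!
# Project FOLD, second stage: zero growth for the class of graphs
-/

set_option autoImplicit false

open Finset

namespace Pool.Agent.H85.Fold2

open Pool.Agent.H85.Fold

variable {V : Type} [DecidableEq V] [Fintype V] {ν : V → ℕ} {G : SimpleGraph V}

/-- zero growth from an inequality -/
theorem GVan.of_le {Y Y₁ Y₂ Y₃ : Finset V} {i i₁ i₂ i₃ : ℕ} (h1 : GVan ν G Y₁ i₁)
    (h2 : GVan ν G Y₂ i₂) (h3 : GVan ν G Y₃ i₃)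
    (h : ∀ (P : Type) [Group P] [Fintype P] (g : V → P), (∀ v, g v * g v = 1) →
      (∀ u v, G.Adj u v → g u * g v = g v * g u) →
      bP ℝ G Y g ν i ≤ bP ℝ G Y₁ g ν i₁ + bP ℝ G Y₂ g ν i₂ + bP ℝ G Y₃ g ν i₃) :
    GVan ν G Y i := by
  obtain ⟨m₁, ρ₁, H1⟩ := h1
  obtain ⟨m₂, ρ₂, H2⟩ := h2
  obtain ⟨m₃, ρ₃, H3⟩ := h3
  refine ⟨m₁ + m₂ + m₃, Fin.append (Fin.append ρ₁ ρ₂) ρ₃, fun η hη => ?_⟩
  obtain ⟨p₁, K1⟩ := H1 (η / 3) (by positivity)
  obtain ⟨p₂, K2⟩ := H2 (η / 3) (by positivity)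
  obtain ⟨p₃, K3⟩ := H3 (η / 3) (by positivity)
  refine ⟨max p₁ (max p₂ p₃), ?_⟩
  intro p hp hpp P _ _ g hg hgc hr
  have Q1 : ∀ k, ∃ r : P →* Matrix (ρ₁ k).D (ρ₁ k).D (ZMod p),
      ∀ v, r (g v) = ((ρ₁ k).A v).map (Int.cast : ℤ → ZMod p) := by
    intro k
    have := hr (Fin.castAdd m₃ (Fin.castAdd m₂ k))
    have e1 : Fin.append (Fin.append ρ₁ ρ₂) ρ₃ (Fin.castAdd m₃ (Fin.castAdd m₂ k)) = ρ₁ k := by
      rw [Fin.append_left, Fin.append_left]
    rw [e1] at this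
    exact this
  have Q2 : ∀ k, ∃ r : P →* Matrix (ρ₂ k).D (ρ₂ k).D (ZMod p),
      ∀ v, r (g v) = ((ρ₂ k).A v).map (Int.cast : ℤ → ZMod p) := by
    intro k
    have := hr (Fin.castAdd m₃ (Fin.natAdd m₁ k))
    have e1 : Fin.append (Fin.append ρ₁ ρ₂) ρ₃ (Fin.castAdd m₃ (Fin.natAdd m₁ k)) = ρ₂ k := by
      rw [Fin.append_left, Fin.append_right]
    rw [e1] at this
    exact this
  have Q3 : ∀ k, ∃ r : P →* Matrix (ρ₃ k).D (ρ₃ k).D (ZMod p),
      ∀ v, r (g v) = ((ρ₃ k).A v).map (Int.cast : ℤ → ZMod p) := by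
    intro k
    have := hr (Fin.natAdd (m₁ + m₂) k)
    have e1 : Fin.append (Fin.append ρ₁ ρ₂) ρ₃ (Fin.natAdd (m₁ + m₂) k) = ρ₃ k := by
      rw [Fin.append_right]
    rw [e1] at this
    exact this
  have R1 := K1 p ((le_max_left _ _).trans hpp) P g hg hgc Q1
  have R2 := K2 p (((le_max_left _ _).trans (le_max_right _ _)).trans hpp) P g hg hgc Q2
  have R3 := K3 p (((le_max_right _ _).trans (le_max_right _ _)).trans hpp) P g hg hgc Q3
  have R : (bP ℝ G Y g ν i : ℝ) ≤ bP ℝ G Y₁ g ν i₁ + bP ℝ G Y₂ g ν i₂ + bP ℝ G Y₃ g ν i₃ := by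
    exact_mod_cast h P g hg hgc
  have e3 : η * (Fintype.card P : ℝ) = η / 3 * (Fintype.card P : ℝ) +
      η / 3 * (Fintype.card P : ℝ) + η / 3 * (Fintype.card P : ℝ) := by ring
  rw [e3]
  exact R.trans (add_le_add (add_le_add R1 R2) R3)

theorem gvan_empty (i : ℕ) : GVan ν G ∅ (i + 1) := by
  refine ⟨0, Fin.elim0, fun η hη => ⟨0, ?_⟩⟩
  intro p hp _ P _ _ g hg hgc _
  rw [bP_empty ν G g i, Nat.cast_zero]
  positivity

/-- **Zero growth for the class.** -/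
theorem FV.gvan (hν : Function.Injective ν) {n : ℕ} {Y : Finset V} (h : FV G n Y) :
    ∀ Z ⊆ Y, ∀ i, n < 2 * i → GVan ν G Z i := by
  induction h with
  | fold n Y W decW finW H hH φ hφ hadj =>
    intro Z hZ i hi
    exact gvan_fold ν hν G n Z H hH φ (fun u hu v hv => hφ u (hZ hu) v (hZ hv))
      (fun u hu v hv => hadj u (hZ hu) v (hZ hv)) i hi
  | up n Y _ ih =>
    intro Z hZ i hi
    exact ih Z hZ i (by omega)
  | cone n Y v hv _ ih =>
    intro Z hZ i hi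
    by_cases hvZ : v ∈ Z
    · have hZ' : Z.erase v ⊆ Y := by
        intro u hu
        rw [Finset.mem_erase] at hu
        exact (Finset.mem_insert.1 (hZ hu.2)).resolve_left hu.1
      have h1 := ih (Z.erase v) hZ' i hi
      have h2 : Z = insert v (Z.erase v) := (Finset.insert_erase hvZ).symm
      rw [h2]
      refine GVan.of_le h1 h1 h1 ?_
      intro P _ _ g hg hgc
      have h3 := bP_cone ν hν G (Z.erase v) g hg hgc v (fun u hu => hv u (hZ' hu)) i
      omega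
    · refine ih Z ?_ i hi
      intro u hu
      exact (Finset.mem_insert.1 (hZ hu)).resolve_left (fun h => hvZ (h ▸ hu))
  | glue n Y Y' hYY _ _ _ ih1 ih2 ih3 =>
    intro Z hZ i hi
    obtain ⟨j, rfl⟩ : ∃ j, i = j + 1 := ⟨i - 1, by omega⟩
    have h1 := ih1 (Z ∩ Y) Finset.inter_subset_right (j + 1) hi
    have h2 := ih2 (Z ∩ Y') Finset.inter_subset_right (j + 1) hi
    have h3 := ih3 ((Z ∩ Y) ∩ (Z ∩ Y')) (Finset.inter_subset_inter Finset.inter_subset_right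
      Finset.inter_subset_right) j (by omega)
    have hZe : Z = (Z ∩ Y) ∪ (Z ∩ Y') := by
      rw [← Finset.inter_union_distrib_left, Finset.inter_eq_left.2 hZ]
    rw [hZe]
    refine GVan.of_le h1 h2 h3 ?_
    intro P _ _ g hg hgc
    refine bP_glue ν hν G (Z ∩ Y) (Z ∩ Y') ?_ g hg hgc j
    intro u hu v hv
    rw [Finset.mem_sdiff, Finset.mem_inter, Finset.mem_inter] at hu hv
    exact hYY u (Finset.mem_sdiff.2 ⟨hu.1.2, fun h => hu.2 ⟨hu.1.1, h⟩⟩) v
      (Finset.mem_sdiff.2 ⟨hv.1.2, fun h => hv.2 ⟨hv.1.1, h⟩⟩)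
  | even n hn Y _ ih =>
    intro Z hZ i hi
    obtain ⟨j, rfl⟩ : ∃ j, i = j + 1 := ⟨i - 1, by omega⟩
    have hj : n + 1 < 2 * j := by
      obtain ⟨k, rfl⟩ := hn
      omega
    induction Z using Finset.induction_on with
    | empty => exact gvan_empty j
    | insert v Z' hv ihZ =>
      have hvY : v ∈ Y := hZ (Finset.mem_insert_self _ _)
      have h1 := ihZ (fun u hu => hZ (Finset.mem_insert_of_mem hu))
      have hsub : nbr G v (insert v Z') ⊆ nbr G v Y := by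
        classical
        intro u hu
        simp only [nbr, Finset.mem_filter] at hu ⊢
        exact ⟨hZ hu.1, hu.2⟩
      have h2 := ih v hvY (nbr G v (insert v Z')) hsub j hj
      refine GVan.of_le h1 h2 h2 ?_
      intro P _ _ g hg hgc
      have h3 := bP_vertex ν hν G (insert v Z') g hg hgc v (Finset.mem_insert_self _ _) j
      rw [Finset.erase_insert hv] at h3
      omega

end Pool.Agent.H85.Fold2
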