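import Pool.Agent.H85.Fold2.IntMod
import Pool.Agent.H85.Fold2.DropY
import Pool.Agent.H85.Fold2.TrivY
import Pool.Agent.H85.Fold2.Embed

/-!
# Project FOLD, second stage: zero growth for induced subgraphs of folded spheres
-/

set_option autoImplicit false

open Finset

namespace Pool.Agent.H85.Fold2

open Pool.Agent.H85.Fold

variable {V : Type} [DecidableEq V] [Fintype V]

/-- the trivial one-dimensional representation -/
private def trivIMod (G : SimpleGraph V) : IMod G where
  D := Unit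
  fin := inferInstance
  dec := inferInstance
  A := fun _ => 1
  sq := fun _ => one_mul 1
  comm := fun _ _ _ => rfl

omit [DecidableEq V] [Fintype V] in
private theorem mc_triv (G : SimpleGraph V) (K : Type) [Field K] :
    mc K (trivIMod G).A = fun _ => (1 : Matrix Unit Unit K) := by
  funext v
  unfold mc
  change (1 : Matrix Unit Unit ℤ).map (Int.cast : ℤ → K) = 1
  exact Matrix.map_one _ Int.cast_zero Int.cast_one

omit [DecidableEq V] [Fintype V] in
/-- right multiplication by commuting involutions is an action -/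
private theorem isActOn_mul (G : SimpleGraph V) (Y : Finset V) {P : Type} [Group P] (g : V → P)
    (hg : ∀ v, g v * g v = 1) (hgc : ∀ u v, G.Adj u v → g u * g v = g v * g u) :
    IsActOn G Y (fun v x => x * g v) := by
  refine ⟨fun v _ x => ?_, fun u _ v _ h x => ?_⟩
  · rw [mul_assoc, hg, mul_one]
  · rw [mul_assoc, mul_assoc, hgc u v h]

/-- the real Betti numbers of a group are at most those over another field -/
private theorem bP_real_le (ν : V → ℕ) (hν : Function.Injective ν) (G : SimpleGraph V)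
    (Y : Finset V) (i : ℕ) {P : Type} [Group P] [Fintype P] (g : V → P)
    (hg : ∀ v, g v * g v = 1) (hgc : ∀ u v, G.Adj u v → g u * g v = g v * g u)
    (K : Type) [Field K] (hK : (2 : K) ≠ 0) : bP ℝ G Y g ν i ≤ bP K G Y g ν i := by
  have h := bY_real_le G (trivIMod G) ν hν Y i (fun v (x : P) => x * g v)
    (isActOn_mul G Y g hg hgc) K hK
  rw [mc_triv, mc_triv] at h
  exact h

/-- zero growth from an exact integer representation -/
theorem gvan_of_exact (ν : V → ℕ) (hν : Function.Injective ν) (G : SimpleGraph V)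
    (Y : Finset V) (i : ℕ) (ρ : IMod G) [Nonempty ρ.D]
    (h : ∀ (Ω : Type) [Fintype Ω] (s : V → Ω → Ω), IsActOn G Y s →
      YZ ℝ G Y (mc ℝ ρ.A) s ν i ≤ YB ℝ G Y (mc ℝ ρ.A) s ν i) : GVan ν G Y i := by
  obtain ⟨C, hC1, hC⟩ := bY_drop G ρ ν hν Y i
  refine ⟨1, fun _ => ρ, fun η hη => ?_⟩
  refine ⟨max 3 ⌈Real.exp (Real.log C / η)⌉₊, ?_⟩
  intro p hp hpp P _ _ g hg hgc hr
  have hp3 : 3 ≤ p := le_trans (le_max_left _ _) hpp
  have hpexp : Real.exp (Real.log C / η) ≤ (p : ℝ) :=
    le_trans (Nat.le_ceil _) (by exact_mod_cast le_trans (le_max_right _ _) hpp)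
  have hp0 : (0 : ℝ) < p := lt_of_lt_of_le (Real.exp_pos _) hpexp
  have hp2 : p ≠ 2 := by omega
  have hlogp : 0 < Real.log p := Real.log_pos (by exact_mod_cast (by omega : 1 < p))
  have hlog : Real.log C ≤ η * Real.log p := by
    have h1 : Real.log C / η ≤ Real.log p := by
      have h2 := Real.log_le_log (Real.exp_pos _) hpexp
      rwa [Real.log_exp] at h2
    rw [div_le_iff₀ hη] at h1
    linarith
  have hact : IsActOn G Y (fun v (x : P) => x * g v) := isActOn_mul G Y g hg hgc
  have hK : (2 : ZMod p) ≠ 0 := by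
    intro h0
    have h1 : ((2 : ℕ) : ZMod p) = 0 := by exact_mod_cast h0
    rw [ZMod.natCast_eq_zero_iff] at h1
    have := Nat.le_of_dvd (by norm_num) h1
    omega
  have hle := bP_real_le ν hν G Y i g hg hgc (ZMod p) hK
  have hzero : bY ℝ G Y (mc ℝ ρ.A) (fun v (x : P) => x * g v) ν i = 0 := by
    unfold bY
    exact Nat.sub_eq_zero_of_le (Submodule.finrank_mono (h P _ hact))
  have hdrop := hC P (fun v (x : P) => x * g v) hact p hp2
  rw [hzero, Nat.sub_zero] at hdrop
  obtain ⟨r, hr⟩ := hr 0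
  rw [tw_trivY G ρ g (ZMod p) r hr ν Y i] at hdrop
  have hd : 1 ≤ Fintype.card ρ.D := Fintype.card_pos
  have hlogC0 : 0 ≤ Real.log C := Real.log_nonneg (by exact_mod_cast hC1)
  have hdrop' : ((p : ℝ) ^ (Fintype.card ρ.D * bP (ZMod p) G Y g ν i)) ≤
      (C : ℝ) ^ Fintype.card P := by exact_mod_cast hdrop
  have hl := Real.log_le_log (pow_pos hp0 _) hdrop'
  rw [Real.log_pow, Real.log_pow] at hl
  have hmul : (bP (ZMod p) G Y g ν i : ℝ) * Real.log p ≤ Fintype.card P * Real.log C := by
    refine le_trans ?_ hl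
    refine mul_le_mul_of_nonneg_right ?_ hlogp.le
    have : bP (ZMod p) G Y g ν i ≤ Fintype.card ρ.D * bP (ZMod p) G Y g ν i :=
      Nat.le_mul_of_pos_left _ hd
    exact_mod_cast this
  have hfin : (bP (ZMod p) G Y g ν i : ℝ) * Real.log p ≤ (η * Fintype.card P) * Real.log p := by
    calc (bP (ZMod p) G Y g ν i : ℝ) * Real.log p ≤ Fintype.card P * Real.log C := hmul
      _ ≤ Fintype.card P * (η * Real.log p) :=
        mul_le_mul_of_nonneg_left hlog (Nat.cast_nonneg _)
      _ = (η * Fintype.card P) * Real.log p := by ring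
  have hfin' : (bP (ZMod p) G Y g ν i : ℝ) ≤ η * Fintype.card P :=
    le_of_mul_le_mul_right hfin hlogp
  exact le_trans (by exact_mod_cast hle) hfin'

/-- the pullback of an integer representation -/
private noncomputable def pullIMod {W : Type} [DecidableEq W] [Fintype W] (G : SimpleGraph V)
    (H : SimpleGraph W) (Y : Finset V) (φ : V → W)
    (hadj : ∀ u ∈ Y, ∀ v ∈ Y, G.Adj u v ↔ H.Adj (φ u) (φ v)) (ρ : IMod H) : IMod G where
  D := ρ.D
  fin := ρ.fin
  dec := ρ.dec
  A := fun v => if v ∈ Y then ρ.A (φ v) else 1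
  sq := fun v => by
    by_cases hv : v ∈ Y
    · simp only [hv, if_true]
      exact ρ.sq _
    · simp only [hv, if_false, mul_one]
  comm := fun u v huv => by
    by_cases hu : u ∈ Y
    · by_cases hv : v ∈ Y
      · simp only [hu, hv, if_true]
        exact ρ.comm _ _ ((hadj u hu v hv).1 huv)
      · simp only [hv, if_false, mul_one, one_mul]
    · simp only [hu, if_false, mul_one, one_mul]

/-- **Zero growth for induced subgraphs of folded spheres.** -/
theorem gvan_fold (ν : V → ℕ) (hν : Function.Injective ν) (G : SimpleGraph V) (n : ℕ)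
    (Y : Finset V) {W : Type} [DecidableEq W] [Fintype W] (H : SimpleGraph W)
    (hH : IsFoldSphere H n) (φ : V → W) (hφ : ∀ u ∈ Y, ∀ v ∈ Y, φ u = φ v → u = v)
    (hadj : ∀ u ∈ Y, ∀ v ∈ Y, G.Adj u v ↔ H.Adj (φ u) (φ v)) (i : ℕ) (hi : n < 2 * i) :
    GVan ν G Y i := by
  obtain ⟨ν', hν', hνc⟩ := exists_nu Y φ hφ ν hν
  obtain ⟨ρ, hne, hex⟩ := exists_imod H n hH ν' hν' (Y.image φ) i hi
  have hne' : Nonempty (pullIMod G H Y φ hadj ρ).D := hne
  refine gvan_of_exact ν hν G Y i (pullIMod G H Y φ hadj ρ) ?_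
  intro Ω _ s hs
  refine exact_embed G H Y φ hφ hadj ν ν' hνc ℝ (mc ℝ (pullIMod G H Y φ hadj ρ).A) (mc ℝ ρ.A)
    ?_ i hex Ω s hs
  intro v hv
  unfold mc pullIMod
  simp only [hv, if_true]

end Pool.Agent.H85.Fold2
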