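import Pool.Agent.H85.Fold2.Defs
import Pool.Agent.H85.Fold.ModM

/-!
# Project FOLD, second stage: integer matrices for the twisted homology of induced subgraphs
-/

set_option autoImplicit false
set_option linter.unusedSectionVars false

open Finset

namespace Pool.Agent.H85.Fold2

open Pool.Agent.H85.Fold
open Pool.Agent.H4.Singer (sg)

namespace MatsY

open Pool.Agent.H85.Fold.ModM

section Ops

variable {V D Ω : Type} [DecidableEq V] [Fintype V] [Fintype D] [DecidableEq D]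

/-- chains over fields in which two is invertible are in the image -/
theorem Bl_surjK {K : Type} [Field K] (h2 : (2 : K) ≠ 0) {G : SimpleGraph V}
    {A : V → Matrix D D ℤ}
    (hA : IsInvol G A) {s : V → Ω → Ω} (l : List V) (hnd : l.Nodup)
    (hl : ∀ u ∈ l, ∀ v ∈ l, u ≠ v → G.Adj u v) (f : Ω → D → K)
    (hf : ∀ v ∈ l, Lop K (A v) (s v) 1 f = 0) : ∃ g : Ω → D → K, Bl K A s l g = f := by
  induction l generalizing f with
  | nil => exact ⟨f, rfl⟩
  | cons u l ih =>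
    rw [List.nodup_cons] at hnd
    have hu := hf u (List.mem_cons_self ..)
    have hu' : ∀ ω, f (s u ω) = -mac K (A u) (f ω) := by
      intro ω
      have h1 := congrFun hu ω
      rw [Lop_apply, Int.cast_one, one_smul, Pi.zero_apply] at h1
      exact eq_neg_of_add_eq_zero_left h1
    obtain ⟨g, hg⟩ := ih hnd.2
      (fun a ha b hb => hl a (List.mem_cons_of_mem _ ha) b (List.mem_cons_of_mem _ hb))
      (fun ω => (-(2 : K)⁻¹) • mac K (A u) (f ω)) (by
        intro v hv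
        have huv : v ≠ u := fun h => hnd.1 (h ▸ hv)
        have hadj : G.Adj v u := hl v (List.mem_cons_of_mem _ hv) u (List.mem_cons_self ..) huv
        funext ω
        have h1 := congrFun (hf v (List.mem_cons_of_mem _ hv)) ω
        rw [Lop_apply, Int.cast_one, one_smul, Pi.zero_apply] at h1
        rw [Lop_apply, Int.cast_one, one_smul, Pi.zero_apply, map_smul, mac_mul,
          hA.comm v u hadj, ← mac_mul, ← smul_add, ← map_add, h1, map_zero, smul_zero])
    refine ⟨g, ?_⟩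
    simp only [Bl, LinearMap.comp_apply]
    rw [hg]
    funext ω
    rw [Lop_apply, hu' ω]
    simp only [map_smul, map_neg, mac_mul, hA.sq, mac_one, Int.cast_neg, Int.cast_one]
    rw [smul_neg, neg_smul, neg_neg, neg_smul, one_smul, neg_neg, ← add_smul, ← two_mul,
      mul_inv_cancel₀ h2, one_smul]

open Classical in
/-- the equations of the cycles -/
noncomputable def Op1Y (G : SimpleGraph V) (Y : Finset V) (A : V → Matrix D D ℤ)
    (s : V → Ω → Ω) (ν : V → ℕ)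
    (i : ℕ) (R : Type) [CommRing R] : ((Finset V × Ω × D) → R) →ₗ[R]
      (((Finset V × Ω × D) ⊕ (V × Finset V × Ω × D)) ⊕ (Finset V × Ω × D) → R) where
  toFun x := Sum.elim (Sum.elim (fun p => if p.1 ⊆ Y ∧ Cl G p.1 ∧ p.1.card = i then 0 else x p)
    (fun q => if q.1 ∈ q.2.1 then
      Lop R (A q.1) (s q.1) 1 (cur R x q.2.1) q.2.2.1 q.2.2.2 else 0))
    (fun p => tdR R ν (cur R x) p.1 p.2.1 p.2.2)
  map_add' x y := by
    funext j
    rcases j with (p | q) | p
    · by_cases h : p.1 ⊆ Y ∧ Cl G p.1 ∧ p.1.card = i <;> simp [h]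
    · by_cases h : q.1 ∈ q.2.1 <;> simp [h]
    · simp
  map_smul' r x := by
    funext j
    rcases j with (p | q) | p
    · by_cases h : p.1 ⊆ Y ∧ Cl G p.1 ∧ p.1.card = i <;> simp [h]
    · by_cases h : q.1 ∈ q.2.1 <;> simp [h]
    · simp

open Classical in
/-- products of the operators, chain by chain -/
noncomputable def BopY (G : SimpleGraph V) (Y : Finset V) (A : V → Matrix D D ℤ)
    (s : V → Ω → Ω) (i : ℕ) (R : Type) [CommRing R] :
    (Finset V → Ω → D → R) →ₗ[R] (Finset V → Ω → D → R) :=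
  LinearMap.pi fun σ => if σ ⊆ Y ∧ Cl G σ ∧ σ.card = i + 1 then
    (Bl R A s σ.toList).comp (LinearMap.proj σ) else 0

theorem BopY_apply (G : SimpleGraph V) (Y : Finset V) (A : V → Matrix D D ℤ) (s : V → Ω → Ω)
    (i : ℕ) (R : Type) [CommRing R] (f : Finset V → Ω → D → R) (σ : Finset V)
    (h : σ ⊆ Y ∧ Cl G σ ∧ σ.card = i + 1) : BopY G Y A s i R f σ = Bl R A s σ.toList (f σ) := by
  simp [BopY, h]

theorem BopY_apply' (G : SimpleGraph V) (Y : Finset V) (A : V → Matrix D D ℤ) (s : V → Ω → Ω)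
    (i : ℕ) (R : Type) [CommRing R] (f : Finset V → Ω → D → R) (σ : Finset V)
    (h : ¬ (σ ⊆ Y ∧ Cl G σ ∧ σ.card = i + 1)) : BopY G Y A s i R f σ = 0 := by
  simp only [BopY, LinearMap.pi_apply]
  rw [if_neg h, LinearMap.zero_apply]

theorem BopY_cast (G : SimpleGraph V) (Y : Finset V) (A : V → Matrix D D ℤ) (s : V → Ω → Ω)
    (i : ℕ) (R : Type) [CommRing R] (f : Finset V → Ω → D → ℤ) :
    BopY G Y A s i R (fun σ ω d => (f σ ω d : R)) =
      fun σ ω d => ((BopY G Y A s i ℤ f σ ω d : ℤ) : R) := by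
  funext σ
  by_cases h : σ ⊆ Y ∧ Cl G σ ∧ σ.card = i + 1
  · rw [BopY_apply _ _ _ _ _ _ _ _ h, BopY_apply _ _ _ _ _ _ _ _ h, Bl_cast]
  · rw [BopY_apply' _ _ _ _ _ _ _ _ h, BopY_apply' _ _ _ _ _ _ _ _ h]
    funext ω d
    simp

/-- the boundaries -/
noncomputable def Op2Y (G : SimpleGraph V) (Y : Finset V) (A : V → Matrix D D ℤ)
    (s : V → Ω → Ω) (ν : V → ℕ)
    (i : ℕ) (R : Type) [CommRing R] : ((Finset V × Ω × D) → R) →ₗ[R]
      ((Finset V × Ω × D) → R) :=
  (cur R).symm.toLinearMap.comp ((tdR R ν).comp ((BopY G Y A s i R).comp (cur R).toLinearMap))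

theorem Op2Y_apply (G : SimpleGraph V) (Y : Finset V) (A : V → Matrix D D ℤ) (s : V → Ω → Ω)
    (ν : V → ℕ) (i : ℕ) (R : Type) [CommRing R] (x : (Finset V × Ω × D) → R)
    (p : Finset V × Ω × D) :
    Op2Y G Y A s ν i R x p = tdR R ν (BopY G Y A s i R (cur R x)) p.1 p.2.1 p.2.2 := rfl

theorem Op1Y_cast (G : SimpleGraph V) (Y : Finset V) (A : V → Matrix D D ℤ) (s : V → Ω → Ω)
    (ν : V → ℕ) (i : ℕ) (R : Type) [CommRing R] (x : (Finset V × Ω × D) → ℤ)
    (j : ((Finset V × Ω × D) ⊕ (V × Finset V × Ω × D)) ⊕ (Finset V × Ω × D)) :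
    Op1Y G Y A s ν i R (fun k => (x k : R)) j = ((Op1Y G Y A s ν i ℤ x j : ℤ) : R) := by
  rcases j with (p | q) | p
  · by_cases h : p.1 ⊆ Y ∧ Cl G p.1 ∧ p.1.card = i <;> simp [Op1Y, h]
  · by_cases h : q.1 ∈ q.2.1
    · simp only [Op1Y, LinearMap.coe_mk, AddHom.coe_mk, Sum.elim_inl, Sum.elim_inr, h, if_true]
      have := congrFun (congrFun (Lop_cast R (A q.1) (s q.1) 1 (cur ℤ x q.2.1)) q.2.2.1) q.2.2.2
      exact this
    · simp [Op1Y, h]
  · exact tdR_cast R ν (cur ℤ x) p.1 p.2.1 p.2.2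

theorem Op2Y_cast (G : SimpleGraph V) (Y : Finset V) (A : V → Matrix D D ℤ) (s : V → Ω → Ω)
    (ν : V → ℕ) (i : ℕ) (R : Type) [CommRing R] (x : (Finset V × Ω × D) → ℤ)
    (p : Finset V × Ω × D) :
    Op2Y G Y A s ν i R (fun k => (x k : R)) p = ((Op2Y G Y A s ν i ℤ x p : ℤ) : R) := by
  rw [Op2Y_apply, Op2Y_apply]
  have h : cur R (fun k => (x k : R)) = fun σ ω d => ((cur ℤ x σ ω d : ℤ) : R) := rfl
  rw [h, BopY_cast, tdR_cast]

/-! ## Cycles and boundaries -/

theorem ker_Op1Y (G : SimpleGraph V) (Y : Finset V) (A : V → Matrix D D ℤ) (s : V → Ω → Ω)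
    (ν : V → ℕ) (i : ℕ) (K : Type) [Field K] :
    (LinearMap.ker (Op1Y G Y A s ν i K)).map (cur K).toLinearMap = YZ K G Y (mc K A) s ν i := by
  ext f
  constructor
  · rintro ⟨x, hx, rfl⟩
    have hx' : Op1Y G Y A s ν i K x = 0 := hx
    refine ⟨⟨fun σ ω h => ?_, fun σ v hv ω => ?_⟩, ?_⟩
    · by_contra hc
      apply h
      funext d
      have h1 := congrFun hx' (Sum.inl (Sum.inl (σ, ω, d)))
      simp only [Op1Y, LinearMap.coe_mk, AddHom.coe_mk, Sum.elim_inl, Pi.zero_apply] at h1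
      rw [if_neg hc] at h1
      exact h1
    · funext d
      have h1 := congrFun hx' (Sum.inl (Sum.inr (v, σ, ω, d)))
      simp only [Op1Y, LinearMap.coe_mk, AddHom.coe_mk, Sum.elim_inl, Sum.elim_inr,
        Pi.zero_apply] at h1
      rw [if_pos hv, Lop_apply, Pi.add_apply, Int.cast_one, one_smul] at h1
      exact eq_neg_of_add_eq_zero_left h1
    · refine (LinearMap.mem_ker).2 ?_
      funext τ ω d
      exact congrFun hx' (Sum.inr (τ, ω, d))
  · rintro ⟨⟨h1, h2⟩, h3⟩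
    refine ⟨(cur K).symm f, ?_, (cur K).apply_symm_apply f⟩
    refine (LinearMap.mem_ker).2 ?_
    funext j
    rcases j with (p | q) | p
    · simp only [Op1Y, LinearMap.coe_mk, AddHom.coe_mk, Sum.elim_inl, Pi.zero_apply]
      split_ifs with h
      · rfl
      · by_contra hc
        exact h (h1 p.1 p.2.1 (fun h0 => hc (congrFun h0 p.2.2)))
    · simp only [Op1Y, LinearMap.coe_mk, AddHom.coe_mk, Sum.elim_inl, Sum.elim_inr,
        Pi.zero_apply]
      split_ifs with h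
      · rw [Lop_apply, Pi.add_apply, Int.cast_one, one_smul]
        have := h2 q.2.1 q.1 h q.2.2.1
        have h4 := congrFun this q.2.2.2
        rw [Pi.neg_apply] at h4
        exact add_eq_zero_iff_eq_neg.2 h4
      · rfl
    · have h4 : tdl K ν f = 0 := h3
      exact congrFun (congrFun (congrFun h4 p.1) p.2.1) p.2.2

theorem BopY_mem {G : SimpleGraph V} {Y : Finset V} {A : V → Matrix D D ℤ} (hA : IsInvol G A)
    {s : V → Ω → Ω} (hs : IsAct G s) (i : ℕ) (K : Type) [Field K]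
    (f : Finset V → Ω → D → K) : BopY G Y A s i K f ∈ YCh K G Y (mc K A) s (i + 1) := by
  refine ⟨fun σ ω h => ?_, fun σ v hv ω => ?_⟩
  · by_contra hc
    apply h
    rw [BopY_apply' _ _ _ _ _ _ _ _ hc]
    rfl
  · by_cases hc : σ ⊆ Y ∧ Cl G σ ∧ σ.card = i + 1
    · rw [BopY_apply _ _ _ _ _ _ _ _ hc]
      have h1 := Bl_mem K hA hs σ.toList (fun a ha b hb hab =>
        hc.2.1 a (Finset.mem_toList.1 ha) b (Finset.mem_toList.1 hb) hab) (f σ) v
        (Finset.mem_toList.2 hv)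
      have h2 := congrFun h1 ω
      rw [Lop_apply, Int.cast_one, one_smul, Pi.zero_apply] at h2
      exact eq_neg_of_add_eq_zero_left h2
    · rw [BopY_apply' _ _ _ _ _ _ _ _ hc]
      simp

theorem BopY_surj {K : Type} [Field K] (h2 : (2 : K) ≠ 0) {G : SimpleGraph V} {Y : Finset V}
    {A : V → Matrix D D ℤ} (hA : IsInvol G A) {s : V → Ω → Ω} (i : ℕ)
    (f : Finset V → Ω → D → K) (hf : f ∈ YCh K G Y (mc K A) s (i + 1)) :
    ∃ g, BopY G Y A s i K g = f := by
  obtain ⟨h1, h2'⟩ := hf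
  have key : ∀ σ : Finset V, ∃ g : Ω → D → K, (σ ⊆ Y ∧ Cl G σ ∧ σ.card = i + 1) →
      Bl K A s σ.toList g = f σ := by
    intro σ
    by_cases hc : σ ⊆ Y ∧ Cl G σ ∧ σ.card = i + 1
    · obtain ⟨g, hg⟩ := Bl_surjK h2 hA σ.toList (Finset.nodup_toList σ) (fun a ha b hb hab =>
        hc.2.1 a (Finset.mem_toList.1 ha) b (Finset.mem_toList.1 hb) hab) (f σ) (by
          intro v hv
          funext ω
          rw [Lop_apply, Int.cast_one, one_smul, Pi.zero_apply,
            h2' σ v (Finset.mem_toList.1 hv) ω]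
          exact neg_add_cancel _)
      exact ⟨g, fun _ => hg⟩
    · exact ⟨0, fun h => absurd h hc⟩
  choose g hg using key
  refine ⟨g, ?_⟩
  funext σ
  by_cases hc : σ ⊆ Y ∧ Cl G σ ∧ σ.card = i + 1
  · rw [BopY_apply _ _ _ _ _ _ _ _ hc, hg σ hc]
  · rw [BopY_apply' _ _ _ _ _ _ _ _ hc]
    funext ω
    by_contra h0
    exact hc (h1 σ ω (fun h => h0 h.symm))

theorem range_Op2Y_eq {K : Type} [Field K] (h2 : (2 : K) ≠ 0) {G : SimpleGraph V}
    {Y : Finset V} {A : V → Matrix D D ℤ} (hA : IsInvol G A)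
    {s : V → Ω → Ω} (hs : IsAct G s) (ν : V → ℕ) (i : ℕ) :
    (LinearMap.range (Op2Y G Y A s ν i K)).map (cur K).toLinearMap =
      YB K G Y (mc K A) s ν i := by
  refine le_antisymm ?_ ?_
  · rintro _ ⟨_, ⟨x, rfl⟩, rfl⟩
    exact ⟨BopY G Y A s i K (cur K x), BopY_mem hA hs i K _, rfl⟩
  · rintro _ ⟨f, hf, rfl⟩
    obtain ⟨g, hg⟩ := BopY_surj h2 hA i f hf
    refine ⟨Op2Y G Y A s ν i K ((cur K).symm g), ⟨_, rfl⟩, ?_⟩
    rw [← hg]
    rfl

/-! ## Bounds -/

theorem BopY_bound (G : SimpleGraph V) (Y : Finset V) (A : V → Matrix D D ℤ) (s : V → Ω → Ω)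
    (i : ℕ) (f : Finset V → Ω → D → ℤ) (B : ℤ) (hB : ∀ σ ω d, |f σ ω d| ≤ B) (σ : Finset V)
    (ω : Ω) (d : D) : |BopY G Y A s i ℤ f σ ω d| ≤ (1 + bdA A) ^ (Fintype.card V) * B := by
  have hB0 : 0 ≤ B := (abs_nonneg _).trans (hB σ ω d)
  have h1 : 1 ≤ 1 + bdA A := by linarith [bdA_nonneg A]
  by_cases h : σ ⊆ Y ∧ Cl G σ ∧ σ.card = i + 1
  · rw [BopY_apply _ _ _ _ _ _ _ _ h]
    refine (Bl_bound A s σ.toList (f σ) B (hB σ) ω d).trans ?_
    refine mul_le_mul_of_nonneg_right ?_ hB0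
    refine pow_le_pow_right₀ h1 ?_
    rw [Finset.length_toList]
    exact Finset.card_le_univ _
  · rw [BopY_apply' _ _ _ _ _ _ _ _ h]
    simp only [Pi.zero_apply, abs_zero]
    positivity

theorem Op2Y_bound (G : SimpleGraph V) (Y : Finset V) (A : V → Matrix D D ℤ) (s : V → Ω → Ω)
    (ν : V → ℕ) (i : ℕ) (x : (Finset V × Ω × D) → ℤ) (hx : ∀ k, |x k| ≤ 1)
    (p : Finset V × Ω × D) :
    |Op2Y G Y A s ν i ℤ x p| ≤ (Fintype.card V : ℤ) * (1 + bdA A) ^ (Fintype.card V) := by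
  rw [Op2Y_apply]
  refine tdR_bound ν _ _ (fun σ ω d => ?_) _ _ _
  refine (BopY_bound G Y A s i _ 1 (fun σ ω d => hx (σ, ω, d)) σ ω d).trans ?_
  rw [mul_one]

theorem Op1Y_bound (G : SimpleGraph V) (Y : Finset V) (A : V → Matrix D D ℤ) (s : V → Ω → Ω)
    (ν : V → ℕ) (i : ℕ) (x : (Finset V × Ω × D) → ℤ) (hx : ∀ k, |x k| ≤ 1)
    (j : ((Finset V × Ω × D) ⊕ (V × Finset V × Ω × D)) ⊕ (Finset V × Ω × D)) :
    |Op1Y G Y A s ν i ℤ x j| ≤ 1 + bdA A + (Fintype.card V : ℤ) := by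
  have h0 := bdA_nonneg A
  have h1 : (0 : ℤ) ≤ (Fintype.card V : ℤ) := by positivity
  rcases j with (p | q) | p
  · simp only [Op1Y, LinearMap.coe_mk, AddHom.coe_mk, Sum.elim_inl]
    split_ifs
    · simp only [abs_zero]
      linarith
    · linarith [hx p]
  · simp only [Op1Y, LinearMap.coe_mk, AddHom.coe_mk, Sum.elim_inl, Sum.elim_inr]
    split_ifs
    · have := Lop_bound A q.1 (s q.1) 1 (by simp) (cur ℤ x q.2.1) 1
        (fun ω d => hx (q.2.1, ω, d)) q.2.2.1 q.2.2.2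
      linarith
    · simp only [abs_zero]
      linarith
  · have : |tdR ℤ ν (cur ℤ x) p.1 p.2.1 p.2.2| ≤ (Fintype.card V : ℤ) * 1 :=
      tdR_bound ν (cur ℤ x) 1 (fun σ ω d => hx (σ, ω, d)) p.1 p.2.1 p.2.2
    have h2 : |Op1Y G Y A s ν i ℤ x (Sum.inr p)| ≤ (Fintype.card V : ℤ) * 1 := this
    linarith

/-! ## Extending a partial action -/

/-- the action extended by the identity -/
def extS (Y : Finset V) (s : V → Ω → Ω) (v : V) : Ω → Ω := if v ∈ Y then s v else id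

omit [Fintype V] in
theorem extS_isAct {G : SimpleGraph V} {Y : Finset V} {s : V → Ω → Ω} (hs : IsActOn G Y s) :
    IsAct G (extS Y s) := by
  refine ⟨fun v ω => ?_, fun u v huv ω => ?_⟩
  · by_cases h : v ∈ Y
    · simp only [extS, if_pos h]
      exact hs.inv v h ω
    · simp [extS, h]
  · by_cases h : u ∈ Y <;> by_cases h' : v ∈ Y
    · simp only [extS, if_pos h, if_pos h']
      exact hs.comm u h v h' huv ω
    · simp [extS, h, h']
    · simp [extS, h, h']
    · simp [extS, h, h']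

omit [Fintype V] in
theorem YCh_extS (K : Type) [Field K] (G : SimpleGraph V) (Y : Finset V)
    (B : V → Matrix D D K) (s : V → Ω → Ω) (i : ℕ) :
    YCh K G Y B (extS Y s) i = YCh K G Y B s i := by
  ext f
  constructor
  · rintro ⟨h1, h2⟩
    refine ⟨h1, fun σ v hv ω => ?_⟩
    by_cases hY : σ ⊆ Y
    · have := h2 σ v hv ω
      rwa [extS, if_pos (hY hv)] at this
    · have h0 : ∀ ω, f σ ω = 0 := fun ω => by
        by_contra hc
        exact hY (h1 σ ω hc).1
      rw [h0, h0, Matrix.mulVec_zero, neg_zero]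
  · rintro ⟨h1, h2⟩
    refine ⟨h1, fun σ v hv ω => ?_⟩
    by_cases hY : σ ⊆ Y
    · rw [extS, if_pos (hY hv)]
      exact h2 σ v hv ω
    · have h0 : ∀ ω, f σ ω = 0 := fun ω => by
        by_contra hc
        exact hY (h1 σ ω hc).1
      rw [h0, h0, Matrix.mulVec_zero, neg_zero]

end Ops

end MatsY

open Pool.Agent.H85.Fold.ModM MatsY in
/-- The dimensions of the twisted cycles and boundaries are given by integer matrices which do not
depend on the field (of characteristic different from two), with `|Ω|` times a constant rows, and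
rows of bounded `ℓ¹`-norm. -/
theorem exists_matsY {V : Type} [DecidableEq V] [Fintype V] (G : SimpleGraph V) (ρ : IMod G)
    (ν : V → ℕ) (Y : Finset V) (i : ℕ) :
    ∃ C R : ℕ, 1 ≤ C ∧ ∀ (Ω : Type) [Fintype Ω] (s : V → Ω → Ω), IsActOn G Y s →
      ∃ (m₁ n₁ m₂ n₂ : Type) (_ : Fintype m₁) (_ : Fintype n₁) (_ : Fintype m₂)
        (_ : Fintype n₂) (A₁ : Matrix m₁ n₁ ℤ) (A₂ : Matrix m₂ n₂ ℤ),
        Fintype.card m₁ ≤ R * Fintype.card Ω ∧ Fintype.card m₂ ≤ R * Fintype.card Ω ∧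
        (∀ j, ∑ k, |A₁ j k| ≤ (C : ℤ)) ∧ (∀ j, ∑ k, |A₂ j k| ≤ (C : ℤ)) ∧
        ∀ (K : Type) [Field K], (2 : K) ≠ 0 →
          Module.finrank K (YZ K G Y (mc K ρ.A) s ν i) +
            (A₁.map (Int.cast : ℤ → K)).rank = Fintype.card n₁ ∧
          Module.finrank K (YB K G Y (mc K ρ.A) s ν i) = (A₂.map (Int.cast : ℤ → K)).rank := by
  classical
  have hA : IsInvol G ρ.A := ⟨ρ.sq, ρ.comm⟩
  have hnn := bdA_nonneg ρ.A
  have hC0 : 0 ≤ (Fintype.card V : ℤ) * (1 + bdA ρ.A) ^ (Fintype.card V) := by positivity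
  have hC1 : 0 ≤ 1 + bdA ρ.A + (Fintype.card V : ℤ) := by positivity
  refine ⟨((1 + bdA ρ.A + (Fintype.card V : ℤ)) +
    (Fintype.card V : ℤ) * (1 + bdA ρ.A) ^ (Fintype.card V)).toNat + 1,
    (Fintype.card (Finset V) * Fintype.card ρ.D) * (2 + Fintype.card V), by omega, ?_⟩
  intro Ω _ s hs
  have hs' : IsAct G (extS Y s) := extS_isAct hs
  have hcast : ((((1 + bdA ρ.A + (Fintype.card V : ℤ)) +
      (Fintype.card V : ℤ) * (1 + bdA ρ.A) ^ (Fintype.card V)).toNat + 1 : ℕ) : ℤ) =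
      ((1 + bdA ρ.A + (Fintype.card V : ℤ)) +
      (Fintype.card V : ℤ) * (1 + bdA ρ.A) ^ (Fintype.card V)) + 1 := by
    rw [Nat.cast_add, Int.toNat_of_nonneg (by linarith), Nat.cast_one]
  refine ⟨((Finset V × Ω × ρ.D) ⊕ (V × Finset V × Ω × ρ.D)) ⊕ (Finset V × Ω × ρ.D),
    Finset V × Ω × ρ.D, Finset V × Ω × ρ.D, Finset V × Ω × ρ.D, inferInstance, inferInstance,
    inferInstance, inferInstance, LinearMap.toMatrix' (Op1Y G Y ρ.A (extS Y s) ν i ℤ),
    LinearMap.toMatrix' (Op2Y G Y ρ.A (extS Y s) ν i ℤ), ?_, ?_, ?_, ?_, ?_⟩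
  · simp only [Fintype.card_sum, Fintype.card_prod]
    apply le_of_eq
    ring
  · simp only [Fintype.card_prod]
    have : 1 ≤ 2 + Fintype.card V := by omega
    calc Fintype.card (Finset V) * (Fintype.card Ω * Fintype.card ρ.D)
        = (Fintype.card (Finset V) * Fintype.card ρ.D) * 1 * Fintype.card Ω := by ring
      _ ≤ _ := by gcongr
  · intro j
    rw [hcast]
    refine (row_bound _ _ (fun x hx j => Op1Y_bound G Y ρ.A (extS Y s) ν i x hx j) j).trans ?_
    linarith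
  · intro j
    rw [hcast]
    refine (row_bound _ _ (fun x hx j => Op2Y_bound G Y ρ.A (extS Y s) ν i x hx j) j).trans ?_
    linarith
  · intro K _ h2
    have hZ : YZ K G Y (mc K ρ.A) s ν i = YZ K G Y (mc K ρ.A) (extS Y s) ν i := by
      rw [YZ, YZ, YCh_extS]
    have hB : YB K G Y (mc K ρ.A) s ν i = YB K G Y (mc K ρ.A) (extS Y s) ν i := by
      rw [YB, YB, YCh_extS]
    refine ⟨?_, ?_⟩
    · rw [rank_eq (fun R _ => Op1Y G Y ρ.A (extS Y s) ν i R)
          (fun R _ x j => Op1Y_cast G Y ρ.A (extS Y s) ν i R x j) K,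
        hZ, ← ker_Op1Y G Y ρ.A (extS Y s) ν i K, LinearEquiv.finrank_map_eq, add_comm,
        LinearMap.finrank_range_add_finrank_ker, Module.finrank_fintype_fun_eq_card]
    · rw [rank_eq (fun R _ => Op2Y G Y ρ.A (extS Y s) ν i R)
          (fun R _ x j => Op2Y_cast G Y ρ.A (extS Y s) ν i R x j) K,
        hB, ← LinearEquiv.finrank_map_eq (cur K), range_Op2Y_eq h2 hA hs' ν i]

end Pool.Agent.H85.Fold2
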