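import Pool.Agent.H85.Fold2.Defs
import Pool.Agent.H85.Fold.TwC

/-!
# Project FOLD, second stage: exactness of the twisted complexes of induced subgraphs
-/

set_option autoImplicit false

open Finset

namespace Pool.Agent.H85.Fold2

open Pool.Agent.H85.Fold

variable {V : Type} [DecidableEq V] [Fintype V]

/-- twisted chains of degree `i` on `Y` with values in a real vector space -/
structure IsTwY {S : Type} [AddCommGroup S] [Module ℝ S] (G : SimpleGraph V) (Y : Finset V)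
    (A : V → S →ₗ[ℝ] S) {Ω : Type} (s : V → Ω → Ω) (i : ℕ) (f : Finset V → Ω → S) : Prop where
  supp : ∀ σ ω, f σ ω ≠ 0 → σ ⊆ Y ∧ Cl G σ ∧ σ.card = i
  tw : ∀ σ, ∀ v ∈ σ, ∀ ω, f σ (s v ω) = -A v (f σ ω)

omit [Fintype V] in
private theorem IsActOn.toAct {G : SimpleGraph V} {Y : Finset V} {Ω : Type} {s : V → Ω → Ω}
    (hs : IsActOn G Y s) : IsAct G (fun v => if v ∈ Y then s v else id) := by
  refine ⟨fun v ω => ?_, fun u v huv ω => ?_⟩
  · by_cases hv : v ∈ Y
    · simp only [if_pos hv]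
      exact hs.inv v hv ω
    · simp only [if_neg hv, id_eq]
  · by_cases hu : u ∈ Y
    · by_cases hv : v ∈ Y
      · simp only [if_pos hu, if_pos hv]
        exact hs.comm u hu v hv huv ω
      · simp only [if_pos hu, if_neg hv, id_eq]
    · simp only [if_neg hu, id_eq]

private theorem realY_factor {K X Y : Type} [AddCommGroup K] [Module ℝ K] [AddCommGroup X]
    [Module ℝ X] [AddCommGroup Y] [Module ℝ Y] (f : K →ₗ[ℝ] Y) (g : K →ₗ[ℝ] X)
    (h : ∀ x, f x = 0 → g x = 0) : ∃ Φ : Y →ₗ[ℝ] X, ∀ x, Φ (f x) = g x := by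
  obtain ⟨r, hr⟩ := f.rangeRestrict.exists_rightInverse_of_surjective
    (LinearMap.range_eq_top.2 f.surjective_rangeRestrict)
  obtain ⟨Φ, hΦ⟩ := (g.comp r).exists_extend
  refine ⟨Φ, fun x => ?_⟩
  have h1 : Φ (f x) = g (r (f.rangeRestrict x)) := by
    have := congrArg (fun k => k (f.rangeRestrict x)) hΦ
    simpa using this
  have h2 : f (r (f.rangeRestrict x)) = f x := by
    have := congrArg (fun k => k (f.rangeRestrict x)) hr
    have := congrArg Subtype.val this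
    simpa using this
  have h3 : g (r (f.rangeRestrict x) - x) = 0 := h _ (by rw [map_sub, h2, sub_self])
  rw [h1]
  rw [map_sub, sub_eq_zero] at h3
  exact h3

/-- the homotopy for the exact complex: a linear identity which controls the distance of arbitrary
chains from boundaries -/
private theorem exists_homotopyY {S : Type} [AddCommGroup S] [Module ℝ S] [FiniteDimensional ℝ S]
    (ν : V → ℕ) (G : SimpleGraph V) (e : V → S →ₗ[ℝ] S)
    (Y : Finset V) (i : ℕ) (hHV : HV ν G e ⊤ Y i) :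
    ∃ (H : (Finset V → S) →ₗ[ℝ] (Finset V → S))
      (Φ : ((Finset V → V → S) × (Finset V → S)) →ₗ[ℝ] (Finset V → S)),
      (∀ x, IsF G e ⊤ Y (i + 1) (H x)) ∧
      ∀ x : Finset V → S, (∀ σ, x σ ≠ 0 → σ ⊆ Y ∧ Cl G σ ∧ σ.card = i) →
        x = bd ν (H x) + Φ (fun σ v => if v ∈ σ then e v (x σ) else 0, bd ν x) := by
  let C : Submodule ℝ (Finset V → S) :=
    { carrier := {y | IsF G e ⊤ Y (i + 1) y}
      add_mem' := fun ha hb => IsF.add ha hb
      zero_mem' := IsF.zero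
      smul_mem' := fun r _ ha => IsF.smul ha r }
  let K : Submodule ℝ (Finset V → S) :=
    { carrier := {x | ∀ σ, x σ ≠ 0 → σ ⊆ Y ∧ Cl G σ ∧ σ.card = i}
      add_mem' := by
        intro a b ha hb σ hσ
        by_cases h : a σ = 0
        · refine hb σ fun h' => hσ ?_
          rw [Pi.add_apply, h, h', add_zero]
        · exact ha σ h
      zero_mem' := by
        intro σ hσ
        exact absurd rfl hσ
      smul_mem' := by
        intro r a ha σ hσ
        refine ha σ fun h' => hσ ?_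
        rw [Pi.smul_apply, h', smul_zero] }
  let f : C →ₗ[ℝ] (Finset V → S) := (bd ν).comp C.subtype
  obtain ⟨s, hs⟩ := f.rangeRestrict.exists_rightInverse_of_surjective
    (LinearMap.range_eq_top.2 f.surjective_rangeRestrict)
  obtain ⟨s', hs'⟩ := s.exists_extend
  let H : (Finset V → S) →ₗ[ℝ] (Finset V → S) := C.subtype.comp s'
  have hH : ∀ x, IsF G e ⊤ Y (i + 1) (H x) := fun x => (s' x).2
  have hbd : ∀ z, IsF G e ⊤ Y i z → bd ν z = 0 → bd ν (H z) = z := by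
    intro z hz hz0
    obtain ⟨y, hy, hyz⟩ := hHV z hz hz0
    have hmem : z ∈ LinearMap.range f := ⟨⟨y, hy⟩, hyz⟩
    have h1 : s' z = s ⟨z, hmem⟩ := by
      have := congrArg (fun k => k ⟨z, hmem⟩) hs'
      simpa using this
    have h2 : f (s ⟨z, hmem⟩) = z := by
      have := congrArg (fun k => k ⟨z, hmem⟩) hs
      have := congrArg Subtype.val this
      simpa using this
    show f (s' z) = z
    rw [h1, h2]
  let T : (Finset V → S) →ₗ[ℝ] ((Finset V → V → S) × (Finset V → S)) :=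
    { toFun := fun x => (fun σ v => if v ∈ σ then e v (x σ) else 0, bd ν x)
      map_add' := by
        intro x y
        refine Prod.ext ?_ ?_
        · funext σ v
          by_cases h : v ∈ σ <;> simp [h]
        · simp
      map_smul' := by
        intro r x
        refine Prod.ext ?_ ?_
        · funext σ v
          by_cases h : v ∈ σ <;> simp [h]
        · simp }
  obtain ⟨Φ, hΦ⟩ := realY_factor (T.comp K.subtype)
    ((LinearMap.id - (bd ν).comp H).comp K.subtype) (by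
      rintro ⟨x, hx⟩ h0
      have h1 : ∀ σ, ∀ v ∈ σ, e v (x σ) = 0 := by
        intro σ v hv
        have := congrFun (congrFun (congrArg Prod.fst h0) σ) v
        have h2 : (if v ∈ σ then e v (x σ) else 0) = 0 := this
        rwa [if_pos hv] at h2
      have h2 : bd ν x = 0 := congrArg Prod.snd h0
      have h3 := hbd x ⟨fun _ => Submodule.mem_top, h1, fun σ hσ => hx σ hσ⟩
        h2
      show x - bd ν (H x) = 0
      rw [h3, sub_self])
  refine ⟨H, Φ, hH, fun x hx => ?_⟩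
  have h1 : Φ (T x) = x - bd ν (H x) := hΦ ⟨x, hx⟩
  show x = bd ν (H x) + Φ (T x)
  rw [h1]
  abel

section

variable {S : Type} [NormedAddCommGroup S] [NormedSpace ℝ S] [FiniteDimensional ℝ S]
  {G : SimpleGraph V} {e g c : V → S →ₗ[ℝ] S}

/-- **Deformation.** -/
private theorem deformY (h : IsPert G e g c) (Y : Finset V) (i : ℕ) :
    ∃ C : ℝ, 0 ≤ C ∧ ∀ (Ω : Type) [Fintype Ω] (s : V → Ω → Ω), IsActOn G Y s →
      ∀ δ : ℝ, 0 < δ → δ ≤ 1 → ∀ z : Finset V → Ω → S,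
        (∀ ω, IsF G e ⊤ Y i fun σ => z σ ω) →
        ∃ z', IsTwY G Y (At e g c δ⁻¹) s i z' ∧ ‖z' - z‖ ≤ C * δ * ‖z‖ := by
  classical
  have hex : ∀ σ : Finset V, ∃ C : ℝ, 0 ≤ C ∧ (Cl G σ → ∀ (Ω : Type) [Fintype Ω]
      (s : V → Ω → Ω), IsAct G s →
      ∀ δ : ℝ, 0 < δ → δ ≤ 1 → ∀ z : Ω → S, (∀ ω, ∀ v ∈ σ, e v (z ω) = 0) →
        ∃ z' : Ω → S, (∀ v ∈ σ, ∀ ω, z' (s v ω) = -At e g c δ⁻¹ v (z' ω)) ∧
          ‖z' - z‖ ≤ C * δ * ‖z‖) := by
    intro σ
    by_cases hσ : Cl G σ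
    · obtain ⟨C, h1, h2⟩ := deform_simplex h σ hσ
      exact ⟨C, h1, fun _ => h2⟩
    · exact ⟨0, le_rfl, fun h' => absurd h' hσ⟩
  choose C hC0 hC using hex
  refine ⟨∑ σ, C σ, Finset.sum_nonneg fun σ _ => hC0 σ, ?_⟩
  intro Ω _ s hs δ hδ hδ1 z hz
  have hs' := hs.toAct
  have hex2 : ∀ σ : Finset V, ∃ z' : Ω → S,
      ((¬ (σ ⊆ Y ∧ Cl G σ ∧ σ.card = i)) → z' = 0) ∧
      (∀ v ∈ σ, ∀ ω, z' (s v ω) = -At e g c δ⁻¹ v (z' ω)) ∧
      ‖z' - z σ‖ ≤ C σ * δ * ‖z σ‖ := by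
    intro σ
    by_cases hσ : σ ⊆ Y ∧ Cl G σ ∧ σ.card = i
    · obtain ⟨z', h1, h2⟩ := hC σ hσ.2.1 Ω _ hs' δ hδ hδ1 (z σ)
        (fun ω v hv => (hz ω).ker σ v hv)
      refine ⟨z', fun h' => absurd hσ h', fun v hv ω => ?_, h2⟩
      have h3 := h1 v hv ω
      rwa [if_pos (hσ.1 hv)] at h3
    · have hz0 : z σ = 0 := by
        funext ω
        by_contra hne
        exact hσ ((hz ω).supp σ hne)
      refine ⟨0, fun _ => rfl, fun v _ ω => ?_, ?_⟩
      · show (0 : S) = -At e g c δ⁻¹ v 0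
        rw [map_zero, neg_zero]
      · rw [hz0, sub_zero, norm_zero, mul_zero]
  choose z' hz1 hz2 hz3 using hex2
  refine ⟨z', ⟨?_, hz2⟩, ?_⟩
  · intro σ ω hne
    by_contra hcon
    apply hne
    rw [hz1 σ hcon]
    rfl
  · have hsum : ∀ σ, C σ ≤ ∑ σ, C σ := fun σ =>
      Finset.single_le_sum (fun τ _ => hC0 τ) (Finset.mem_univ σ)
    have hS0 : 0 ≤ ∑ σ, C σ := Finset.sum_nonneg fun σ _ => hC0 σ
    refine (pi_norm_le_iff_of_nonneg (by positivity)).2 fun σ => ?_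
    rw [Pi.sub_apply]
    refine (hz3 σ).trans ?_
    have h1 : ‖z σ‖ ≤ ‖z‖ := norm_le_pi_norm z σ
    have h2 := hC0 σ
    have h3 := hsum σ
    gcongr

/-- the submodule of twisted chains -/
private def twSubY (G : SimpleGraph V) (Y : Finset V) (A : V → S →ₗ[ℝ] S) {Ω : Type} (s : V → Ω → Ω) (i : ℕ) :
    Submodule ℝ (Finset V → Ω → S) where
  carrier := {f | IsTwY G Y A s i f}
  zero_mem' := by
    refine ⟨fun σ ω h => absurd rfl h, fun σ v _ ω => ?_⟩
    simp
  add_mem' := by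
    intro f f' hf hf'
    refine ⟨fun σ ω h => ?_, fun σ v hv ω => ?_⟩
    · by_cases h1 : f σ ω = 0
      · apply hf'.supp σ ω
        intro h2
        apply h
        show f σ ω + f' σ ω = 0
        rw [h1, h2, add_zero]
      · exact hf.supp σ ω h1
    · show f σ (s v ω) + f' σ (s v ω) = -A v (f σ ω + f' σ ω)
      rw [hf.tw σ v hv ω, hf'.tw σ v hv ω, map_add, neg_add]
  smul_mem' := by
    intro r f hf
    refine ⟨fun σ ω h => ?_, fun σ v hv ω => ?_⟩
    · apply hf.supp σ ω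
      intro h2
      apply h
      show r • f σ ω = 0
      rw [h2, smul_zero]
    · show r • f σ (s v ω) = -A v (r • f σ ω)
      rw [hf.tw σ v hv ω, map_smul, smul_neg]

omit [FiniteDimensional ℝ S] in
private theorem bd_eval (ν : V → ℕ) {Ω : Type} (f : Finset V → Ω → S) (ρ : Finset V) (ω : Ω) :
    bd ν f ρ ω = bd ν (fun σ => f σ ω) ρ := by
  simp only [bd, LinearMap.coe_mk, AddHom.coe_mk, Finset.sum_apply, Pi.smul_apply]

omit [FiniteDimensional ℝ S] in
private theorem isTwY_bd (ν : V → ℕ) {Y : Finset V} {A : V → S →ₗ[ℝ] S} {Ω : Type} {s : V → Ω → Ω} {i : ℕ}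
    {y : Finset V → Ω → S} (hy : IsTwY G Y A s (i + 1) y) : IsTwY G Y A s i (bd ν y) := by
  refine ⟨fun ρ ω h => ?_, fun ρ v hv ω => ?_⟩
  · rw [bd_eval] at h
    simp only [bd, LinearMap.coe_mk, AddHom.coe_mk] at h
    obtain ⟨w, hw, hw'⟩ := Finset.exists_ne_zero_of_sum_ne_zero h
    have hne : y (insert w ρ) ω ≠ 0 := by
      intro h0
      exact hw' (by rw [h0, smul_zero])
    obtain ⟨h0, h1, h2⟩ := hy.supp _ _ hne
    refine ⟨(Finset.subset_insert _ _).trans h0, fun a ha b hb hab => h1 a (Finset.mem_insert_of_mem ha) b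
      (Finset.mem_insert_of_mem hb) hab, ?_⟩
    rw [Finset.card_insert_of_notMem (Finset.mem_compl.mp hw)] at h2
    omega
  · rw [bd_eval, bd_eval]
    simp only [bd, LinearMap.coe_mk, AddHom.coe_mk]
    rw [map_sum, ← Finset.sum_neg_distrib]
    apply Finset.sum_congr rfl
    intro w _
    rw [hy.tw _ v (Finset.mem_insert_of_mem hv) ω, map_smul, smul_neg]

end

/-- **Exactness of the twisted complexes** of induced subgraphs. -/
theorem tw_exactY {S : Type} [NormedAddCommGroup S] [NormedSpace ℝ S] [FiniteDimensional ℝ S]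
    (ν : V → ℕ) (hν : Function.Injective ν) {G : SimpleGraph V} {e g c : V → S →ₗ[ℝ] S}
    (h : IsPert G e g c) (Y : Finset V) (i : ℕ) (hHV : HV ν G e ⊤ Y i) :
    ∃ t₀ : ℝ, ∀ t : ℝ, t₀ ≤ t → ∀ (Ω : Type) [Fintype Ω] (s : V → Ω → Ω), IsActOn G Y s →
      ∀ f : Finset V → Ω → S, IsTwY G Y (At e g c t) s i f → bd ν f = 0 →
        ∃ y, IsTwY G Y (At e g c t) s (i + 1) y ∧ bd ν y = f := by
  obtain ⟨H, Φ, hH, hHΦ⟩ := exists_homotopyY ν G e Y i hHV
  obtain ⟨CH, hCH0, hCH⟩ := exists_bound H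
  obtain ⟨CΦ, hCΦ0, hCΦ⟩ := exists_bound Φ
  obtain ⟨Cb, hCb0, hCb⟩ := exists_bound (bd ν : (Finset V → S) →ₗ[ℝ] (Finset V → S))
  obtain ⟨Cc, hCc0, hCc⟩ := exists_bound (LinearMap.pi c : S →ₗ[ℝ] (V → S))
  obtain ⟨Cg, hCg0, hCg⟩ := exists_bound
    (LinearMap.pi (fun v => (c v).comp ((g v).comp (c v))) : S →ₗ[ℝ] (V → S))
  obtain ⟨C, hC0, hC⟩ := deformY (e := e) (g := g) (c := c) (G := G) h Y (i + 1)
  have hc : ∀ v x, ‖c v x‖ ≤ Cc * ‖x‖ := fun v x =>
    (norm_le_pi_norm (LinearMap.pi c x) v).trans (hCc x)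
  have hg : ∀ v x, ‖c v (g v (c v x))‖ ≤ Cg * ‖x‖ := fun v x =>
    (norm_le_pi_norm (LinearMap.pi (fun v => (c v).comp ((g v).comp (c v))) x) v).trans (hCg x)
  set K : ℝ := CΦ * (Cc + Cg) + Cb * (C * CH) with hK
  have hK0 : 0 ≤ K := by positivity
  refine ⟨2 * K + 1, ?_⟩
  intro t ht Ω _ s hs f hf hbd
  have ht1 : 1 ≤ t := by linarith
  have ht0 : 0 < t := by linarith
  have hδ1 : t⁻¹ ≤ 1 := inv_le_one_of_one_le₀ ht1
  have hδK : t⁻¹ * K ≤ 1 / 2 := by
    rw [inv_mul_le_iff₀ ht0]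
    linarith
  -- the estimate
  have key : ∀ f : Finset V → Ω → S, IsTwY G Y (At e g c t) s i f → bd ν f = 0 →
      ∃ z', IsTwY G Y (At e g c t) s (i + 1) z' ∧ ‖f - bd ν z'‖ ≤ ‖f‖ / 2 := by
    intro f hf hbd
    have hfn : ∀ σ ω, ‖f σ ω‖ ≤ ‖f‖ := fun σ ω =>
      (norm_le_pi_norm (f σ) ω).trans (norm_le_pi_norm f σ)
    have hev : ∀ σ ω, ∀ v ∈ σ, ‖e v (f σ ω)‖ ≤ t⁻¹ * ((Cc + Cg) * ‖f‖) := by
      intro σ ω v hv
      have h1 := hf.tw σ v hv ω
      have h2 : t • e v (f σ ω) = -(c v (f σ (s v ω)) + c v (g v (c v (f σ ω)))) := by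
        have h3 : f σ (s v ω) = -(t • e v (c v (f σ ω)) + g v (c v (f σ ω))) := by
          rw [h1]; rfl
        have h4 : c v (f σ (s v ω)) = -(t • e v (f σ ω) + c v (g v (c v (f σ ω)))) := by
          rw [h3, map_neg, map_add, map_smul, h.ec, map_neg, h.c_sq, neg_neg]
        rw [h4]
        abel
      have h5 : e v (f σ ω) = t⁻¹ • -(c v (f σ (s v ω)) + c v (g v (c v (f σ ω)))) := by
        rw [← h2, smul_smul, inv_mul_cancel₀ ht0.ne', one_smul]
      rw [h5, norm_smul, norm_neg, Real.norm_of_nonneg (inv_nonneg.mpr ht0.le)]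
      apply mul_le_mul_of_nonneg_left _ (inv_nonneg.mpr ht0.le)
      calc ‖c v (f σ (s v ω)) + c v (g v (c v (f σ ω)))‖
          ≤ ‖c v (f σ (s v ω))‖ + ‖c v (g v (c v (f σ ω)))‖ := norm_add_le _ _
        _ ≤ Cc * ‖f σ (s v ω)‖ + Cg * ‖f σ ω‖ := add_le_add (hc _ _) (hg _ _)
        _ ≤ Cc * ‖f‖ + Cg * ‖f‖ := add_le_add (mul_le_mul_of_nonneg_left (hfn _ _) hCc0)
            (mul_le_mul_of_nonneg_left (hfn _ _) hCg0)
        _ = (Cc + Cg) * ‖f‖ := by ring
    set z : Finset V → Ω → S := fun σ ω => H (fun τ => f τ ω) σ with hz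
    have hfω : ∀ ω, ‖(fun τ => f τ ω : Finset V → S)‖ ≤ ‖f‖ := fun ω =>
      (pi_norm_le_iff_of_nonneg (norm_nonneg _)).mpr fun τ => hfn τ ω
    have hzn : ‖z‖ ≤ CH * ‖f‖ := by
      rw [pi_norm_le_iff_of_nonneg (by positivity)]
      intro σ
      rw [pi_norm_le_iff_of_nonneg (by positivity)]
      intro ω
      calc ‖z σ ω‖ ≤ ‖H (fun τ => f τ ω)‖ := norm_le_pi_norm _ σ
        _ ≤ CH * ‖(fun τ => f τ ω : Finset V → S)‖ := hCH _
        _ ≤ CH * ‖f‖ := mul_le_mul_of_nonneg_left (hfω ω) hCH0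
    obtain ⟨z', hz', hzz⟩ := hC Ω s hs t⁻¹ (inv_pos.mpr ht0) hδ1 z (fun ω => hH _)
    rw [inv_inv] at hz'
    refine ⟨z', hz', ?_⟩
    have hfz : ‖f - bd ν z‖ ≤ CΦ * (t⁻¹ * ((Cc + Cg) * ‖f‖)) := by
      rw [pi_norm_le_iff_of_nonneg (by positivity)]
      intro σ
      rw [pi_norm_le_iff_of_nonneg (by positivity)]
      intro ω
      have h1 := hHΦ (fun τ => f τ ω) (fun τ hτ => hf.supp τ ω hτ)
      have h2 : bd ν (fun τ => f τ ω) = 0 := by
        funext ρ
        rw [← bd_eval, hbd]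
        rfl
      rw [h2] at h1
      have h3 : (f - bd ν z) σ ω = Φ (fun τ v => if v ∈ τ then e v (f τ ω) else 0, 0) σ := by
        have h4 := congrFun h1 σ
        simp only [Pi.add_apply] at h4
        show f σ ω - bd ν z σ ω = _
        rw [bd_eval, h4]
        simp only [hz]
        abel
      rw [h3]
      calc ‖Φ (fun τ v => if v ∈ τ then e v (f τ ω) else 0, 0) σ‖
          ≤ ‖Φ (fun τ v => if v ∈ τ then e v (f τ ω) else 0, 0)‖ := norm_le_pi_norm _ σ
        _ ≤ CΦ * ‖((fun τ v => if v ∈ τ then e v (f τ ω) else 0, 0) :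
            (Finset V → V → S) × (Finset V → S))‖ := hCΦ _
        _ ≤ CΦ * (t⁻¹ * ((Cc + Cg) * ‖f‖)) := by
            apply mul_le_mul_of_nonneg_left _ hCΦ0
            rw [Prod.norm_def]
            apply max_le
            · rw [pi_norm_le_iff_of_nonneg (by positivity)]
              intro τ
              rw [pi_norm_le_iff_of_nonneg (by positivity)]
              intro v
              by_cases hv : v ∈ τ
              · simp only [hv, if_true]
                exact hev τ ω v hv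
              · simp only [hv, if_false, norm_zero]
                positivity
            · rw [norm_zero]
              positivity
    have hbw : ∀ w : Finset V → Ω → S, ‖bd ν w‖ ≤ Cb * ‖w‖ := by
      intro w
      rw [pi_norm_le_iff_of_nonneg (by positivity)]
      intro σ
      rw [pi_norm_le_iff_of_nonneg (by positivity)]
      intro ω
      rw [bd_eval]
      calc ‖bd ν (fun τ => w τ ω) σ‖ ≤ ‖bd ν (fun τ => w τ ω)‖ := norm_le_pi_norm _ σ
        _ ≤ Cb * ‖(fun τ => w τ ω : Finset V → S)‖ := hCb _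
        _ ≤ Cb * ‖w‖ := by
            apply mul_le_mul_of_nonneg_left _ hCb0
            rw [pi_norm_le_iff_of_nonneg (norm_nonneg _)]
            intro τ
            exact (norm_le_pi_norm (w τ) ω).trans (norm_le_pi_norm w τ)
    have e1 : f - bd ν z' = (f - bd ν z) - bd ν (z' - z) := by
      rw [map_sub]; abel
    rw [e1]
    calc ‖(f - bd ν z) - bd ν (z' - z)‖ ≤ ‖f - bd ν z‖ + ‖bd ν (z' - z)‖ := norm_sub_le _ _
      _ ≤ CΦ * (t⁻¹ * ((Cc + Cg) * ‖f‖)) + Cb * (C * t⁻¹ * (CH * ‖f‖)) := by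
          apply add_le_add hfz
          refine (hbw _).trans (mul_le_mul_of_nonneg_left ?_ hCb0)
          exact hzz.trans (mul_le_mul_of_nonneg_left hzn (by positivity))
      _ = (t⁻¹ * K) * ‖f‖ := by rw [hK]; ring
      _ ≤ 1 / 2 * ‖f‖ := mul_le_mul_of_nonneg_right hδK (norm_nonneg _)
      _ = ‖f‖ / 2 := by ring
  -- the subspaces
  set Z : Submodule ℝ (Finset V → Ω → S) :=
    twSubY G Y (At e g c t) s i ⊓ LinearMap.ker (bd ν) with hZ
  set B : Submodule ℝ (Finset V → Ω → S) :=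
    (twSubY G Y (At e g c t) s (i + 1)).map (bd ν) with hB
  have hBZ : B ≤ Z := by
    rintro _ ⟨y, hy, rfl⟩
    exact ⟨isTwY_bd ν hy, LinearMap.mem_ker.mpr (bd_bd ν hν y)⟩
  have hZB : Z ≤ B := by
    apply le_of_half Z B hBZ
    rintro f ⟨hf1, hf2⟩
    obtain ⟨z', hz', hn⟩ := key f hf1 hf2
    exact ⟨bd ν z', ⟨z', hz', rfl⟩, hn⟩
  obtain ⟨y, hy, hyf⟩ := hZB (show f ∈ Z from ⟨hf, hbd⟩)
  exact ⟨y, hy, hyf⟩

end Pool.Agent.H85.Fold2
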